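import Pool.Agent.Lib.MP_20522e_al.Gen

set_option autoImplicit false

namespace Pool.Agent.Lib.MP_20522e_al

section
variable {A : Type*} [AltRing A]

/-- the class `P` as a subgroup -/
def PS (x y z : A) : AddSubgroup A where
  carrier := {m | PP x y z m}
  zero_mem' := PP_zero x y z
  add_mem' := PP_add
  neg_mem' := PP_neg

theorem mem_PS {x y z m : A} : m ∈ PS x y z ↔ PP x y z m := Iff.rfl

/-- the ten operators on `A` -/
def opr (x y z : A) (i : Fin 10) (m : A) : A :=
  match i with
  | 0 => V x m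
  | 1 => V y m
  | 2 => V z m
  | 3 => U x m
  | 4 => U y m
  | 5 => U z m
  | 6 => U2 x y m
  | 7 => U2 x z m
  | 8 => U2 y z m
  | 9 => Th x y z m

theorem opr_add (x y z : A) (i : Fin 10) (m n : A) :
    opr x y z i (m + n) = opr x y z i m + opr x y z i n := by
  fin_cases i
  · exact V_add _ _ _
  · exact V_add _ _ _
  · exact V_add _ _ _
  · exact U_add _ _ _
  · exact U_add _ _ _
  · exact U_add _ _ _
  · exact U2_add _ _ _ _
  · exact U2_add _ _ _ _
  · exact U2_add _ _ _ _
  · exact Th_add _ _ _ _ _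

theorem opr_PP {x y z m : A} (h : PP x y z m) (i : Fin 10) : PP x y z (opr x y z i m) := by
  fin_cases i
  · exact PP_Vx h
  · exact PP_Vy h
  · exact PP_Vz h
  · exact PP_Ux h
  · exact PP_Uy h
  · exact PP_Uz h
  · exact PP_U2xy h
  · exact PP_U2xz h
  · exact PP_U2yz h
  · exact PP_Th' h

theorem opr_comm_lt {x y z m : A} (h : PP x y z m) (i j : Fin 10) (hij : i < j) :
    opr x y z i (opr x y z j m) = opr x y z j (opr x y z i m) := by
  fin_cases i <;> fin_cases j <;> first
    | (exfalso; revert hij; decide)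
    | skip
  · exact cVxVy h
  · exact cVxVz h
  · exact cVxUx h
  · exact cVxUy h
  · exact cVxUy h.swap23
  · exact cVxUxy h
  · exact cVxUxz h
  · exact cVxUyz h
  · exact cVxTh h
  -- Vy
  · exact cVyVz h
  · exact cVxUy h.swap
  · exact cVxUx h.swap
  · exact cVxUy h.cyc
  · have := cVxUxy h.swap; rw [U2_comm y x, U2_comm y x] at this; exact this
  · exact cVzUxy h.swap23
  · exact cVxUxy h.cyc
  · exact cVyTh h
  -- Vz
  · exact cVxUy h.cyc.cyc
  · exact cVxUy h.cyc.cyc.swap23
  · exact cVxUx h.cyc.cyc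
  · exact cVzUxy h
  · have := cVxUxy h.cyc.cyc; rw [U2_comm z x, U2_comm z x] at this; exact this
  · have := cVxUxy h.cyc.cyc.swap23; rw [U2_comm z y, U2_comm z y] at this; exact this
  · exact cVzTh h
  -- Ux
  · exact cUxUy h
  · exact cUxUy h.swap23
  · exact cUxUxy h
  · exact cUxUxz h
  · exact cUxUyz h
  · exact cUxTh h
  -- Uy
  · exact cUxUy h.cyc
  · have := cUxUxy h.swap; rw [U2_comm y x, U2_comm y x] at this; exact this
  · exact cUzUxy h.swap23
  · exact cUxUxy h.cyc
  · exact cUyTh h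
  -- Uz
  · exact cUzUxy h
  · have := cUxUxy h.cyc.cyc; rw [U2_comm z x, U2_comm z x] at this; exact this
  · have := cUxUxy h.cyc.cyc.swap23; rw [U2_comm z y, U2_comm z y] at this; exact this
  · exact cUzTh h
  -- Uxy
  · exact cUxyUxz h
  · exact cUxyUyz h
  · exact cUxyTh h
  -- Uxz
  · exact cUxzUyz h
  · exact cUxzTh h
  -- Uyz
  · exact cUyzTh h

theorem opr_comm {x y z m : A} (h : PP x y z m) (i j : Fin 10) :
    opr x y z i (opr x y z j m) = opr x y z j (opr x y z i m) := by
  rcases lt_trichotomy i j with hij | hij | hij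
  · exact opr_comm_lt h i j hij
  · rw [hij]
  · exact (opr_comm_lt h j i hij).symm

/-- the operators as endomorphisms of the class `P` -/
def opE (x y z : A) (i : Fin 10) : Module.End ℤ (PS x y z) :=
  ({ toFun := fun m => ⟨opr x y z i m.1, opr_PP m.2 i⟩
     map_zero' := by
       apply Subtype.ext
       have := opr_add x y z i 0 0
       rw [add_zero] at this
       exact (left_eq_add.mp this)
     map_add' := fun m n => Subtype.ext (opr_add x y z i m.1 n.1) } :
    PS x y z →+ PS x y z).toIntLinearMap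

theorem opE_apply (x y z : A) (i : Fin 10) (m : PS x y z) :
    (opE x y z i m : A) = opr x y z i m.1 := rfl

theorem opE_comm (x y z : A) (i j : Fin 10) :
    opE x y z i * opE x y z j = opE x y z j * opE x y z i := by
  apply LinearMap.ext
  intro m
  apply Subtype.ext
  exact opr_comm m.2 i j

/-- the commutative algebra generated by the operators -/
abbrev OA (x y z : A) : Subalgebra ℤ (Module.End ℤ (PS x y z)) :=
  Algebra.adjoin ℤ (Set.range (opE x y z))

@[reducible] noncomputable def OAring (x y z : A) : CommRing (OA x y z) :=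
  Algebra.adjoinCommRingOfComm ℤ (by
    rintro _ ⟨i, rfl⟩ _ ⟨j, rfl⟩
    exact opE_comm x y z i j)

/-- polynomials in the ten operators -/
noncomputable def phi (x y z : A) : MvPolynomial (Fin 10) ℤ →+* Module.End ℤ (PS x y z) :=
  letI := OAring x y z
  (Subalgebra.val (OA x y z)).toRingHom.comp
    (MvPolynomial.eval₂Hom (Int.castRingHom (OA x y z))
      (fun i => (⟨opE x y z i, Algebra.subset_adjoin ⟨i, rfl⟩⟩ : OA x y z)))

theorem phi_X (x y z : A) (i : Fin 10) : phi x y z (MvPolynomial.X i) = opE x y z i := by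
  letI := OAring x y z
  unfold phi
  rw [RingHom.comp_apply, MvPolynomial.eval₂Hom_X']
  rfl

/-- the associator of the generators as an element of the class `P` -/
def ww (x y z : A) : PS x y z := ⟨asc x y z, PP_base x y z⟩

/-- the orbit of the associator -/
noncomputable def Om (x y z : A) : AddSubgroup A where
  carrier := {m | ∃ p, m = (phi x y z p (ww x y z) : A)}
  zero_mem' := ⟨0, by rw [map_zero]; rfl⟩
  add_mem' := by
    rintro _ _ ⟨p, rfl⟩ ⟨q, rfl⟩
    exact ⟨p + q, by rw [map_add]; rfl⟩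
  neg_mem' := by
    rintro _ ⟨p, rfl⟩
    exact ⟨-p, by rw [map_neg]; rfl⟩

theorem opr_phi (x y z : A) (i : Fin 10) (p : MvPolynomial (Fin 10) ℤ) :
    opr x y z i (phi x y z p (ww x y z) : A) =
      (phi x y z (MvPolynomial.X i * p) (ww x y z) : A) := by
  rw [map_mul, phi_X]
  rfl

theorem Om_opr {x y z m : A} (i : Fin 10) (hm : m ∈ Om x y z) : opr x y z i m ∈ Om x y z := by
  obtain ⟨p, rfl⟩ := hm
  exact ⟨_, opr_phi x y z i p⟩

theorem asc_mem_Om (x y z : A) : asc x y z ∈ Om x y z := ⟨1, by rw [map_one]; rfl⟩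

theorem Om_Stab (x y z : A) : Stab x y z (Om x y z) where
  pp := by
    rintro _ ⟨p, rfl⟩
    exact (phi x y z p (ww x y z)).2
  vx _ hm := Om_opr 0 hm
  vy _ hm := Om_opr 1 hm
  vz _ hm := Om_opr 2 hm
  ux _ hm := Om_opr 3 hm
  uy _ hm := Om_opr 4 hm
  uz _ hm := Om_opr 5 hm
  uxy _ hm := Om_opr 6 hm
  uxz _ hm := Om_opr 7 hm
  uyz _ hm := Om_opr 8 hm
  th _ hm := Om_opr 9 hm

/-- Structure theorem: an element of an alternative ring generated by `1, x, y, z` which vanishes
in the free associative algebra is a combination of the eight right words on the orbit of the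
associator. -/
theorem structure_thm {x y z : A}
    (hgen : NonUnitalSubring.closure {1, x, y, z} = (⊤ : NonUnitalSubring A))
    (π : A →+* FreeAlgebra ℤ (Fin 3)) (hx : π x = FreeAlgebra.ι ℤ 0)
    (hy : π y = FreeAlgebra.ι ℤ 1) (hz : π z = FreeAlgebra.ι ℤ 2) {u : A} (hu : π u = 0) :
    u ∈ SS x y z (Om x y z) :=
  mem_of_map_zero (fun s hs a => SS_ideal (Om_Stab x y z) (by rw [hgen]; trivial) hs)
    (SS0 (asc_mem_Om x y z)) hgen π hx hy hz hu

end
end Pool.Agent.Lib.MP_20522e_al
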