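import Pool.Agent.Lib.MP_20522e_al.Basic

set_option autoImplicit false

namespace Pool.Agent.Lib.MP_20522e_al

section
variable {A : Type*} [AltRing A]

@[simp] theorem asc_one1 (b c : A) : asc 1 b c = 0 := by unfold asc; simp
@[simp] theorem asc_one2 (b c : A) : asc b 1 c = 0 := by unfold asc; simp
@[simp] theorem asc_one3 (b c : A) : asc b c 1 = 0 := by unfold asc; simp
@[simp] theorem asc_zero1 (b c : A) : asc 0 b c = 0 := by unfold asc; simp
@[simp] theorem asc_zero2 (b c : A) : asc b 0 c = 0 := by unfold asc; simp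
@[simp] theorem asc_zero3 (b c : A) : asc b c 0 = 0 := by unfold asc; simp
theorem asc_neg1 (a b c : A) : asc (-a) b c = - asc a b c := by
  unfold asc; simp only [neg_mul]; abel
theorem asc_neg2 (a b c : A) : asc a (-b) c = - asc a b c := by
  unfold asc; simp only [neg_mul, mul_neg]; abel
theorem asc_neg3 (a b c : A) : asc a b (-c) = - asc a b c := by
  unfold asc; simp only [mul_neg]; abel

/-- closure of an additive subgroup under multiplications by generators -/
theorem LR_closure (N : AddSubgroup A) (s : Set A) (hL : ∀ g ∈ s, ∀ n ∈ N, g * n ∈ N)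
    (hR : ∀ g ∈ s, ∀ n ∈ N, n * g ∈ N) {a : A} (ha : a ∈ NonUnitalSubring.closure s) :
    ∀ n ∈ N, a * n ∈ N ∧ n * a ∈ N := by
  induction ha using NonUnitalSubring.closure_induction with
  | mem g hg => exact fun n hn => ⟨hL g hg n hn, hR g hg n hn⟩
  | zero => exact fun n _ => ⟨by rw [zero_mul]; exact N.zero_mem, by rw [mul_zero]; exact N.zero_mem⟩
  | add a b _ _ iha ihb =>
    exact fun n hn => ⟨by rw [add_mul]; exact N.add_mem (iha n hn).1 (ihb n hn).1,
      by rw [mul_add]; exact N.add_mem (iha n hn).2 (ihb n hn).2⟩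
  | neg a _ iha =>
    exact fun n hn => ⟨by rw [neg_mul]; exact N.neg_mem (iha n hn).1,
      by rw [mul_neg]; exact N.neg_mem (iha n hn).2⟩
  | mul a b _ _ iha ihb =>
    intro n hn
    have h1 : asc a n b ∈ N := by
      unfold asc
      exact N.sub_mem (ihb _ (iha n hn).1).2 (iha _ (ihb n hn).2).1
    constructor
    · have : (a * b) * n = a * (b * n) - asc a n b := by
        have h := asc23 a b n
        unfold asc at h ⊢
        linear_combination (norm := abel) h
      rw [this]
      exact N.sub_mem (iha _ (ihb n hn).1).1 h1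
    · have : n * (a * b) = (n * a) * b + asc a n b := by
        have h := asc12 n a b
        unfold asc at h ⊢
        linear_combination (norm := abel) -h
      rw [this]
      exact N.add_mem (ihb _ (iha n hn).2).2 h1

theorem LR_mem (N : AddSubgroup A) (s : Set A) (hs : ∀ g ∈ s, g ∈ N)
    (hL : ∀ g ∈ s, ∀ n ∈ N, g * n ∈ N)
    (hR : ∀ g ∈ s, ∀ n ∈ N, n * g ∈ N) {a : A} (ha : a ∈ NonUnitalSubring.closure s) : a ∈ N := by
  induction ha using NonUnitalSubring.closure_induction with
  | mem g hg => exact hs g hg
  | zero => exact N.zero_mem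
  | add a b _ _ iha ihb => exact N.add_mem iha ihb
  | neg a _ iha => exact N.neg_mem iha
  | mul a b ha _ _ ihb => exact (LR_closure N s hL hR ha b ihb).1

/-- the unital subring generated by two elements -/
def Kc (x y : A) : NonUnitalSubring A := NonUnitalSubring.closure {1, x, y}

theorem one_mem_Kc (x y : A) : (1 : A) ∈ Kc x y :=
  NonUnitalSubring.subset_closure (by simp)
theorem left_mem_Kc (x y : A) : x ∈ Kc x y :=
  NonUnitalSubring.subset_closure (by simp)
theorem right_mem_Kc (x y : A) : y ∈ Kc x y :=
  NonUnitalSubring.subset_closure (by simp)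

theorem Kc_comm (x y : A) : Kc x y = Kc y x := by
  unfold Kc
  congr 1
  rw [Set.pair_comm]

theorem Kc_le {x y : A} {S : NonUnitalSubring A} (h1 : (1 : A) ∈ S) (hx : x ∈ S) (hy : y ∈ S) :
    Kc x y ≤ S := by
  unfold Kc
  rw [NonUnitalSubring.closure_le]
  intro a ha
  simp only [Set.mem_insert_iff, Set.mem_singleton_iff] at ha
  rcases ha with rfl | rfl | rfl <;> assumption

@[elab_as_elim]
theorem Kc_induction {x y : A} {p : (a : A) → a ∈ Kc x y → Prop}
    (one : p 1 (one_mem_Kc x y)) (left : p x (left_mem_Kc x y)) (right : p y (right_mem_Kc x y))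
    (zero : p 0 (zero_mem _))
    (add : ∀ a b ha hb, p a ha → p b hb → p (a + b) (add_mem ha hb))
    (neg : ∀ a ha, p a ha → p (-a) (neg_mem ha))
    (mul : ∀ a b ha hb, p a ha → p b hb → p (a * b) (mul_mem ha hb))
    {a : A} (ha : a ∈ Kc x y) : p a ha := by
  have key : ∀ a ∈ NonUnitalSubring.closure {1, x, y}, ∀ h : a ∈ Kc x y, p a h := by
    intro a ha'
    induction ha' using NonUnitalSubring.closure_induction with
    | mem g hg =>
      intro h
      simp only [Set.mem_insert_iff, Set.mem_singleton_iff] at hg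
      rcases hg with rfl | rfl | rfl
      · exact one
      · exact left
      · exact right
    | zero => intro _; exact zero
    | add a b ha hb iha ihb => intro _; exact add a b ha hb (iha ha) (ihb hb)
    | neg a ha iha => intro _; exact neg a ha (iha ha)
    | mul a b ha hb iha ihb => intro _; exact mul a b ha hb (iha ha) (ihb hb)
  exact key a ha ha

theorem artin1 (y z : A) {m : A} (hm : m ∈ Kc y z) : asc m y z = 0 := by
  let N : AddSubgroup A :=
    { carrier := {m | asc m y z = 0}
      zero_mem' := by simp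
      add_mem' := by
        intro a b ha hb
        simp only [Set.mem_ofPred_eq] at *
        rw [asc_add1, ha, hb, add_zero]
      neg_mem' := by
        intro a ha
        simp only [Set.mem_ofPred_eq] at *
        rw [asc_neg1, ha, neg_zero] }
  have key : m ∈ N := by
    refine LR_mem N {1, y, z} ?_ ?_ ?_ hm
    · intro g hg
      simp only [Set.mem_insert_iff, Set.mem_singleton_iff] at hg
      change asc g y z = 0
      rcases hg with rfl | rfl | rfl
      · simp
      · exact asc_aa _ _
      · exact asc_aba _ _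
    · intro g hg n hn
      simp only [Set.mem_insert_iff, Set.mem_singleton_iff] at hg
      change asc n y z = 0 at hn
      change asc (g * n) y z = 0
      rcases hg with rfl | rfl | rfl
      · rw [one_mul]; exact hn
      · rw [asc12, mo_a, asc12, hn]; simp
      · rw [← asc_cyc, mo_a, asc_cyc, hn]; simp
    · intro g hg n hn
      simp only [Set.mem_insert_iff, Set.mem_singleton_iff] at hg
      change asc n y z = 0 at hn
      change asc (n * g) y z = 0
      rcases hg with rfl | rfl | rfl
      · rw [mul_one]; exact hn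
      · rw [asc12, mo_b, asc12, hn]; simp
      · rw [← asc_cyc, mo_b, asc_cyc, hn]; simp
  exact key

theorem artin2 (y z : A) {a : A} (ha : a ∈ Kc y z) :
    ∀ m ∈ Kc y z, asc a y m = 0 ∧ asc a z m = 0 := by
  induction ha using Kc_induction with
  | one => intro m _; simp
  | left =>
    intro m hm
    exact ⟨asc_aa _ _, by rw [← asc_cyc, artin1 y z hm]⟩
  | right =>
    intro m hm
    refine ⟨?_, asc_aa _ _⟩
    rw [asc12, ← asc_cyc, artin1 y z hm, neg_zero]
  | zero => intro m _; simp
  | add a b ha hb iha ihb =>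
    intro m hm
    have h1 := iha m hm
    have h2 := ihb m hm
    rw [asc_add1, asc_add1, h1.1, h1.2, h2.1, h2.2]; simp
  | neg a ha iha =>
    intro m hm
    have h1 := iha m hm
    rw [asc_neg1, asc_neg1, h1.1, h1.2]; simp
  | mul a b ha hb iha ihb =>
    intro m hm
    have key : ∀ g : A, (∀ m ∈ Kc y z, asc a g m = 0) → (∀ m ∈ Kc y z, asc b g m = 0) →
        asc (a * b) g m = 0 := by
      intro g hga hgb
      have e : kf a b g m = 0 := by
        rw [kf12, kf24, kf34]
        unfold kf
        rw [asc_cyc (b * m), asc_cyc b, asc_cyc m]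
        rw [hga _ (mul_mem hb hm), hga _ hb, hga _ hm]
        simp
      unfold kf at e
      rw [hga m hm, hgb m hm] at e
      simpa using e
    exact ⟨key y (fun m hm => (iha m hm).1) (fun m hm => (ihb m hm).1),
      key z (fun m hm => (iha m hm).2) (fun m hm => (ihb m hm).2)⟩

/-- Artin's theorem -/
theorem artin {y z : A} {a b c : A} (ha : a ∈ Kc y z) (hb : b ∈ Kc y z) (hc : c ∈ Kc y z) :
    asc a b c = 0 := by
  induction hb using Kc_induction generalizing a c with
  | one => simp
  | left => exact (artin2 _ _ ha c hc).1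
  | right => exact (artin2 _ _ ha c hc).2
  | zero => simp
  | add b b' hb hb' ih ih' =>
    rw [asc_add2, ih ha hc, ih' ha hc, add_zero]
  | neg b hb ih => rw [asc_neg2, ih ha hc, neg_zero]
  | mul b b' hb hb' ih ih' =>
    have h := teich a b b' c
    rw [ih' (mul_mem ha hb) hc, ih ha (mul_mem hb' hc), ih' hb hc, ih ha hb'] at h
    linear_combination (norm := simp) -h

theorem artin_assoc {y z : A} {a b c : A} (ha : a ∈ Kc y z) (hb : b ∈ Kc y z) (hc : c ∈ Kc y z) :
    (a * b) * c = a * (b * c) := by
  have := artin ha hb hc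
  unfold asc at this
  exact sub_eq_zero.mp this

/-- powers -/
def pw (x : A) : ℕ → A
  | 0 => 1
  | n + 1 => x * pw x n

@[simp] theorem pw_zero (x : A) : pw x 0 = 1 := rfl
theorem pw_succ (x : A) (n : ℕ) : pw x (n + 1) = x * pw x n := rfl
@[simp] theorem pw_one (x : A) : pw x 1 = x := by rw [pw_succ, pw_zero, mul_one]

theorem pw_mem_left (x y : A) (n : ℕ) : pw x n ∈ Kc x y := by
  induction n with
  | zero => exact one_mem_Kc x y
  | succ n ih => exact mul_mem (left_mem_Kc x y) ih

theorem pw_mem_right (x y : A) (n : ℕ) : pw y n ∈ Kc x y := by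
  rw [Kc_comm]; exact pw_mem_left y x n

theorem pw_mul (x : A) (i j : ℕ) : pw x i * pw x j = pw x (i + j) := by
  induction i with
  | zero => rw [pw_zero, one_mul, Nat.zero_add]
  | succ i ih =>
    rw [pw_succ, artin_assoc (left_mem_Kc x x) (pw_mem_left x x i) (pw_mem_left x x j), ih,
      Nat.succ_add, pw_succ]

theorem pw_comm (x : A) (i : ℕ) : pw x i * x = x * pw x i := by
  have h1 := pw_mul x i 1
  have h2 := pw_mul x 1 i
  rw [pw_one] at h1 h2
  rw [h1, h2, Nat.add_comm]

theorem pw_assoc (x c : A) (i j : ℕ) : pw x i * (pw x j * c) = pw x (i + j) * c := by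
  rw [← pw_mul, artin_assoc (pw_mem_left x c i) (pw_mem_left x c j) (right_mem_Kc x c)]

theorem pw_assoc1 (x c : A) (j : ℕ) : x * (pw x j * c) = pw x (j + 1) * c := by
  rw [pw_succ, artin_assoc (left_mem_Kc x c) (pw_mem_left x c j) (right_mem_Kc x c)]

end
end Pool.Agent.Lib.MP_20522e_al
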