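import Pool.Agent.Lib.MP_20522e_al.Words

set_option autoImplicit false

namespace Pool.Agent.Lib.MP_20522e_al

section
variable {A : Type*} [AltRing A]

open MulOpposite (op unop)

theorem asc_op (a b c : A) : asc (op a) (op b) (op c) = op (asc a b c) := by
  have h : asc a b c = - asc c b a := by rw [asc_cyc a b c, asc12 b c a]
  rw [h]
  unfold asc
  simp only [← MulOpposite.op_mul, ← MulOpposite.op_sub]
  congr 1
  abel

theorem kf_even (p c x y : A) : kf p c x y = kf x y p c := by
  rw [kf12, kf23, kf14, kf12, neg_neg, neg_neg]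

theorem asc_mul_y (x y c : A) : asc x y c * y = asc x y (y * c) := by
  rw [asc12 x y (y * c), mo_a', asc12 x y c, neg_mul]

theorem asc_mul_x (x y c : A) : asc x y c * x = asc x y (x * c) := (mo_a' x y c).symm

theorem x_mul_asc (x y c : A) : x * asc x y c = asc x y (c * x) := (mo_b' x y c).symm

theorem y_mul_asc (x y c : A) : y * asc x y c = asc x y (c * y) := by
  rw [asc12 x y (c * y), mo_b', asc12 x y c, mul_neg]

theorem asc_gen (x y c : A) : (asc x y c * y) * x = asc x y c * (x * y) := by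
  set m := asc x y c with hm
  have h1 : kf (x * y) c x y = kf x y (x * y) c := kf_even _ _ _ _
  have h2 : kf (x * y) c x y = asc ((x * y) * c) x y - m * (x * y) := by
    unfold kf
    rw [artin1 x y (mul_mem (left_mem_Kc x y) (right_mem_Kc x y)), mul_zero, sub_zero,
      asc_cyc c x y]
  have h3 : kf x y (x * y) c = asc y m x := by
    unfold kf
    rw [asc_aa, mo_a, mo_b, asc12 y x c, ← hm]
    unfold asc
    simp only [mul_neg, neg_mul]; abel
  have h4 : asc y m x = asc x y m := by rw [asc_cyc x y m]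
  have h5 : asc ((x * y) * c) x y = asc x y ((x * y) * c) := asc_cyc _ _ _
  have h6 : asc x y (x * (y * c)) = (m * y) * x := by
    rw [mo_a', ← asc_mul_y]
  have h7 : asc x y m = asc x y ((x * y) * c) - (m * y) * x := by
    rw [← h6, ← asc_sub3]
    rfl
  rw [h2, h3, h4, h5] at h1
  linear_combination (norm := abel) h1 + h7

/-- the additive group of associators `(x, y, c)` -/
def NN (x y : A) : AddSubgroup A where
  carrier := {m | ∃ c, m = asc x y c}
  zero_mem' := ⟨0, by simp⟩
  add_mem' := by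
    rintro _ _ ⟨c, rfl⟩ ⟨d, rfl⟩
    exact ⟨c + d, (asc_add3 _ _ _ _).symm⟩
  neg_mem' := by
    rintro _ ⟨c, rfl⟩
    exact ⟨-c, (asc_neg3 _ _ _).symm⟩

theorem RC_asc_mem (x y c : A) : RC x y (asc x y c) := by
  refine RC_of_module (NN x y) ?_ ?_ ?_ ?_ (⟨c, rfl⟩ : asc x y c ∈ NN x y)
  · rintro _ ⟨c, rfl⟩
    exact ⟨_, asc_mul_x _ _ _⟩
  · rintro _ ⟨c, rfl⟩
    exact ⟨_, asc_mul_y _ _ _⟩
  · rintro _ ⟨c, rfl⟩
    exact asc_gen _ _ _
  · rintro _ ⟨c, rfl⟩
    have h := asc_gen y x c
    rw [asc12 x y c]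
    simp only [neg_mul]
    rw [h]

theorem CC_asc_mem (x y c : A) : CC x y (asc x y c) := by
  refine ⟨RC_asc_mem x y c, ?_⟩
  apply RC_op.1
  rw [← asc_op]
  exact RC_asc_mem _ _ _

/-! ### the relations `F` -/

/-- `(m b)(x^k c) = m (x^k (c b))` for `b ∈ {y, z}` and `c ∈ ⟨1, y, z⟩` -/
def FR (x y z : A) (k : ℕ) (m : A) : Prop :=
  ∀ c ∈ Kc y z, (m * y) * (pw x k * c) = m * (pw x k * (c * y)) ∧
    (m * z) * (pw x k * c) = m * (pw x k * (c * z))

theorem FR_zero_iff {x y z m : A} : FR x y z 0 m ↔ RC y z m := by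
  constructor
  · intro h
    apply RC_of_gen
    · intro c hc; have := (h c hc).1; simpa using this
    · intro c hc; have := (h c hc).2; simpa using this
  · intro h c hc
    simp only [pw_zero, one_mul]
    exact ⟨h y (left_mem_Kc y z) c hc, h z (right_mem_Kc y z) c hc⟩

theorem FR_aux {a b c m : A} (hV : V a (m * b) = V a m * b)
    (hm : (m * b) * c = m * (c * b)) :
    (m * b) * (a * c) - m * (a * (c * b)) = (V a m * b) * c - V a m * (c * b) := by
  have e1 := la2 a (m * b) c
  have e2 := la2 a m (c * b)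
  have e3 : (a * (m * b)) * c + ((m * b) * a) * c = (V a m * b) * c := by
    rw [← hV, ← add_mul]; rfl
  have e4 : (a * m) * (c * b) + (m * a) * (c * b) = V a m * (c * b) := by
    rw [← add_mul]; rfl
  rw [hm] at e1
  linear_combination (norm := abel) e2 - e1 + e3 - e4

theorem FR_iff {x y z m : A} {k : ℕ} (hxy : RC x y m) (hxz : RC x z m) (hyz : RC y z m) :
    FR x y z k m ↔ RC y z (V (pw x k) m) := by
  have hy : ∀ c ∈ Kc y z, (m * y) * (pw x k * c) - m * (pw x k * (c * y)) =
      (V (pw x k) m * y) * c - V (pw x k) m * (c * y) := fun c hc =>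
    FR_aux (V_mul_right hxy (pw_mem_left x y k) (right_mem_Kc x y))
      (hyz y (left_mem_Kc y z) c hc)
  have hz : ∀ c ∈ Kc y z, (m * z) * (pw x k * c) - m * (pw x k * (c * z)) =
      (V (pw x k) m * z) * c - V (pw x k) m * (c * z) := fun c hc =>
    FR_aux (V_mul_right hxz (pw_mem_left x z k) (right_mem_Kc x z))
      (hyz z (right_mem_Kc y z) c hc)
  constructor
  · intro h
    apply RC_of_gen
    · intro c hc
      have := hy c hc
      rw [(h c hc).1, sub_self] at this
      exact (sub_eq_zero.mp this.symm)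
    · intro c hc
      have := hz c hc
      rw [(h c hc).2, sub_self] at this
      exact (sub_eq_zero.mp this.symm)
  · intro h c hc
    constructor
    · have := hy c hc
      rw [h y (left_mem_Kc y z) c hc, sub_self] at this
      exact (sub_eq_zero.mp this)
    · have := hz c hc
      rw [h z (right_mem_Kc y z) c hc, sub_self] at this
      exact (sub_eq_zero.mp this)

theorem FR_U {x y z m : A} {k : ℕ} (hxy : RC x y m) (hxz : RC x z m)
    (h : FR x y z (k + 1) m) : FR x y z k (U x m) := by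
  have key : ∀ b : A, RC x b m → (∀ c ∈ Kc y z, (m * b) * (pw x (k + 1) * c) =
      m * (pw x (k + 1) * (c * b))) → b ∈ Kc y z → ∀ c ∈ Kc y z,
      (U x m * b) * (pw x k * c) = U x m * (pw x k * (c * b)) := by
    intro b hb hF hbK c hc
    have e1 : U x m * b = x * ((m * b) * x) := by
      unfold U
      rw [lmouf, hb b (right_mem_Kc x b) x (left_mem_Kc x b)]
    have e2 : U x m * (pw x k * (c * b)) = x * (m * (pw x (k + 1) * (c * b))) := by
      unfold U
      rw [lmouf, pw_assoc1]
    rw [e1, e2, ← flex, lmouf, pw_assoc1, hF c hc]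
  intro c hc
  exact ⟨key y hxy (fun c hc => (h c hc).1) (left_mem_Kc y z) c hc,
    key z hxz (fun c hc => (h c hc).2) (right_mem_Kc y z) c hc⟩

/-! ### the base element -/

theorem kf_pw (x y z : A) (j : ℕ) : kf x (pw x j) y z = 0 := by
  rw [← kf_even]
  unfold kf
  have h : ∀ m : A, asc m x (pw x j) = 0 := fun m =>
    artin (left_mem_Kc m x) (right_mem_Kc m x) (pw_mem_right m x j)
  rw [h, h, h]; simp

theorem kf_pw' (x y z : A) (j : ℕ) : kf (pw x j) x y z = 0 := by
  rw [kf12, kf_pw, neg_zero]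

/-- `ω_j = (x^j, y, z)` -/
def om (x y z : A) (j : ℕ) : A := asc (pw x j) y z

theorem om_succ (x y z : A) (j : ℕ) :
    om x y z (j + 1) = pw x j * asc x y z + om x y z j * x := by
  have h := kf_pw x y z j
  unfold kf at h
  unfold om
  rw [pw_succ]
  linear_combination (norm := abel) h

theorem om_succ' (x y z : A) (j : ℕ) :
    om x y z (j + 1) = x * om x y z j + asc x y z * pw x j := by
  have h := kf_pw' x y z j
  unfold kf at h
  unfold om
  rw [pw_succ, ← pw_comm]
  linear_combination (norm := abel) h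

theorem om_zero (x y z : A) : om x y z 0 = 0 := by unfold om; simp

theorem om_one (x y z : A) : om x y z 1 = asc x y z := by unfold om; simp

theorem V_om (x y z : A) (j : ℕ) :
    V x (om x y z (j + 1)) = om x y z (j + 2) + U x (om x y z j) := by
  have h1 := om_succ' x y z (j + 1)
  have h2 := om_succ' x y z j
  have h3 : (asc x y z * pw x j) * x = asc x y z * pw x (j + 1) := by
    rw [artin_assoc (left_mem_Kc _ x) (pw_mem_right _ x j) (right_mem_Kc _ x), pw_comm, pw_succ]
  unfold V U
  rw [show j + 2 = (j + 1) + 1 from rfl, h1]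
  conv_lhs => rw [add_comm]
  nth_rewrite 1 [h2]
  rw [add_mul, h3]
  abel

theorem CC_yz_om (x y z : A) (j : ℕ) : CC y z (om x y z j) := by
  unfold om; rw [asc_cyc]; exact CC_asc_mem _ _ _

theorem CC_xy_asc (x y z : A) : CC x y (asc x y z) := CC_asc_mem _ _ _

theorem CC_xz_asc (x y z : A) : CC x z (asc x y z) := by
  rw [asc23]; exact CC_neg (CC_asc_mem _ _ _)

theorem CC_xy_om (x y z : A) (j : ℕ) : CC x y (om x y z j) := by
  induction j with
  | zero => rw [om_zero]; exact CC_zero _ _
  | succ j ih =>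
    rw [om_succ]
    exact CC_add (CC_mul_left (CC_xy_asc x y z) (pw_mem_left x y j))
      (CC_mul_right ih (left_mem_Kc x y))

theorem CC_xz_om (x y z : A) (j : ℕ) : CC x z (om x y z j) := by
  induction j with
  | zero => rw [om_zero]; exact CC_zero _ _
  | succ j ih =>
    rw [om_succ]
    exact CC_add (CC_mul_left (CC_xz_asc x y z) (pw_mem_left x z j))
      (CC_mul_right ih (left_mem_Kc x z))

/-- `V_{x^{n+2}} m = V_x V_{x^{n+1}} m - U_x V_{x^n} m` -/
theorem V_pw_rec (x m : A) (n : ℕ) :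
    V (pw x (n + 2)) m = V x (V (pw x (n + 1)) m) - U x (V (pw x n) m) := by
  have ha : ∀ {a b c : A}, a ∈ Kc x m → b ∈ Kc x m → c ∈ Kc x m → (a * b) * c = a * (b * c) :=
    fun ha hb hc => artin_assoc ha hb hc
  have hx := left_mem_Kc x m
  have hm := right_mem_Kc x m
  have hp := fun k => pw_mem_left x m k
  unfold V U
  simp only [mul_add, add_mul]
  rw [pw_succ x (n + 1), pw_succ x n]
  have e1 : x * (m * (x * pw x n)) = (x * (m * pw x n)) * x := by
    rw [← pw_comm, ← ha hm (hp n) hx, ← ha hx (mul_mem hm (hp n)) hx]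
  have e2 : (x * (x * pw x n)) * m = x * ((x * pw x n) * m) := ha hx (mul_mem hx (hp n)) hm
  have e3 : m * (x * (x * pw x n)) = (m * (x * pw x n)) * x := by
    rw [ha hm (mul_mem hx (hp n)) hx, ← pw_succ, ← pw_succ, pw_comm, ← pw_succ]
  have e4 : ((x * pw x n) * m) * x = (x * (pw x n * m)) * x := by
    rw [ha hx (hp n) hm]
  rw [e1, e2, e3, e4]
  abel

theorem V_pw_comm (x m : A) (n : ℕ) : V x (V (pw x n) m) = V (pw x n) (V x m) := by
  have ha : ∀ {a b c : A}, a ∈ Kc x m → b ∈ Kc x m → c ∈ Kc x m → (a * b) * c = a * (b * c) :=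
    fun ha hb hc => artin_assoc ha hb hc
  have hx := left_mem_Kc x m
  have hm := right_mem_Kc x m
  have hp := fun k => pw_mem_left x m k
  unfold V
  simp only [mul_add, add_mul]
  rw [← ha hx (hp n) hm, ← ha hx hm (hp n), ha (hp n) hm hx, ha hm (hp n) hx, pw_comm,
    ← ha (hp n) hx hm, pw_comm, ha hm hx (hp n)]
  abel

theorem U_pw_comm (x m : A) (n : ℕ) : U x (V (pw x n) m) = V (pw x n) (U x m) := by
  have ha : ∀ {a b c : A}, a ∈ Kc x m → b ∈ Kc x m → c ∈ Kc x m → (a * b) * c = a * (b * c) :=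
    fun ha hb hc => artin_assoc ha hb hc
  have hx := left_mem_Kc x m
  have hm := right_mem_Kc x m
  have hp := fun k => pw_mem_left x m k
  unfold V U
  simp only [mul_add, add_mul]
  congr 1
  · rw [← ha hx (hp n) hm, ← pw_comm, ha (hp n) hx hm, ha (hp n) (mul_mem hx hm) hx]
  · rw [ha hx (mul_mem hm (hp n)) hx, ha hm (hp n) hx, pw_comm, ← ha hm hx (hp n),
      ← ha hx (mul_mem hm hx) (hp n), ha hx hm hx]

theorem FR_om (x y z : A) (n : ℕ) : ∀ j, FR x y z n (om x y z j) := by
  induction n using Nat.strong_induction_on with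
  | _ n ihn =>
  match n, ihn with
  | 0, _ => exact fun j => FR_zero_iff.2 (CC_yz_om x y z j).1
  | 1, ihn =>
    intro j
    have base : ∀ j, FR x y z 1 (om x y z j) ↔ RC y z (V (pw x 1) (om x y z j)) := fun j =>
      FR_iff (CC_xy_om x y z j).1 (CC_xz_om x y z j).1 (CC_yz_om x y z j).1
    induction j with
    | zero =>
      rw [base, om_zero, V_zero]
      exact RC_zero _ _
    | succ j ihj =>
      rw [base, pw_one, V_om]
      refine RC_add (CC_yz_om x y z _).1 ?_
      exact FR_zero_iff.1 (FR_U (CC_xy_om x y z j).1 (CC_xz_om x y z j).1 ihj)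
  | n + 2, ihn =>
    intro j
    have base : ∀ j, FR x y z (n + 2) (om x y z j) ↔ RC y z (V (pw x (n + 2)) (om x y z j)) :=
      fun j => FR_iff (CC_xy_om x y z j).1 (CC_xz_om x y z j).1 (CC_yz_om x y z j).1
    have hUyz : ∀ j, RC y z (U x (om x y z j)) := fun j =>
      FR_zero_iff.1 (FR_U (CC_xy_om x y z j).1 (CC_xz_om x y z j).1 (ihn 1 (by omega) j))
    have hUiff : ∀ k j, FR x y z k (U x (om x y z j)) ↔ RC y z (V (pw x k) (U x (om x y z j))) :=
      fun k j => FR_iff (CC_U (CC_xy_om x y z j) (left_mem_Kc x y)).1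
        (CC_U (CC_xz_om x y z j) (left_mem_Kc x z)).1 (hUyz j)
    induction j with
    | zero =>
      rw [base, om_zero, V_zero]
      exact RC_zero _ _
    | succ j ihj =>
      rw [base, V_pw_rec, V_pw_comm, V_om, V_add, U_pw_comm]
      refine RC_sub (RC_add ?_ ?_) ?_
      · exact (FR_iff (CC_xy_om x y z _).1 (CC_xz_om x y z _).1 (CC_yz_om x y z _).1).1
          (ihn (n + 1) (by omega) _)
      · exact (hUiff _ _).1 (FR_U (CC_xy_om x y z j).1 (CC_xz_om x y z j).1 ihj)
      · exact (hUiff _ _).1 (FR_U (CC_xy_om x y z _).1 (CC_xz_om x y z _).1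
          (ihn (n + 1) (by omega) _))

theorem RC_V_asc (x y z : A) (k : ℕ) : RC y z (V (pw x k) (asc x y z)) := by
  rw [← om_one]
  exact (FR_iff (CC_xy_om x y z _).1 (CC_xz_om x y z _).1 (CC_yz_om x y z _).1).1 (FR_om x y z k 1)

theorem pw_op (x : A) (k : ℕ) : pw (op x) k = op (pw x k) := by
  induction k with
  | zero => rfl
  | succ k ih => rw [pw_succ, ih, ← MulOpposite.op_mul, pw_comm, pw_succ]

theorem CC_V_asc (x y z : A) (k : ℕ) : CC y z (V (pw x k) (asc x y z)) := by
  refine ⟨RC_V_asc x y z k, ?_⟩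
  apply RC_op.1
  rw [← V_op, ← asc_op, ← pw_op]
  exact RC_V_asc _ _ _ _

end
end Pool.Agent.Lib.MP_20522e_al
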