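import Mathlib

set_option autoImplicit false

namespace Pool.Agent.Lib.MP_20522e_al

/-- unital alternative rings -/
class AltRing (A : Type*) extends NonAssocRing A where
  left_alt : ∀ a b : A, (a * a) * b = a * (a * b)
  right_alt : ∀ a b : A, (b * a) * a = b * (a * a)

section
variable {A : Type*}

/-- the associator -/
def asc [NonAssocRing A] (a b c : A) : A := (a * b) * c - a * (b * c)

/-- the Kleinfeld function -/
def kf [NonAssocRing A] (a b c d : A) : A := asc (a * b) c d - b * asc a c d - asc b c d * a

variable [AltRing A]

/-- linearised left alternative law -/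
theorem la2 (a b c : A) : (a * b) * c + (b * a) * c = a * (b * c) + b * (a * c) := by
  have h := AltRing.left_alt (a + b) c
  have h1 := AltRing.left_alt a c
  have h2 := AltRing.left_alt b c
  simp only [mul_add, add_mul] at h h1 h2
  linear_combination (norm := abel) h - h1 - h2

/-- linearised right alternative law -/
theorem ra2 (a b c : A) : (c * a) * b + (c * b) * a = c * (a * b) + c * (b * a) := by
  have h := AltRing.right_alt (a + b) c
  have h1 := AltRing.right_alt a c
  have h2 := AltRing.right_alt b c
  simp only [mul_add, add_mul] at h h1 h2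
  linear_combination (norm := abel) h - h1 - h2

theorem flex (a b : A) : (a * b) * a = a * (b * a) := by
  have h3 := ra2 b a a
  have h4 := AltRing.left_alt a b
  linear_combination (norm := abel) h3 - h4

theorem asc12 (a b c : A) : asc a b c = - asc b a c := by
  have h := la2 a b c
  unfold asc
  linear_combination (norm := abel) h

theorem asc23 (a b c : A) : asc a b c = - asc a c b := by
  have h := ra2 b c a
  unfold asc
  linear_combination (norm := abel) h

theorem asc_cyc (a b c : A) : asc a b c = asc b c a := by
  rw [asc12 a b c, asc23 b a c, neg_neg]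

theorem asc_aa (a b : A) : asc a a b = 0 := by
  unfold asc
  rw [AltRing.left_alt, sub_self]

theorem asc_bb (a b : A) : asc a b b = 0 := by
  unfold asc
  rw [AltRing.right_alt, sub_self]

theorem asc_aba (a b : A) : asc a b a = 0 := by
  unfold asc
  rw [flex, sub_self]

theorem asc_add1 (a a' b c : A) : asc (a + a') b c = asc a b c + asc a' b c := by
  unfold asc; simp only [add_mul, mul_add]; abel

theorem asc_add2 (a b b' c : A) : asc a (b + b') c = asc a b c + asc a b' c := by
  unfold asc; simp only [add_mul, mul_add]; abel

theorem asc_add3 (a b c c' : A) : asc a b (c + c') = asc a b c + asc a b c' := by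
  unfold asc; simp only [add_mul, mul_add]; abel

theorem asc_sub1 (a a' b c : A) : asc (a - a') b c = asc a b c - asc a' b c := by
  unfold asc; simp only [sub_mul, mul_sub]; abel

theorem asc_sub2 (a b b' c : A) : asc a (b - b') c = asc a b c - asc a b' c := by
  unfold asc; simp only [sub_mul, mul_sub]; abel

theorem asc_sub3 (a b c c' : A) : asc a b (c - c') = asc a b c - asc a b c' := by
  unfold asc; simp only [sub_mul, mul_sub]; abel

theorem teich (a b c d : A) :
    asc (a * b) c d - asc a (b * c) d + asc a b (c * d) = a * asc b c d + asc a b c * d := by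
  unfold asc; simp only [mul_sub, sub_mul]; abel

theorem mo_aux (a b c : A) : asc a (a * b) c = - asc a (a * c) b := by
  have h1 := ra2 b c (a * a)
  have h2 := ra2 b c a
  have h3 := AltRing.left_alt a b
  have h4 := AltRing.left_alt a c
  have h5 := AltRing.left_alt a (b * c)
  have h6 := AltRing.left_alt a (c * b)
  have h7 : a * ((a * b) * c) + a * ((a * c) * b) = a * (a * (b * c)) + a * (a * (c * b)) := by
    rw [← mul_add, h2, mul_add]
  unfold asc
  rw [← h3, ← h4]
  linear_combination (norm := abel) h1 - h7 + h5 + h6

/-- Moufang: `(a, ba, c) = a (a,b,c)` -/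
theorem mo_b (a b c : A) : asc a (b * a) c = a * asc a b c := by
  have h := teich a b a c
  have h1 := asc_aba a b
  have h2 := mo_aux a b c
  have h3 : asc (a * b) a c = - asc a (a * b) c := asc12 _ _ _
  have h4 : asc a b (a * c) = - asc a (a * c) b := asc23 _ _ _
  have h5 : asc b a c = - asc a b c := asc12 _ _ _
  rw [h1, h3, h4, h5, zero_mul, add_zero, mul_neg] at h
  linear_combination (norm := abel) -h - h2

/-- Moufang: `(a, ab, c) = (a,b,c) a` -/
theorem mo_a (a b c : A) : asc a (a * b) c = asc a b c * a := by
  have h := teich a b c a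
  have h1 := asc_aba a (b * c)
  have h2 := mo_b a c b
  have h3 : asc (a * b) c a = asc a (a * b) c := (asc_cyc _ _ _).symm
  have h4 : asc a b (c * a) = - asc a (c * a) b := asc23 _ _ _
  have h5 : asc b c a = asc a b c := (asc_cyc _ _ _).symm
  have h6 : asc a c b = - asc a b c := asc23 _ _ _
  rw [h6, mul_neg] at h2
  rw [h1, h3, h4, h5, h2] at h
  linear_combination (norm := abel) h

/-- `(a, b, a c) = (a,b,c) a` -/
theorem mo_a' (a b c : A) : asc a b (a * c) = asc a b c * a := by
  rw [asc23, mo_a, asc23 a c b, neg_mul, neg_neg]

/-- `(a, b, c a) = a (a,b,c)` -/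
theorem mo_b' (a b c : A) : asc a b (c * a) = a * asc a b c := by
  rw [asc23, mo_b, asc23 a c b, mul_neg, neg_neg]

theorem asc_sq (a c d : A) : asc (a * a) c d = a * asc a c d + asc a c d * a := by
  have h := teich a a c d
  rw [mo_a, asc_aa, asc_aa, zero_mul, add_zero] at h
  linear_combination (norm := abel) h

/-- left Moufang identity -/
theorem lmouf (a b c : A) : ((a * b) * a) * c = a * (b * (a * c)) := by
  have h1 : asc (a * b) a c = - (asc a b c * a) := by rw [asc12, mo_a]
  have h2 := mo_a' a b c
  have h : asc (a * b) a c + asc a b (a * c) = 0 := by rw [h1, h2]; abel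
  unfold asc at h
  linear_combination (norm := abel) h

/-- right Moufang identity -/
theorem rmouf (c a b : A) : ((c * a) * b) * a = c * ((a * b) * a) := by
  have h1 : asc (c * a) b a = a * asc a c b := by rw [← asc_cyc, mo_b]
  have h2 : asc c a (b * a) = - (a * asc a c b) := by rw [asc12, mo_b']
  have h : asc (c * a) b a + asc c a (b * a) = 0 := by rw [h1, h2]; abel
  rw [flex]
  unfold asc at h
  linear_combination (norm := abel) h

/-- middle Moufang identity -/
theorem mmouf (a b c : A) : (a * b) * (c * a) = (a * (b * c)) * a := by
  have h : asc (a * b) c a = asc a b c * a := by rw [← asc_cyc, mo_a]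
  unfold asc at h
  rw [sub_mul] at h
  linear_combination (norm := abel) -h

/-- linearised left Moufang identity -/
theorem lmouf2 (a a' b c : A) : ((a * b) * a' + (a' * b) * a) * c =
    a * (b * (a' * c)) + a' * (b * (a * c)) := by
  have h := lmouf (a + a') b c
  have h1 := lmouf a b c
  have h2 := lmouf a' b c
  simp only [add_mul, mul_add] at h h1 h2 ⊢
  linear_combination (norm := abel) h - h1 - h2

/-- linearised right Moufang identity -/
theorem rmouf2 (c a a' b : A) : ((c * a) * b) * a' + ((c * a') * b) * a =
    c * ((a * b) * a' + (a' * b) * a) := by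
  have h := rmouf c (a + a') b
  have h1 := rmouf c a b
  have h2 := rmouf c a' b
  simp only [add_mul, mul_add] at h h1 h2 ⊢
  linear_combination (norm := abel) h - h1 - h2

theorem flex2 (a b c : A) : (a * b) * c + (c * b) * a = a * (b * c) + c * (b * a) := by
  have h := flex (a + c) b
  have h1 := flex a b
  have h2 := flex c b
  simp only [add_mul, mul_add] at h
  linear_combination (norm := abel) h - h1 - h2

/-! ### the Kleinfeld function is alternating -/

theorem kf_add1 (a a' b c d : A) : kf (a + a') b c d = kf a b c d + kf a' b c d := by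
  unfold kf; simp only [add_mul, asc_add1, mul_add]; abel

theorem kf_add2 (a b b' c d : A) : kf a (b + b') c d = kf a b c d + kf a b' c d := by
  unfold kf; simp only [add_mul, asc_add1, mul_add]; abel

theorem kf_add4 (a b c d d' : A) : kf a b c (d + d') = kf a b c d + kf a b c d' := by
  unfold kf; simp only [add_mul, asc_add3, mul_add]; abel

theorem kf34 (a b c d : A) : kf a b c d = - kf a b d c := by
  unfold kf
  rw [asc23 (a * b), asc23 a, asc23 b]
  simp only [mul_neg, neg_mul]; abel

theorem kf14z (a b c : A) : kf a b c a = 0 := by
  unfold kf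
  rw [asc_aba, ← asc_cyc a (a * b) c, mo_a, ← asc_cyc a b c]
  simp

theorem kf24z (a b c : A) : kf a b c b = 0 := by
  unfold kf
  rw [asc_aba, ← asc_cyc b (a * b) c, mo_b, ← asc_cyc b a c]
  simp

theorem kf12z (a c d : A) : kf a a c d = 0 := by
  unfold kf
  rw [asc_sq]; abel

theorem kf14 (a b c d : A) : kf a b c d = - kf d b c a := by
  have h := kf14z (a + d) b c
  have h1 := kf14z a b c
  have h2 := kf14z d b c
  simp only [kf_add1, kf_add4] at h
  linear_combination (norm := abel) h - h1 - h2

theorem kf24 (a b c d : A) : kf a b c d = - kf a d c b := by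
  have h := kf24z a (b + d) c
  have h1 := kf24z a b c
  have h2 := kf24z a d c
  simp only [kf_add2, kf_add4] at h
  linear_combination (norm := abel) h - h1 - h2

theorem kf12 (a b c d : A) : kf a b c d = - kf b a c d := by
  rw [kf14 a b c d, kf24 d b c a, kf14 d a c b]; abel

theorem kf23 (a b c d : A) : kf a b c d = - kf a c b d := by
  rw [kf24 a b c d, kf34 a d c b, kf24 a d b c]; abel

end
end Pool.Agent.Lib.MP_20522e_al
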