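import Pool.Agent.Lib.MP_20522e_al.Semiprime

set_option autoImplicit false

namespace Pool.Agent.Lib.MP_20522e_al

open Oct

/-! ### the centre of the free associative ring -/

theorem coeff_eq_zero_of_comm {x : MonoidAlgebra ℤ (FreeMonoid (Fin 3))} {i : Fin 3}
    (hi : x * MonoidAlgebra.single (FreeMonoid.of i) 1 =
      MonoidAlgebra.single (FreeMonoid.of i) 1 * x)
    {j : Fin 3} (hij : i ≠ j) (W : FreeMonoid (Fin 3)) :
    x.coeff (FreeMonoid.of j * W) = 0 := by
  have h := congrArg (fun t => t.coeff (FreeMonoid.of j * W * FreeMonoid.of i)) hi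
  rw [MonoidAlgebra.coeff_mul_single_eq_coeff_mul (FreeMonoid.of j * W)
    (by intro m' _; exact mul_left_inj _), mul_one,
    MonoidAlgebra.coeff_single_mul_of_forall_mul_ne] at h
  · exact h
  · intro d hd
    have := congrArg FreeMonoid.toList hd
    simp only [FreeMonoid.toList_mul, FreeMonoid.toList_of, List.cons_append, List.nil_append,
      List.cons.injEq] at this
    exact hij this.1

theorem free_center {E : FreeAlgebra ℤ (Fin 3)}
    (h0 : E * FreeAlgebra.ι ℤ 0 = FreeAlgebra.ι ℤ 0 * E)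
    (h1 : E * FreeAlgebra.ι ℤ 1 = FreeAlgebra.ι ℤ 1 * E) :
    ∃ n : ℤ, E = algebraMap ℤ _ n := by
  let e := (FreeAlgebra.equivMonoidAlgebraFreeMonoid : FreeAlgebra ℤ (Fin 3) ≃ₐ[ℤ] _)
  have he : ∀ i, e (FreeAlgebra.ι ℤ i) = MonoidAlgebra.single (FreeMonoid.of i) 1 := by
    intro i
    exact FreeAlgebra.lift_ι_apply _ _
  have g0 := congrArg e h0
  have g1 := congrArg e h1
  rw [map_mul, map_mul, he] at g0 g1
  refine ⟨(e E).coeff 1, e.injective ?_⟩
  rw [AlgEquiv.commutes, MonoidAlgebra.coe_algebraMap]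
  ext W
  induction W using FreeMonoid.casesOn with
  | one => simp [MonoidAlgebra.coeff_single]
  | of_mul j W =>
    have hz : (e E).coeff (FreeMonoid.of j * W) = 0 := by
      by_cases hj : j = 0
      · subst hj
        exact coeff_eq_zero_of_comm g1 (by decide) W
      · exact coeff_eq_zero_of_comm g0 (Ne.symm hj) W
    rw [hz]
    have hne : (1 : FreeMonoid (Fin 3)) ≠ FreeMonoid.of j * W := by
      intro h
      have := congrArg FreeMonoid.toList h
      simp at this
    simp [MonoidAlgebra.coeff_single, hne]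

theorem aug_Pi (f : FF) : FreeAlgebra.lift ℤ (fun _ : Fin 3 => (0 : ℤ)) (Pi f) = 0 := by
  have hf : f ∈ NonUnitalSubring.closure (Set.range gg) := by rw [gg_closure]; trivial
  induction hf using NonUnitalSubring.closure_induction with
  | mem g hg =>
    obtain ⟨i, rfl⟩ := hg
    rw [Pi_gg, FreeAlgebra.lift_ι_apply]
  | zero => rw [map_zero, map_zero]
  | add a b _ _ iha ihb => rw [map_add, map_add, iha, ihb, add_zero]
  | neg a _ iha => rw [map_neg, map_neg, iha, neg_zero]
  | mul a b _ _ iha ihb => rw [map_mul, map_mul, iha, zero_mul]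

theorem Pi_zero_of_comm {f : FF} (h0 : Pi f * FreeAlgebra.ι ℤ 0 = FreeAlgebra.ι ℤ 0 * Pi f)
    (h1 : Pi f * FreeAlgebra.ι ℤ 1 = FreeAlgebra.ι ℤ 1 * Pi f) : Pi f = 0 := by
  obtain ⟨n, hn⟩ := free_center h0 h1
  have h2 := aug_Pi f
  rw [hn, AlgHom.commutes] at h2
  rw [hn, show n = 0 from h2, map_zero]

section nucleus
variable {R : Type*} [CommRing R] [IsDomain R] {p q r : R}

theorem oct_nucleus (l m n a b g d : R) (hp : p ≠ 0) (hq : q ≠ 0) (h2 : (2 : R) ≠ 0)
    {v : Oct R p q r}
    (hxy : (v * XX p q r l) * YY p q r m n = v * (XX p q r l * YY p q r m n))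
    (hxz : (v * XX p q r l) * ZZ p q r a b g d = v * (XX p q r l * ZZ p q r a b g d))
    (hyz : (v * YY p q r m n) * ZZ p q r a b g d = v * (YY p q r m n * ZZ p q r a b g d)) :
    ∃ c : R, v = ⟨c, 0, 0, 0, 0, 0, 0, 0⟩ := by
  obtain ⟨c0, c1, c2, c3, c4, c5, c6, c7⟩ := v
  simp only [XX, YY, ZZ, mul_def, Oct.mk.injEq] at hxy hxz hyz
  obtain ⟨A0, A1, A2, A3, A4, A5, A6, A7⟩ := hxy
  obtain ⟨B0, B1, B2, B3, B4, B5, B6, B7⟩ := hxz
  obtain ⟨C0, C1, C2, C3, C4, C5, C6, C7⟩ := hyz
  have e4 : c4 = 0 := by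
    have : 2 * c4 = 0 := by linear_combination A7
    exact (mul_eq_zero.mp this).resolve_left h2
  have e5 : c5 = 0 := by
    have : 2 * p * c5 = 0 := by linear_combination A6
    exact (mul_eq_zero.mp this).resolve_left (mul_ne_zero h2 hp)
  have e6 : c6 = 0 := by
    have : 2 * q * c6 = 0 := by linear_combination -A5
    exact (mul_eq_zero.mp this).resolve_left (mul_ne_zero h2 hq)
  have e7 : c7 = 0 := by
    have : 2 * p * q * c7 = 0 := by linear_combination -A4
    exact (mul_eq_zero.mp this).resolve_left (mul_ne_zero (mul_ne_zero h2 hp) hq)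
  subst e4 e5 e6 e7
  have e2 : c2 = 0 := by
    have : 2 * c2 = 0 := by linear_combination -B7
    exact (mul_eq_zero.mp this).resolve_left h2
  have e3 : c3 = 0 := by
    have : 2 * p * c3 = 0 := by linear_combination -B6
    exact (mul_eq_zero.mp this).resolve_left (mul_ne_zero h2 hp)
  subst e2 e3
  have e1 : c1 = 0 := by
    have : 2 * c1 = 0 := by linear_combination C7
    exact (mul_eq_zero.mp this).resolve_left h2
  subst e1
  exact ⟨c0, rfl⟩

theorem oct_scalar_comm (c : R) (v : Oct R p q r) :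
    (⟨c, 0, 0, 0, 0, 0, 0, 0⟩ : Oct R p q r) * v = v * ⟨c, 0, 0, 0, 0, 0, 0, 0⟩ := by
  obtain ⟨c0, c1, c2, c3, c4, c5, c6, c7⟩ := v
  simp only [mul_def]
  ext <;> simp only <;> ring

end nucleus

/-! ### quotients of the free nonassociative ring -/

/-- quotient map -/
noncomputable def mkc (c : RingCon FF) : FF →ₙ+* c.Quotient where
  toFun a := (a : c.Quotient)
  map_mul' _ _ := rfl
  map_zero' := rfl
  map_add' _ _ := rfl

theorem mkc_surj (c : RingCon FF) : Function.Surjective (mkc c) := fun q => by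
  induction q using Quotient.inductionOn' with | _ u =>
  exact ⟨u, rfl⟩

theorem mkc_eq_iff (c : RingCon FF) (a b : FF) : mkc c a = mkc c b ↔ c a b := c.eq

theorem mkc_closure (c : RingCon FF) : NonUnitalSubring.closure
    {mkc c (gg 0), mkc c (gg 1), mkc c (gg 2)} = (⊤ : NonUnitalSubring c.Quotient) := by
  rw [eq_top_iff]
  intro a _
  obtain ⟨a, rfl⟩ := mkc_surj c a
  have ha : a ∈ NonUnitalSubring.closure (Set.range gg) := by rw [gg_closure]; trivial
  induction ha using NonUnitalSubring.closure_induction with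
  | mem g hg =>
    obtain ⟨i, rfl⟩ := hg
    apply NonUnitalSubring.subset_closure
    fin_cases i
    · exact Or.inl rfl
    · exact Or.inr (Or.inl rfl)
    · exact Or.inr (Or.inr rfl)
  | zero => rw [map_zero]; exact zero_mem _
  | add a b _ _ iha ihb => rw [map_add]; exact add_mem (iha trivial) (ihb trivial)
  | neg a _ iha => rw [map_neg]; exact neg_mem (iha trivial)
  | mul a b _ _ iha ihb => rw [map_mul]; exact mul_mem (iha trivial) (ihb trivial)

/-- factorization through a quotient -/
noncomputable def liftc {B : Type*} [NonUnitalNonAssocRing B] (c : RingCon FF) (f : FF →ₙ+* B)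
    (h : ∀ a b, c a b → f a = f b) : c.Quotient →ₙ+* B where
  toFun q := Quotient.liftOn' q f h
  map_mul' a b := by
    induction a using Quotient.inductionOn' with | _ a =>
    induction b using Quotient.inductionOn' with | _ b =>
    exact map_mul f a b
  map_zero' := map_zero f
  map_add' a b := by
    induction a using Quotient.inductionOn' with | _ a =>
    induction b using Quotient.inductionOn' with | _ b =>
    exact map_add f a b

theorem liftc_mkc {B : Type*} [NonUnitalNonAssocRing B] (c : RingCon FF) (f : FF →ₙ+* B)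
    (h : ∀ a b, c a b → f a = f b) (a : FF) : liftc c f h (mkc c a) = f a := rfl

theorem center_aux {r : FF → FF → Prop} (hr : IsPres r) (z : (ringConGen r).Quotient) :
    ((∀ x y : (ringConGen r).Quotient, z * x = x * z ∧ (z * x) * y = z * (x * y) ∧
            (x * z) * y = x * (z * y) ∧ (x * y) * z = x * (y * z)) ↔
          ((∀ x y : (ringConGen r).Quotient, (z * x) * y = z * (x * y) ∧
              (x * z) * y = x * (z * y) ∧ (x * y) * z = x * (y * z)) ∧
            ∀ S : AddSubgroup (ringConGen r).Quotient,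
              (∀ x y w : (ringConGen r).Quotient, (x * y) * w - x * (y * w) ∈ S) →
              (∀ a s : (ringConGen r).Quotient, s ∈ S → a * s ∈ S ∧ s * a ∈ S) →
              z ∈ S)) := by
  obtain ⟨f, rfl⟩ := mkc_surj _ z
  have hpi : ∀ a b, ringConGen r a b → Pi a = Pi b := fun a b h => (hr.map h).1
  have hpsi : ∀ a b, ringConGen r a b → Psi a = Psi b := fun a b h => (hr.map h).2
  constructor
  · intro h
    refine ⟨fun x y => (h x y).2, ?_⟩
    intro S hS1 hS2
    have hc : ∀ g : FF, Pi f * Pi g = Pi g * Pi f := by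
      intro g
      have := (h (mkc _ g) (mkc _ g)).1
      rw [← map_mul, ← map_mul, mkc_eq_iff] at this
      have := hpi _ _ this
      rwa [map_mul, map_mul] at this
    have hf : Pi f = 0 := by
      apply Pi_zero_of_comm
      · have := hc (gg 0); rwa [Pi_gg] at this
      · have := hc (gg 1); rwa [Pi_gg] at this
    refine kernel_Q ?_ ?_ (mkc_closure _) (liftc _ Pi hpi) ?_ ?_ ?_ S hS2 (hS1 _ _ _) hf
    · intro u v
      obtain ⟨u, rfl⟩ := mkc_surj _ u
      obtain ⟨v, rfl⟩ := mkc_surj _ v
      exact (mkc_eq_iff _ _ _).2 (hr.left u v)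
    · intro u v
      obtain ⟨u, rfl⟩ := mkc_surj _ u
      obtain ⟨v, rfl⟩ := mkc_surj _ v
      exact (mkc_eq_iff _ _ _).2 (hr.right u v)
    · exact Pi_gg 0
    · exact Pi_gg 1
    · exact Pi_gg 2
  · rintro ⟨hN, hD⟩
    have hf : Pi f = 0 := by
      let S : AddSubgroup (ringConGen r).Quotient :=
        { carrier := {q | liftc _ Pi hpi q = 0}
          zero_mem' := map_zero _
          add_mem' := by
            intro a b ha hb
            change liftc _ Pi hpi (a + b) = 0
            rw [map_add, show liftc _ Pi hpi a = 0 from ha, show liftc _ Pi hpi b = 0 from hb,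
              add_zero]
          neg_mem' := by
            intro a ha
            change liftc _ Pi hpi (-a) = 0
            rw [map_neg, show liftc _ Pi hpi a = 0 from ha, neg_zero] }
      refine hD S ?_ ?_
      · intro x y w
        change liftc _ Pi hpi _ = 0
        rw [map_sub, map_mul, map_mul, map_mul, map_mul, mul_assoc, sub_self]
      · intro a s hs
        constructor
        · change liftc _ Pi hpi _ = 0
          rw [map_mul, show liftc _ Pi hpi s = 0 from hs, mul_zero]
        · change liftc _ Pi hpi _ = 0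
          rw [map_mul, show liftc _ Pi hpi s = 0 from hs, zero_mul]
    have hX : ∀ i, (MvPolynomial.X i : MvPolynomial (Fin 10) ℤ) ≠ 0 :=
      fun i => MvPolynomial.X_ne_zero i
    have hN' : ∀ g h : FF, (Psi f * Psi g) * Psi h = Psi f * (Psi g * Psi h) := by
      intro g h
      have := (hN (mkc _ g) (mkc _ h)).1
      rw [← map_mul, ← map_mul, ← map_mul, ← map_mul, mkc_eq_iff] at this
      have := hpsi _ _ this
      rwa [map_mul, map_mul, map_mul, map_mul] at this
    obtain ⟨c, hc⟩ := oct_nucleus (MvPolynomial.X 3) (MvPolynomial.X 4) (MvPolynomial.X 5)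
      (MvPolynomial.X 6) (MvPolynomial.X 7) (MvPolynomial.X 8) (MvPolynomial.X 9)
      (hX 0) (hX 1) two_ne_zero
      (by have := hN' (gg 0) (gg 1); rwa [Psi_gg0, Psi_gg1] at this)
      (by have := hN' (gg 0) (gg 2); rwa [Psi_gg0, Psi_gg2] at this)
      (by have := hN' (gg 1) (gg 2); rwa [Psi_gg1, Psi_gg2] at this)
    intro x y
    refine ⟨?_, hN x y⟩
    obtain ⟨g, rfl⟩ := mkc_surj _ x
    rw [← map_mul, ← map_mul, mkc_eq_iff]
    refine embed_con (c := ringConGen r) hr.left hr.right ?_ ?_
    · rw [map_mul, map_mul, hf, zero_mul, mul_zero]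
    · rw [map_mul, map_mul, hc, oct_scalar_comm]

theorem isPres2 : IsPres (fun a b : MonoidAlgebra ℤ (FreeMagma (Fin 3)) =>
        ∃ x y : MonoidAlgebra ℤ (FreeMagma (Fin 3)),
          (a = (x * x) * y ∧ b = x * (x * y)) ∨ (a = (x * y) * y ∧ b = x * (y * y))) := by
  refine ⟨?_, ?_, ?_, ?_⟩
  · rintro _ _ ⟨a, b, ⟨rfl, rfl⟩ | ⟨rfl, rfl⟩⟩
    · exact pi_left a b
    · exact pi_right b a
  · rintro _ _ ⟨a, b, ⟨rfl, rfl⟩ | ⟨rfl, rfl⟩⟩
    · exact psi_left a b
    · exact psi_right b a
  · exact fun u v => RingConGen.Rel.of _ _ ⟨u, v, Or.inl ⟨rfl, rfl⟩⟩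
  · exact fun u v => RingConGen.Rel.of _ _ ⟨v, u, Or.inr ⟨rfl, rfl⟩⟩

end Pool.Agent.Lib.MP_20522e_al
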