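import Pool.Agent.Lib.MP_20522e_al.Theta

set_option autoImplicit false

namespace Pool.Agent.Lib.MP_20522e_al

section
variable {A : Type*} [AltRing A]

open MulOpposite (op unop)

/-- the operator `Θ` -/
def Th (x y z m : A) : A := U2 x (y * z) m

theorem Th_add (x y z m n : A) : Th x y z (m + n) = Th x y z m + Th x y z n := U2_add _ _ _ _
theorem Th_sub (x y z m n : A) : Th x y z (m - n) = Th x y z m - Th x y z n := U2_sub _ _ _ _
theorem Th_neg (x y z m : A) : Th x y z (-m) = -Th x y z m := U2_neg _ _ _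
@[simp] theorem Th_zero (x y z : A) : Th x y z 0 = 0 := U2_zero _ _

theorem PP_Th' {x y z m : A} (h : PP x y z m) : PP x y z (Th x y z m) := PP_Th h

theorem Th_rel {x y z m : A} (h : PP x y z m) :
    Th x y z m + V x (U2 y z m) = Th y z x m + V y (U2 x z m) := by
  have h1 := Th_cyc h
  have h2 := V_yz h.yz.2
  have h3 : V (z * x) m = V x (V z m) - U2 x z m := V_yz (LC_comm h.xz.2)
  have h4 := cVyVz h
  have h5 := cVxVy (PP_Vz h)
  unfold Th
  rw [h1, h2, h3, V_sub, V_sub, ← h4, h5, U2_comm z y]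
  abel

theorem Th_rel2 {x y z m : A} (h : PP x y z m) :
    Th x y z m + V x (U2 y z m) = Th z x y m + V z (U2 x y m) := by
  rw [Th_rel h]
  have := Th_rel h.cyc
  rw [U2_comm z x, U2_comm y x] at this
  exact this

theorem Th_mul {x y z m c : A} (h1 : m * (x * c) = (m * c) * x)
    (h2 : m * ((y * z) * c) = (m * c) * (y * z)) : Th x y z (m * c) = Th x y z m * c :=
  U2_mul_right' h1 h2

theorem mul_Th {x y z m c : A} (h1 : (c * x) * m = x * (c * m))
    (h2 : (c * (y * z)) * m = (y * z) * (c * m)) : Th x y z (c * m) = c * Th x y z m :=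
  U2_mul_left' h1 h2

theorem Th_mul_y {x y z m : A} (h : PP x y z m) : Th x y z (m * y) = Th x y z m * y :=
  Th_mul (h.xy.1 _ (right_mem_Kc x y) _ (left_mem_Kc x y)).symm
    (h.yz.1 _ (left_mem_Kc y z) _ (mul_mem (left_mem_Kc y z) (right_mem_Kc y z))).symm
theorem Th_mul_z {x y z m : A} (h : PP x y z m) : Th x y z (m * z) = Th x y z m * z :=
  Th_mul (h.xz.1 _ (right_mem_Kc x z) _ (left_mem_Kc x z)).symm
    (h.yz.1 _ (right_mem_Kc y z) _ (mul_mem (left_mem_Kc y z) (right_mem_Kc y z))).symm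
theorem y_mul_Th {x y z m : A} (h : PP x y z m) : Th x y z (y * m) = y * Th x y z m :=
  mul_Th (h.xy.2 _ (left_mem_Kc x y) _ (right_mem_Kc x y)).symm
    (h.yz.2 _ (mul_mem (left_mem_Kc y z) (right_mem_Kc y z)) _ (left_mem_Kc y z)).symm
theorem z_mul_Th {x y z m : A} (h : PP x y z m) : Th x y z (z * m) = z * Th x y z m :=
  mul_Th (h.xz.2 _ (left_mem_Kc x z) _ (right_mem_Kc x z)).symm
    (h.yz.2 _ (mul_mem (left_mem_Kc y z) (right_mem_Kc y z)) _ (right_mem_Kc y z)).symm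
theorem yy_mul_Th {x y z m : A} (h : PP x y z m) : Th x y z ((y * y) * m) = (y * y) * Th x y z m :=
  mul_Th (h.xy.2 _ (left_mem_Kc x y) _ (mul_mem (right_mem_Kc x y) (right_mem_Kc x y))).symm
    (h.yz.2 _ (mul_mem (left_mem_Kc y z) (right_mem_Kc y z)) _
      (mul_mem (left_mem_Kc y z) (left_mem_Kc y z))).symm
theorem zz_mul_Th {x y z m : A} (h : PP x y z m) : Th x y z ((z * z) * m) = (z * z) * Th x y z m :=
  mul_Th (h.xz.2 _ (left_mem_Kc x z) _ (mul_mem (right_mem_Kc x z) (right_mem_Kc x z))).symm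
    (h.yz.2 _ (mul_mem (left_mem_Kc y z) (right_mem_Kc y z)) _
      (mul_mem (right_mem_Kc y z) (right_mem_Kc y z))).symm
theorem circ_mul_Th {x y z m : A} (h : PP x y z m) :
    Th x y z ((y * z + z * y) * m) = (y * z + z * y) * Th x y z m :=
  mul_Th (circ_left h.cyc)
    (h.yz.2 _ (mul_mem (left_mem_Kc y z) (right_mem_Kc y z)) _
      (add_mem (mul_mem (left_mem_Kc y z) (right_mem_Kc y z))
        (mul_mem (right_mem_Kc y z) (left_mem_Kc y z)))).symm

theorem cVyTh {x y z m : A} (h : PP x y z m) : V y (Th x y z m) = Th x y z (V y m) := by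
  conv_rhs => rw [show V y m = y * m + m * y from rfl, Th_add, y_mul_Th h, Th_mul_y h]
  rfl
theorem cVzTh {x y z m : A} (h : PP x y z m) : V z (Th x y z m) = Th x y z (V z m) := by
  conv_rhs => rw [show V z m = z * m + m * z from rfl, Th_add, z_mul_Th h, Th_mul_z h]
  rfl
theorem cUyTh {x y z m : A} (h : PP x y z m) : U y (Th x y z m) = Th x y z (U y m) := by
  rw [U_eq y m, U_eq y (Th x y z m), Th_sub, y_mul_Th (PP_Vy h), yy_mul_Th h, cVyTh h]
theorem cUzTh {x y z m : A} (h : PP x y z m) : U z (Th x y z m) = Th x y z (U z m) := by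
  rw [U_eq z m, U_eq z (Th x y z m), Th_sub, z_mul_Th (PP_Vz h), zz_mul_Th h, cVzTh h]
theorem cUyzTh {x y z m : A} (h : PP x y z m) : U2 y z (Th x y z m) = Th x y z (U2 y z m) := by
  rw [U2_eq y z m, U2_eq y z (Th x y z m), Th_sub, Th_add, y_mul_Th (PP_Vz h),
    z_mul_Th (PP_Vy h), circ_mul_Th h, cVzTh h, cVyTh h]

theorem Th_eq {x y z m : A} (h : PP x y z m) :
    Th x y z m = Th y z x m + V y (U2 x z m) - V x (U2 y z m) := by
  rw [← Th_rel h]; abel
theorem Th_eq2 {x y z m : A} (h : PP x y z m) :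
    Th x y z m = Th z x y m + V z (U2 x y m) - V x (U2 y z m) := by
  rw [← Th_rel2 h]; abel

theorem cVxUyz {x y z m : A} (h : PP x y z m) : V x (U2 y z m) = U2 y z (V x m) := cVzUxy h.cyc
theorem cUxUyz {x y z m : A} (h : PP x y z m) : U x (U2 y z m) = U2 y z (U x m) := cUzUxy h.cyc
theorem cVxUxz {x y z m : A} (h : PP x y z m) : V x (U2 x z m) = U2 x z (V x m) :=
  cVxUxy h.swap23
theorem cUxUxz {x y z m : A} (h : PP x y z m) : U x (U2 x z m) = U2 x z (U x m) :=
  cUxUxy h.swap23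
theorem cUxyUyz {x y z m : A} (h : PP x y z m) : U2 x y (U2 y z m) = U2 y z (U2 x y m) := by
  have := cUxyUxz h.swap
  rw [U2_comm y x, U2_comm y x] at this
  exact this
theorem cUxzUyz {x y z m : A} (h : PP x y z m) : U2 x z (U2 y z m) = U2 y z (U2 x z m) := by
  have := cUxyUyz h.swap23
  rw [U2_comm z y, U2_comm z y] at this
  exact this

theorem cVxTh {x y z m : A} (h : PP x y z m) : V x (Th x y z m) = Th x y z (V x m) := by
  have e1 : V x (Th y z x m) = Th y z x (V x m) := cVzTh h.cyc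
  rw [Th_eq h, Th_eq (PP_Vx h), V_sub, V_add, e1, cVxVy (PP_U2xz h), cVxUxz h, cVxUyz h]
theorem cUxTh {x y z m : A} (h : PP x y z m) : U x (Th x y z m) = Th x y z (U x m) := by
  have e1 : U x (Th y z x m) = Th y z x (U x m) := cUzTh h.cyc
  have e2 : U x (V y (U2 x z m)) = V y (U2 x z (U x m)) := by
    rw [← cVxUy (PP_U2xz h).swap, cUxUxz h]
  have e3 : U x (V x (U2 y z m)) = V x (U2 y z (U x m)) := by
    rw [← cVxUx (PP_U2yz h), cUxUyz h]
  rw [Th_eq h, Th_eq (PP_Ux h), U_sub, U_add, e1, e2, e3]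
theorem cUxyTh {x y z m : A} (h : PP x y z m) : U2 x y (Th x y z m) = Th x y z (U2 x y m) := by
  have e1 : U2 x y (Th z x y m) = Th z x y (U2 x y m) := cUyzTh h.cyc.cyc
  have e2 : U2 x y (V z (U2 x y m)) = V z (U2 x y (U2 x y m)) := (cVzUxy (PP_U2xy h)).symm
  have e3 : U2 x y (V x (U2 y z m)) = V x (U2 y z (U2 x y m)) := by
    rw [← cVxUxy (PP_U2yz h), cUxyUyz h]
  rw [Th_eq2 h, Th_eq2 (PP_U2xy h), U2_sub, U2_add, e1, e2, e3]
theorem cUxzTh {x y z m : A} (h : PP x y z m) : U2 x z (Th x y z m) = Th x y z (U2 x z m) := by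
  have e1 : U2 x z (Th y z x m) = Th y z x (U2 x z m) := by
    have := cUyzTh h.cyc
    rw [U2_comm z x, U2_comm z x] at this
    exact this
  have e2 : U2 x z (V y (U2 x z m)) = V y (U2 x z (U2 x z m)) :=
    (cVzUxy (PP_U2xz h).swap23).symm
  have e3 : U2 x z (V x (U2 y z m)) = V x (U2 y z (U2 x z m)) := by
    rw [← cVxUxz (PP_U2yz h), cUxzUyz h]
  rw [Th_eq h, Th_eq (PP_U2xz h), U2_sub, U2_add, e1, e2, e3]

end
end Pool.Agent.Lib.MP_20522e_al
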