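import Pool.Agent.Lib.MP_20522e_al.Final

set_option autoImplicit false

/-!
# The embedding theorem for the free alternative ring of rank 3

`RingConGen.Rel r a b ↔ Pi a = Pi b ∧ Psi a = Psi b` for every presentation `r` of the laws of
alternative rings, where `Pi` is the map to the free associative ring and `Psi` the evaluation at
generic octonions.
-/

namespace Pool.Agent.Lib.MP_20522e_al

section
variable {Q : Type*} [NonUnitalNonAssocRing Q]

open MvPolynomial in
/-- injectivity of `(π, ψ)` -/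
theorem embed_Q (hl : ∀ u v : Q, (u * u) * v = u * (u * v))
    (hr : ∀ u v : Q, (v * u) * u = v * (u * u)) {x y z : Q}
    (hgen : NonUnitalSubring.closure {x, y, z} = (⊤ : NonUnitalSubring Q))
    (π : Q →ₙ+* FreeAlgebra ℤ (Fin 3)) (hx : π x = FreeAlgebra.ι ℤ 0)
    (hy : π y = FreeAlgebra.ι ℤ 1) (hz : π z = FreeAlgebra.ι ℤ 2)
    (ψ : Q →ₙ+* Oct (MvPolynomial (Fin 10) ℤ) (X 0) (X 1) (X 2))
    (hx' : ψ x = XX _ _ _ (X 3)) (hy' : ψ y = YY _ _ _ (X 4) (X 5))
    (hz' : ψ z = ZZ _ _ _ (X 6) (X 7) (X 8) (X 9))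
    {u : Q} (hπ : π u = 0) (hψ : ψ u = 0) : u = 0 := by
  letI := altUnit hl hr
  have hX : ∀ i, (X i : MvPolynomial (Fin 10) ℤ) ≠ 0 := fun i => MvPolynomial.X_ne_zero i
  have h1 := structure_thm (A := Unitization ℤ Q) (closure_unit hgen) (unitHom π)
    (by rw [unitHom_inr, hx]) (by rw [unitHom_inr, hy]) (by rw [unitHom_inr, hz])
    (u := (u : Unitization ℤ Q)) (by rw [unitHom_inr, hπ])
  have h := eq_zero_of_mem _ _ _ (X 3) (X 4) (X 5) (X 6) (X 7) (X 8) (X 9) (hX 0) (hX 1) (hX 2)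
    two_ne_zero ee_inj (unitHom ψ)
    (by rw [unitHom_inr, hx']) (by rw [unitHom_inr, hy']) (by rw [unitHom_inr, hz']) h1
    (by rw [unitHom_inr, hψ])
  exact Unitization.inr_injective h

/-- elements in the kernel of `π` lie in the associator ideal -/
theorem kernel_Q (hl : ∀ u v : Q, (u * u) * v = u * (u * v))
    (hr : ∀ u v : Q, (v * u) * u = v * (u * u)) {x y z : Q}
    (hgen : NonUnitalSubring.closure {x, y, z} = (⊤ : NonUnitalSubring Q))
    (π : Q →ₙ+* FreeAlgebra ℤ (Fin 3)) (hx : π x = FreeAlgebra.ι ℤ 0)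
    (hy : π y = FreeAlgebra.ι ℤ 1) (hz : π z = FreeAlgebra.ι ℤ 2)
    (S : AddSubgroup Q) (hS : ∀ a s : Q, s ∈ S → a * s ∈ S ∧ s * a ∈ S)
    (hw : (x * y) * z - x * (y * z) ∈ S) {u : Q} (hπ : π u = 0) : u ∈ S := by
  letI := altUnit hl hr
  let I : AddSubgroup (Unitization ℤ Q) :=
    { carrier := {a | a.fst = 0 ∧ a.snd ∈ S}
      zero_mem' := ⟨rfl, S.zero_mem⟩
      add_mem' := by
        rintro a b ⟨h1, h2⟩ ⟨h3, h4⟩
        exact ⟨by rw [Unitization.fst_add, h1, h3, add_zero],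
          by rw [Unitization.snd_add]; exact S.add_mem h2 h4⟩
      neg_mem' := by
        rintro a ⟨h1, h2⟩
        exact ⟨by rw [Unitization.fst_neg, h1, neg_zero],
          by rw [Unitization.snd_neg]; exact S.neg_mem h2⟩ }
  have hI : ∀ s ∈ I, ∀ a : Unitization ℤ Q, a * s ∈ I ∧ s * a ∈ I := by
    rintro s ⟨h1, h2⟩ a
    refine ⟨⟨?_, ?_⟩, ⟨?_, ?_⟩⟩
    · rw [Unitization.fst_mul, h1, mul_zero]
    · rw [Unitization.snd_mul, h1, zero_smul, add_zero]
      exact S.add_mem (S.zsmul_mem h2 _) (hS _ _ h2).1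
    · rw [Unitization.fst_mul, h1, zero_mul]
    · rw [Unitization.snd_mul, h1, zero_smul, zero_add]
      exact S.add_mem (S.zsmul_mem h2 _) (hS _ _ h2).2
  have hw' : asc (x : Unitization ℤ Q) y z ∈ I := by
    have : asc (x : Unitization ℤ Q) y z = (((x * y) * z - x * (y * z) : Q) : Unitization ℤ Q) := by
      unfold asc
      rw [Unitization.inr_sub, Unitization.inr_mul, Unitization.inr_mul, Unitization.inr_mul,
        Unitization.inr_mul]
    rw [this]
    exact ⟨rfl, hw⟩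
  have := mem_of_map_zero (A := Unitization ℤ Q) hI hw' (closure_unit hgen) (unitHom π)
    (by rw [unitHom_inr, hx]) (by rw [unitHom_inr, hy]) (by rw [unitHom_inr, hz])
    (u := (u : Unitization ℤ Q)) (by rw [unitHom_inr, hπ])
  exact this.2

end

open MvPolynomial

/-- the map to the free associative ring -/
noncomputable def Pi : FF →ₙ+* FreeAlgebra ℤ (Fin 3) := fLift (fun i => FreeAlgebra.ι ℤ i)

/-- generic octonions -/
abbrev GO := Oct (MvPolynomial (Fin 10) ℤ) (X 0) (X 1) (X 2)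

/-- evaluation at generic octonions -/
noncomputable def Psi : FF →ₙ+* GO :=
  fLift ![XX _ _ _ (X 3), YY _ _ _ (X 4) (X 5), ZZ _ _ _ (X 6) (X 7) (X 8) (X 9)]

theorem Pi_gg (i : Fin 3) : Pi (gg i) = FreeAlgebra.ι ℤ i := fLift_gg _ _
theorem Psi_gg0 : Psi (gg 0) = XX _ _ _ (X 3) := fLift_gg _ _
theorem Psi_gg1 : Psi (gg 1) = YY _ _ _ (X 4) (X 5) := fLift_gg _ _
theorem Psi_gg2 : Psi (gg 2) = ZZ _ _ _ (X 6) (X 7) (X 8) (X 9) := fLift_gg _ _

theorem embed {f : FF} (h1 : Pi f = 0) (h2 : Psi f = 0) : cc f 0 := by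
  rw [← mk_eq_iff, map_zero]
  exact embed_Q QQ_left QQ_right mk_closure
    (qLift (fun u v => mul_assoc _ _ _) (fun u v => mul_assoc _ _ _) Pi)
    (by rw [qLift_mk, Pi_gg]) (by rw [qLift_mk, Pi_gg]) (by rw [qLift_mk, Pi_gg])
    (qLift AltRing.left_alt (fun u v => AltRing.right_alt u v) Psi)
    (by rw [qLift_mk, Psi_gg0]) (by rw [qLift_mk, Psi_gg1])
    (by rw [qLift_mk, Psi_gg2]) h1 h2

/-- presentations of the alternative laws -/
structure IsPres (r : FF → FF → Prop) : Prop where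
  pi : ∀ a b, r a b → Pi a = Pi b
  psi : ∀ a b, r a b → Psi a = Psi b
  left : ∀ u v, RingConGen.Rel r ((u * u) * v) (u * (u * v))
  right : ∀ u v, RingConGen.Rel r ((v * u) * u) (v * (u * u))

theorem IsPres.map {r : FF → FF → Prop} (hr : IsPres r) {a b : FF} (h : RingConGen.Rel r a b) :
    Pi a = Pi b ∧ Psi a = Psi b := by
  induction h with
  | of x y hxy => exact ⟨hr.pi x y hxy, hr.psi x y hxy⟩
  | refl => exact ⟨rfl, rfl⟩
  | symm _ ih => exact ⟨ih.1.symm, ih.2.symm⟩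
  | trans _ _ ih1 ih2 => exact ⟨ih1.1.trans ih2.1, ih1.2.trans ih2.2⟩
  | add _ _ ih1 ih2 => rw [map_add, map_add, map_add, map_add, ih1.1, ih2.1, ih1.2, ih2.2]; simp
  | mul _ _ ih1 ih2 => rw [map_mul, map_mul, map_mul, map_mul, ih1.1, ih2.1, ih1.2, ih2.2]; simp

theorem cc_le {c : RingCon FF} (hl : ∀ u v, c ((u * u) * v) (u * (u * v)))
    (hr : ∀ u v, c ((v * u) * u) (v * (u * u))) {a b : FF} (h : cc a b) : c a b := by
  change RingConGen.Rel altRel a b at h
  induction h with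
  | of x y hxy =>
    obtain ⟨u, v, h | h, rfl⟩ := hxy
    · have := c.sub (hl u v) (c.refl (u * (u * v)))
      rwa [sub_self, ← h] at this
    · have := c.sub (hr u v) (c.refl (v * (u * u)))
      rwa [sub_self, ← h] at this
  | refl x => exact c.refl x
  | symm _ ih => exact c.symm ih
  | trans _ _ ih1 ih2 => exact c.trans ih1 ih2
  | add _ _ ih1 ih2 => exact c.add ih1 ih2
  | mul _ _ ih1 ih2 => exact c.mul ih1 ih2

/-- the embedding theorem for a congruence satisfying the laws -/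
theorem embed_con {c : RingCon FF} (hl : ∀ u v, c ((u * u) * v) (u * (u * v)))
    (hr : ∀ u v, c ((v * u) * u) (v * (u * u))) {a b : FF} (h1 : Pi a = Pi b)
    (h2 : Psi a = Psi b) : c a b := by
  have h := cc_le hl hr (embed (f := a - b) (by rw [map_sub, h1, sub_self])
    (by rw [map_sub, h2, sub_self]))
  have := c.add h (c.refl b)
  rwa [sub_add_cancel, zero_add] at this

/-- the embedding theorem -/
theorem IsPres.iff {r : FF → FF → Prop} (hr : IsPres r) (a b : FF) :
    RingConGen.Rel r a b ↔ Pi a = Pi b ∧ Psi a = Psi b :=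
  ⟨hr.map, fun h => embed_con (c := ringConGen r) hr.left hr.right h.1 h.2⟩

theorem pi_left (u v : FF) : Pi ((u * u) * v) = Pi (u * (u * v)) := by
  simp only [map_mul, mul_assoc]
theorem pi_right (u v : FF) : Pi ((v * u) * u) = Pi (v * (u * u)) := by
  simp only [map_mul, mul_assoc]
theorem psi_left (u v : FF) : Psi ((u * u) * v) = Psi (u * (u * v)) := by
  simp only [map_mul]; exact AltRing.left_alt _ _
theorem psi_right (u v : FF) : Psi ((v * u) * u) = Psi (v * (u * u)) := by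
  simp only [map_mul]; exact AltRing.right_alt _ _

theorem nsmul_oct (n : ℕ) (v : GO) : n • v = ⟨n * v.c0, n * v.c1, n * v.c2, n * v.c3, n * v.c4,
    n * v.c5, n * v.c6, n * v.c7⟩ := by
  induction n with
  | zero => rw [zero_smul]; simp [Oct.zero_def]
  | succ n ih =>
    rw [succ_nsmul, ih, Oct.add_def]
    simp only [Nat.cast_succ, add_mul, one_mul]

theorem oct_torsion {n : ℕ} (hn : 0 < n) {v : GO} (h : n • v = 0) : v = 0 := by
  rw [nsmul_oct, Oct.zero_def, Oct.mk.injEq] at h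
  have hn' : (n : MvPolynomial (Fin 10) ℤ) ≠ 0 := by exact_mod_cast hn.ne'
  obtain ⟨h0, h1, h2, h3, h4, h5, h6, h7⟩ := h
  ext1
  · exact (mul_eq_zero.mp h0).resolve_left hn'
  · exact (mul_eq_zero.mp h1).resolve_left hn'
  · exact (mul_eq_zero.mp h2).resolve_left hn'
  · exact (mul_eq_zero.mp h3).resolve_left hn'
  · exact (mul_eq_zero.mp h4).resolve_left hn'
  · exact (mul_eq_zero.mp h5).resolve_left hn'
  · exact (mul_eq_zero.mp h6).resolve_left hn'
  · exact (mul_eq_zero.mp h7).resolve_left hn'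

theorem free_torsion {n : ℕ} (hn : 0 < n) {v : FreeAlgebra ℤ (Fin 3)} (h : n • v = 0) : v = 0 := by
  rw [nsmul_eq_mul] at h
  have hn' : (n : FreeAlgebra ℤ (Fin 3)) ≠ 0 := by exact_mod_cast hn.ne'
  exact (mul_eq_zero.mp h).resolve_left hn'

end Pool.Agent.Lib.MP_20522e_al
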