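import Pool.Agent.Lib.MP_20522e_al.Oct
import Pool.Agent.Lib.MP_20522e_al.Act

set_option autoImplicit false

namespace Pool.Agent.Lib.MP_20522e_al

open Oct

section
variable {R : Type*} [CommRing R] (p q r l m n a b g d : R)

/-- the first generic octonion -/
def XX : Oct R p q r := ⟨l, 1, 0, 0, 0, 0, 0, 0⟩
/-- the second generic octonion -/
def YY : Oct R p q r := ⟨m, n, 1, 0, 0, 0, 0, 0⟩
/-- the third generic octonion -/
def ZZ : Oct R p q r := ⟨a, b, g, d, 1, 0, 0, 0⟩
/-- multiples of the last basis element -/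
def Wc (c : R) : Oct R p q r := ⟨0, 0, 0, 0, 0, 0, 0, c⟩

/-- the ten eigenvalues -/
def ee (i : Fin 10) : R :=
  match i with
  | 0 => 2 * l
  | 1 => 2 * m
  | 2 => 2 * a
  | 3 => l ^ 2 - p
  | 4 => m ^ 2 - p * n ^ 2 - q
  | 5 => a ^ 2 - p * b ^ 2 - q * g ^ 2 + p * q * d ^ 2 - r
  | 6 => 2 * (l * m - p * n)
  | 7 => 2 * (l * a - p * b)
  | 8 => 2 * (m * a - p * n * b - q * g)
  | 9 => 2 * (l * (m * a + p * n * b + q * g) - p * (m * b + n * a - q * d))

theorem asc_XYZ : asc (XX p q r l) (YY p q r m n) (ZZ p q r a b g d) = Wc p q r 2 := by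
  unfold asc XX YY ZZ Wc
  rw [sub_eq_add_neg]
  simp only [mul_def, add_def, neg_def]
  ext <;> simp only <;> ring

theorem opr_Wc (i : Fin 10) (c : R) :
    opr (XX p q r l) (YY p q r m n) (ZZ p q r a b g d) i (Wc p q r c) =
      Wc p q r (ee p q r l m n a b g d i * c) := by
  fin_cases i <;>
  simp only [opr, V, U, U2, Th, XX, YY, ZZ, Wc, ee, mul_def, add_def] <;>
  ext <;> simp only <;> ring

/-- independence of the eight right words -/
theorem words_indep [IsDomain R] (hp : p ≠ 0) (hq : q ≠ 0) (hr : r ≠ 0)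
    {c0 c1 c2 c3 c4 c5 c6 c7 : R}
    (h : Wc p q r c0 + Wc p q r c1 * XX p q r l + Wc p q r c2 * YY p q r m n +
      Wc p q r c3 * ZZ p q r a b g d + (Wc p q r c4 * XX p q r l) * YY p q r m n +
      (Wc p q r c5 * XX p q r l) * ZZ p q r a b g d +
      (Wc p q r c6 * YY p q r m n) * ZZ p q r a b g d +
      ((Wc p q r c7 * XX p q r l) * YY p q r m n) * ZZ p q r a b g d = 0) :
    c0 = 0 ∧ c1 = 0 ∧ c2 = 0 ∧ c3 = 0 ∧ c4 = 0 ∧ c5 = 0 ∧ c6 = 0 ∧ c7 = 0 := by
  simp only [XX, YY, ZZ, Wc, mul_def, add_def, zero_def, Oct.mk.injEq] at h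
  obtain ⟨E0, E1, E2, E3, E4, E5, E6, E7⟩ := h
  have h7 : c7 = 0 := by
    have : p * q * r * c7 = 0 := by linear_combination -E0
    have h3 : p * q * r ≠ 0 := mul_ne_zero (mul_ne_zero hp hq) hr
    exact (mul_eq_zero.mp this).resolve_left h3
  subst h7
  have h6 : c6 = 0 := by
    have : q * r * c6 = 0 := by linear_combination -E1
    exact (mul_eq_zero.mp this).resolve_left (mul_ne_zero hq hr)
  subst h6
  have h5 : c5 = 0 := by
    have : p * r * c5 = 0 := by linear_combination E2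
    exact (mul_eq_zero.mp this).resolve_left (mul_ne_zero hp hr)
  subst h5
  have h3 : c3 = 0 := by
    have : r * c3 = 0 := by linear_combination E3
    exact (mul_eq_zero.mp this).resolve_left hr
  subst h3
  have h4 : c4 = 0 := by
    have : p * q * c4 = 0 := by linear_combination -E4
    exact (mul_eq_zero.mp this).resolve_left (mul_ne_zero hp hq)
  subst h4
  have h2 : c2 = 0 := by
    have : q * c2 = 0 := by linear_combination -E5
    exact (mul_eq_zero.mp this).resolve_left hq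
  subst h2
  have h1 : c1 = 0 := by
    have : p * c1 = 0 := by linear_combination E6
    exact (mul_eq_zero.mp this).resolve_left hp
  subst h1
  have h0 : c0 = 0 := by linear_combination E7
  exact ⟨h0, rfl, rfl, rfl, rfl, rfl, rfl, rfl⟩

theorem Wc_add (c c' : R) : Wc p q r (c + c') = Wc p q r c + Wc p q r c' := by
  simp only [Wc, add_def, add_zero]

/-- `Wc` as a homomorphism -/
def WcHom : R →+ Oct R p q r where
  toFun := Wc p q r
  map_zero' := rfl
  map_add' := Wc_add p q r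

theorem opr_map {A B : Type*} [AltRing A] [AltRing B] (ψ : A →+* B) (x y z : A) (i : Fin 10)
    (c : A) : ψ (opr x y z i c) = opr (ψ x) (ψ y) (ψ z) i (ψ c) := by
  fin_cases i <;> simp only [opr, V, U, U2, Th, map_mul, map_add]

theorem asc_map {A B : Type*} [AltRing A] [AltRing B] (ψ : A →+* B) (x y z : A) :
    ψ (asc x y z) = asc (ψ x) (ψ y) (ψ z) := by
  unfold asc; simp only [map_mul, map_sub]

theorem phi_eval {A : Type*} [AltRing A] {x y z : A} (ψ : A →+* Oct R p q r)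
    (hx : ψ x = XX p q r l) (hy : ψ y = YY p q r m n) (hz : ψ z = ZZ p q r a b g d)
    (P : MvPolynomial (Fin 10) ℤ) : ψ (phi x y z P (ww x y z) : A) =
      Wc p q r (MvPolynomial.eval₂Hom (Int.castRingHom R) (ee p q r l m n a b g d) P * 2) := by
  induction P using MvPolynomial.induction_on with
  | C k =>
    rw [MvPolynomial.eval₂Hom_C]
    have e1 : (MvPolynomial.C k : MvPolynomial (Fin 10) ℤ) = ((k : ℤ) : MvPolynomial (Fin 10) ℤ) := by
      simp
    have e2 : (phi x y z (MvPolynomial.C k) (ww x y z) : A) = k • (asc x y z : A) := by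
      rw [e1, map_intCast]
      rfl
    rw [e2, map_zsmul, asc_map, hx, hy, hz, asc_XYZ]
    change k • (WcHom p q r 2) = WcHom p q r _
    rw [← map_zsmul]
    simp
  | add P Q hP hQ =>
    have e1 : (phi x y z (P + Q) (ww x y z) : A) =
        (phi x y z P (ww x y z) : A) + (phi x y z Q (ww x y z) : A) := by
      rw [map_add]; rfl
    rw [e1, map_add, map_add, add_mul, Wc_add, ← hP, ← hQ]
  | mul_X P i hP =>
    rw [mul_comm P, ← opr_phi, opr_map, hx, hy, hz, hP, opr_Wc, map_mul,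
      MvPolynomial.eval₂Hom_X', mul_assoc]

/-- the main vanishing statement -/
theorem eq_zero_of_mem {A : Type*} [AltRing A] {x y z : A} [IsDomain R]
    (hp : p ≠ 0) (hq : q ≠ 0) (hr : r ≠ 0) (h2 : (2 : R) ≠ 0)
    (hinj : ∀ P : MvPolynomial (Fin 10) ℤ,
      MvPolynomial.eval₂Hom (Int.castRingHom R) (ee p q r l m n a b g d) P = 0 → P = 0)
    (ψ : A →+* Oct R p q r)
    (hx : ψ x = XX p q r l) (hy : ψ y = YY p q r m n) (hz : ψ z = ZZ p q r a b g d)
    {u : A} (hu : u ∈ SS x y z (Om x y z)) (hψ : ψ u = 0) : u = 0 := by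
  obtain ⟨_, ⟨P0, rfl⟩, _, ⟨P1, rfl⟩, _, ⟨P2, rfl⟩, _, ⟨P3, rfl⟩, _, ⟨P4, rfl⟩, _, ⟨P5, rfl⟩,
    _, ⟨P6, rfl⟩, _, ⟨P7, rfl⟩, e⟩ := SS_form hu
  rw [e] at hψ
  simp only [map_add, map_mul, phi_eval p q r l m n a b g d ψ hx hy hz, hx, hy, hz] at hψ
  obtain ⟨h0, h1, h2', h3, h4, h5, h6, h7⟩ := words_indep p q r l m n a b g d hp hq hr hψ
  have key : ∀ P : MvPolynomial (Fin 10) ℤ,
      MvPolynomial.eval₂Hom (Int.castRingHom R) (ee p q r l m n a b g d) P * 2 = 0 →
      (phi x y z P (ww x y z) : A) = 0 := by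
    intro P hP
    rw [hinj P ((mul_eq_zero.mp hP).resolve_right h2), map_zero]
    rfl
  rw [e, key P0 h0, key P1 h1, key P2 h2', key P3 h3, key P4 h4, key P5 h5, key P6 h6, key P7 h7]
  simp

end
end Pool.Agent.Lib.MP_20522e_al
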