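import Pool.Agent.Lib.MP_20522e_al.Main

set_option autoImplicit false

namespace Pool.Agent.Lib.MP_20522e_al

section unit
variable {Q : Type*} [NonUnitalNonAssocRing Q]

/-- the unitization of an alternative ring is alternative -/
@[reducible] def altUnit (hl : ∀ u v : Q, (u * u) * v = u * (u * v))
    (hr : ∀ u v : Q, (v * u) * u = v * (u * u)) : AltRing (Unitization ℤ Q) where
  left_alt a b := by
    apply Unitization.ext
    · simp only [Unitization.fst_mul, mul_assoc]
    · simp only [Unitization.snd_mul, Unitization.fst_mul, smul_add, mul_add, add_mul,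
        smul_mul_assoc, mul_smul_comm, hl, smul_smul, mul_comm]
      abel
  right_alt a b := by
    apply Unitization.ext
    · simp only [Unitization.fst_mul, mul_assoc]
    · simp only [Unitization.snd_mul, Unitization.fst_mul, smul_add, mul_add, add_mul,
        smul_mul_assoc, mul_smul_comm, hr, smul_smul, mul_comm]
      abel

/-- extension of a homomorphism to the unitization -/
def unitHom {B : Type*} [NonAssocRing B] (f : Q →ₙ+* B) : Unitization ℤ Q →+* B where
  toFun a := (a.fst : B) + f a.snd
  map_one' := by simp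
  map_mul' a b := by
    simp only [Unitization.fst_mul, Unitization.snd_mul, map_add, map_mul, map_zsmul, zsmul_eq_mul,
      Int.cast_mul, mul_add, add_mul]
    rw [(Int.cast_commute b.fst (f a.snd)).eq]
    abel
  map_zero' := by simp
  map_add' a b := by
    simp only [Unitization.fst_add, Unitization.snd_add, map_add, Int.cast_add]
    abel

theorem unitHom_inr {B : Type*} [NonAssocRing B] (f : Q →ₙ+* B) (a : Q) :
    unitHom f (Unitization.inr a) = f a := by
  change ((0 : ℤ) : B) + f a = f a
  simp

theorem closure_unit {x y z : Q}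
    (hgen : NonUnitalSubring.closure {x, y, z} = (⊤ : NonUnitalSubring Q)) :
    NonUnitalSubring.closure {1, (x : Unitization ℤ Q), (y : Unitization ℤ Q),
      (z : Unitization ℤ Q)} = (⊤ : NonUnitalSubring (Unitization ℤ Q)) := by
  rw [eq_top_iff]
  intro a _
  have hs : ∀ q : Q, (q : Unitization ℤ Q) ∈ NonUnitalSubring.closure {1, (x : Unitization ℤ Q),
      (y : Unitization ℤ Q), (z : Unitization ℤ Q)} := by
    intro q
    have hq : q ∈ NonUnitalSubring.closure {x, y, z} := by rw [hgen]; trivial
    induction hq using NonUnitalSubring.closure_induction with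
    | mem g hg =>
      apply NonUnitalSubring.subset_closure
      rcases hg with rfl | rfl | rfl
      · exact Or.inr (Or.inl rfl)
      · exact Or.inr (Or.inr (Or.inl rfl))
      · exact Or.inr (Or.inr (Or.inr rfl))
    | zero => rw [Unitization.inr_zero]; exact zero_mem _
    | add a b _ _ iha ihb => rw [Unitization.inr_add]; exact add_mem iha ihb
    | neg a _ iha => rw [Unitization.inr_neg]; exact neg_mem iha
    | mul a b _ _ iha ihb => rw [Unitization.inr_mul]; exact mul_mem iha ihb
  rw [← Unitization.inl_fst_add_inr_snd_eq a]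
  refine add_mem ?_ (hs _)
  have h1 : (1 : Unitization ℤ Q) ∈ NonUnitalSubring.closure {1, (x : Unitization ℤ Q),
      (y : Unitization ℤ Q), (z : Unitization ℤ Q)} :=
    NonUnitalSubring.subset_closure (Or.inl rfl)
  have h2 : (Unitization.inl a.fst : Unitization ℤ Q) = a.fst • 1 := by
    let f : ℤ →+ Unitization ℤ Q :=
      { toFun := Unitization.inl
        map_zero' := Unitization.inl_zero Q
        map_add' := Unitization.inl_add Q }
    have h3 : f (a.fst • 1) = a.fst • f 1 := map_zsmul f _ _
    rw [zsmul_one, Int.cast_id] at h3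
    exact h3
  rw [h2]
  exact zsmul_mem h1 _

open MvPolynomial in
/-- the main theorem for rings without unit -/
theorem main_Q (hl : ∀ u v : Q, (u * u) * v = u * (u * v))
    (hr : ∀ u v : Q, (v * u) * u = v * (u * u)) {x y z : Q}
    (hgen : NonUnitalSubring.closure {x, y, z} = (⊤ : NonUnitalSubring Q))
    (π : Q →ₙ+* FreeAlgebra ℤ (Fin 3)) (hx : π x = FreeAlgebra.ι ℤ 0)
    (hy : π y = FreeAlgebra.ι ℤ 1) (hz : π z = FreeAlgebra.ι ℤ 2)
    (ψ : Q →ₙ+* Oct (MvPolynomial (Fin 10) ℤ) (X 0) (X 1) (X 2))
    (hx' : ψ x = XX _ _ _ (X 3)) (hy' : ψ y = YY _ _ _ (X 4) (X 5))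
    (hz' : ψ z = ZZ _ _ _ (X 6) (X 7) (X 8) (X 9))
    {u : Q} (h1 : u * x = x * u) (h2 : u * y = y * u) (h3 : (u * x) * y = y * (u * x)) :
    u = 0 := by
  letI := altUnit hl hr
  have h := main_abs (A := Unitization ℤ Q) (closure_unit hgen) (unitHom π)
    (by rw [unitHom_inr, hx]) (by rw [unitHom_inr, hy]) (by rw [unitHom_inr, hz]) (unitHom ψ)
    (by rw [unitHom_inr, hx']) (by rw [unitHom_inr, hy']) (by rw [unitHom_inr, hz'])
    (u := (u : Unitization ℤ Q))
    (by rw [← Unitization.inr_mul, h1, Unitization.inr_mul])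
    (by rw [← Unitization.inr_mul, h2, Unitization.inr_mul])
    (by rw [← Unitization.inr_mul, ← Unitization.inr_mul, h3, Unitization.inr_mul,
          Unitization.inr_mul])
  exact Unitization.inr_injective h

end unit

/-! ### the free alternative ring -/

/-- the free nonassociative ring on three generators -/
abbrev FF := MonoidAlgebra ℤ (FreeMagma (Fin 3))

/-- the alternative relations -/
def altRel (x y : FF) : Prop :=
  ∃ u v : FF, (x = (u * u) * v - u * (u * v) ∨ x = (v * u) * u - v * (u * u)) ∧ y = 0

/-- the generators -/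
noncomputable def gg (i : Fin 3) : FF := FreeNonUnitalNonAssocAlgebra.of ℤ i

theorem gg_closure : NonUnitalSubring.closure (Set.range gg) = (⊤ : NonUnitalSubring FF) := by
  rw [eq_top_iff]
  intro a _
  have hm : ∀ w : FreeMagma (Fin 3), MonoidAlgebra.ofMagma ℤ _ w ∈
      NonUnitalSubring.closure (Set.range gg) := by
    intro w
    induction w using FreeMagma.recOnMul with
    | ih1 i => exact NonUnitalSubring.subset_closure ⟨i, rfl⟩
    | ih2 a b iha ihb => rw [map_mul]; exact mul_mem iha ihb
  induction a using MonoidAlgebra.induction_linear with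
  | zero => exact zero_mem _
  | add f g hf hg => exact add_mem (hf trivial) (hg trivial)
  | single w n =>
    have : (MonoidAlgebra.single w n : FF) = n • MonoidAlgebra.ofMagma ℤ _ w := by
      simp [MonoidAlgebra.ofMagma]
    rw [this]
    exact zsmul_mem (hm w) n

/-- the alternative congruence -/
noncomputable def cc : RingCon FF := ringConGen altRel

theorem cc_left (u v : FF) : cc ((u * u) * v) (u * (u * v)) := by
  have h : cc ((u * u) * v - u * (u * v)) 0 := RingConGen.Rel.of _ _ ⟨u, v, Or.inl rfl, rfl⟩
  have h2 := cc.add h (cc.refl (u * (u * v)))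
  rwa [sub_add_cancel, zero_add] at h2

theorem cc_right (u v : FF) : cc ((v * u) * u) (v * (u * u)) := by
  have h : cc ((v * u) * u - v * (u * u)) 0 := RingConGen.Rel.of _ _ ⟨u, v, Or.inr rfl, rfl⟩
  have h2 := cc.add h (cc.refl (v * (u * u)))
  rwa [sub_add_cancel, zero_add] at h2

theorem QQ_left (u v : cc.Quotient) : (u * u) * v = u * (u * v) := by
  induction u using Quotient.inductionOn' with | _ u =>
  induction v using Quotient.inductionOn' with | _ v =>
  exact (cc.eq).2 (cc_left u v)

theorem QQ_right (u v : cc.Quotient) : (v * u) * u = v * (u * u) := by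
  induction u using Quotient.inductionOn' with | _ u =>
  induction v using Quotient.inductionOn' with | _ v =>
  exact (cc.eq).2 (cc_right u v)

/-- the quotient map -/
noncomputable def mk : FF →ₙ+* cc.Quotient where
  toFun a := (a : cc.Quotient)
  map_mul' _ _ := rfl
  map_zero' := rfl
  map_add' _ _ := rfl

theorem mk_surj : Function.Surjective mk := fun q => by
  induction q using Quotient.inductionOn' with | _ u =>
  exact ⟨u, rfl⟩

theorem mk_eq_iff (a b : FF) : mk a = mk b ↔ cc a b := cc.eq

/-- homomorphisms from the free alternative ring -/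
theorem lift_rel {B : Type*} [NonUnitalNonAssocRing B] (hl : ∀ u v : B, (u * u) * v = u * (u * v))
    (hr : ∀ u v : B, (v * u) * u = v * (u * u)) (f : FF →ₙ+* B) {a b : FF} (h : cc a b) :
    f a = f b := by
  change RingConGen.Rel altRel a b at h
  induction h with
  | of x y hxy =>
    obtain ⟨u, v, h | h, rfl⟩ := hxy
    · rw [h, map_sub, map_mul, map_mul, map_mul, map_mul, hl, sub_self, map_zero]
    · rw [h, map_sub, map_mul, map_mul, map_mul, map_mul, hr, sub_self, map_zero]
  | refl => rfl
  | symm _ ih => exact ih.symm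
  | trans _ _ ih1 ih2 => exact ih1.trans ih2
  | add _ _ ih1 ih2 => rw [map_add, map_add, ih1, ih2]
  | mul _ _ ih1 ih2 => rw [map_mul, map_mul, ih1, ih2]

/-- homomorphisms from the free alternative ring -/
noncomputable def qLift {B : Type*} [NonUnitalNonAssocRing B]
    (hl : ∀ u v : B, (u * u) * v = u * (u * v))
    (hr : ∀ u v : B, (v * u) * u = v * (u * u)) (f : FF →ₙ+* B) : cc.Quotient →ₙ+* B where
  toFun q := Quotient.liftOn' q f (fun _ _ h => lift_rel hl hr f h)
  map_mul' a b := by
    induction a using Quotient.inductionOn' with | _ a =>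
    induction b using Quotient.inductionOn' with | _ b =>
    exact map_mul f a b
  map_zero' := map_zero f
  map_add' a b := by
    induction a using Quotient.inductionOn' with | _ a =>
    induction b using Quotient.inductionOn' with | _ b =>
    exact map_add f a b

theorem qLift_mk {B : Type*} [NonUnitalNonAssocRing B]
    (hl : ∀ u v : B, (u * u) * v = u * (u * v))
    (hr : ∀ u v : B, (v * u) * u = v * (u * u)) (f : FF →ₙ+* B) (a : FF) :
    qLift hl hr f (mk a) = f a := rfl

/-- homomorphisms from the free nonassociative ring -/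
noncomputable def fLift {B : Type*} [NonUnitalNonAssocRing B] (f : Fin 3 → B) : FF →ₙ+* B where
  toFun := (FreeNonUnitalNonAssocAlgebra.lift ℤ f : FF →ₙₐ[ℤ] B)
  map_mul' := map_mul _
  map_zero' := map_zero _
  map_add' := map_add _

theorem fLift_gg {B : Type*} [NonUnitalNonAssocRing B] (f : Fin 3 → B) (i : Fin 3) :
    fLift f (gg i) = f i := FreeNonUnitalNonAssocAlgebra.lift_of_apply ℤ f i

theorem mk_closure : NonUnitalSubring.closure {mk (gg 0), mk (gg 1), mk (gg 2)} =
    (⊤ : NonUnitalSubring cc.Quotient) := by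
  rw [eq_top_iff]
  intro a _
  obtain ⟨a, rfl⟩ := mk_surj a
  have ha : a ∈ NonUnitalSubring.closure (Set.range gg) := by rw [gg_closure]; trivial
  induction ha using NonUnitalSubring.closure_induction with
  | mem g hg =>
    obtain ⟨i, rfl⟩ := hg
    apply NonUnitalSubring.subset_closure
    fin_cases i
    · exact Or.inl rfl
    · exact Or.inr (Or.inl rfl)
    · exact Or.inr (Or.inr rfl)
  | zero => rw [map_zero]; exact zero_mem _
  | add a b _ _ iha ihb => rw [map_add]; exact add_mem (iha trivial) (ihb trivial)
  | neg a _ iha => rw [map_neg]; exact neg_mem (iha trivial)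
  | mul a b _ _ iha ihb => rw [map_mul]; exact mul_mem (iha trivial) (ihb trivial)

open MvPolynomial in
/-- the free alternative ring on three generators has no nonzero ideal in its commutative
centre -/
theorem final_thm (I : AddSubgroup FF) (hI : ∀ a ∈ I, ∀ b : FF, a * b ∈ I ∧ b * a ∈ I)
    (hc : ∀ a ∈ I, ∀ b : FF, cc (a * b - b * a) 0) (a : FF) (ha : a ∈ I) : cc a 0 := by
  have hc' : ∀ a ∈ I, ∀ b : FF, mk a * mk b = mk b * mk a := by
    intro a ha b
    have h := cc.add (hc a ha b) (cc.refl (b * a))
    rw [sub_add_cancel, zero_add] at h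
    rw [← map_mul, ← map_mul]
    exact (mk_eq_iff _ _).2 h
  rw [← mk_eq_iff, map_zero]
  have h1 := hc' a ha (gg 0)
  have h2 := hc' a ha (gg 1)
  have h3 := hc' _ (hI a ha (gg 0)).1 (gg 1)
  rw [map_mul] at h3
  exact main_Q QQ_left QQ_right mk_closure
    (qLift (fun u v => mul_assoc _ _ _) (fun u v => mul_assoc _ _ _)
      (fLift (fun i => FreeAlgebra.ι ℤ i)))
    (by rw [qLift_mk, fLift_gg]) (by rw [qLift_mk, fLift_gg]) (by rw [qLift_mk, fLift_gg])
    (qLift AltRing.left_alt (fun u v => AltRing.right_alt u v)
      (fLift ![XX _ _ _ (X 3), YY _ _ _ (X 4) (X 5), ZZ _ _ _ (X 6) (X 7) (X 8) (X 9)]))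
    (by rw [qLift_mk, fLift_gg]; rfl) (by rw [qLift_mk, fLift_gg]; rfl)
    (by rw [qLift_mk, fLift_gg]; rfl) h1 h2 h3

end Pool.Agent.Lib.MP_20522e_al
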