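import Pool.Agent.Lib.MP_20522e_al.Span

set_option autoImplicit false

namespace Pool.Agent.Lib.MP_20522e_al

section
variable {A : Type*} [AltRing A]

/-- one of three elements -/
def G3 (x y z g : A) : Prop := g = x ∨ g = y ∨ g = z

theorem kf34z (a b c : A) : kf a b c c = 0 := by
  unfold kf; rw [asc_bb, asc_bb, asc_bb]; simp

theorem kf23z (a b c : A) : kf a b b c = 0 := by
  rw [kf34, kf24z, neg_zero]

theorem kf13z (a b c : A) : kf a b a c = 0 := by
  rw [kf12, kf23z]; simp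

section
variable {x y z : A} {I : AddSubgroup A}

theorem kf_G3 {a : A} (h : kf a x y z ∈ I) {g1 g2 g3 : A} (h1 : G3 x y z g1) (h2 : G3 x y z g2)
    (h3 : G3 x y z g3) : kf a g1 g2 g3 ∈ I := by
  have hz := I.zero_mem
  have e1 : kf a x z y ∈ I := by rw [kf34]; exact I.neg_mem h
  have e2 : kf a y x z ∈ I := by rw [kf23]; exact I.neg_mem h
  have e3 : kf a y z x ∈ I := by rw [kf34]; exact I.neg_mem e2
  have e4 : kf a z x y ∈ I := by rw [kf23]; exact I.neg_mem e1
  have e5 : kf a z y x ∈ I := by rw [kf34]; exact I.neg_mem e4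
  rcases h1 with rfl | rfl | rfl <;> rcases h2 with rfl | rfl | rfl <;>
    rcases h3 with rfl | rfl | rfl <;>
    first
    | assumption
    | (rw [kf34z]; exact hz)
    | (rw [kf23z]; exact hz)
    | (rw [kf24z]; exact hz)

theorem asc_G3 (h : asc x y z ∈ I) {g1 g2 g3 : A} (h1 : G3 x y z g1) (h2 : G3 x y z g2)
    (h3 : G3 x y z g3) : asc g1 g2 g3 ∈ I := by
  have hz := I.zero_mem
  have e1 : asc x z y ∈ I := by rw [asc23]; exact I.neg_mem h
  have e2 : asc y x z ∈ I := by rw [asc12]; exact I.neg_mem h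
  have e3 : asc y z x ∈ I := by rw [← asc_cyc]; exact h
  have e4 : asc z x y ∈ I := by rw [asc_cyc]; exact h
  have e5 : asc z y x ∈ I := by rw [asc12]; exact I.neg_mem e3
  rcases h1 with rfl | rfl | rfl <;> rcases h2 with rfl | rfl | rfl <;>
    rcases h3 with rfl | rfl | rfl <;>
    first
    | assumption
    | (rw [asc_aa]; exact hz)
    | (rw [asc_bb]; exact hz)
    | (rw [asc_aba]; exact hz)

theorem kf_one (b c d : A) : kf 1 b c d = 0 := by
  unfold kf; simp

/-- the auxiliary class -/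
def MM (x y z : A) (I : AddSubgroup A) : AddSubgroup A where
  carrier := {a | (∀ g g', G3 x y z g → G3 x y z g' → asc a g g' ∈ I) ∧ kf a x y z ∈ I}
  zero_mem' := ⟨fun g g' _ _ => by rw [asc_zero1]; exact I.zero_mem,
    by unfold kf; simp [I.zero_mem]⟩
  add_mem' := by
    rintro a b ⟨h1, h2⟩ ⟨h3, h4⟩
    exact ⟨fun g g' hg hg' => by rw [asc_add1]; exact I.add_mem (h1 g g' hg hg') (h3 g g' hg hg'),
      by rw [kf_add1]; exact I.add_mem h2 h4⟩
  neg_mem' := by
    rintro a ⟨h1, h2⟩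
    refine ⟨fun g g' hg hg' => by rw [asc_neg1]; exact I.neg_mem (h1 g g' hg hg'), ?_⟩
    have : kf (-a) x y z = - kf a x y z := by
      unfold kf; simp only [neg_mul, asc_neg1, mul_neg]; abel
    rw [this]; exact I.neg_mem h2

variable (hI : ∀ s ∈ I, ∀ a : A, a * s ∈ I ∧ s * a ∈ I) (hw : asc x y z ∈ I)
include hI hw

theorem MM_R1 {a g : A} (ha : a ∈ MM x y z I) (hg : G3 x y z g) {g1 g2 : A}
    (h1 : G3 x y z g1) (h2 : G3 x y z g2) : asc (a * g) g1 g2 ∈ I := by
  have e : asc (a * g) g1 g2 = kf a g g1 g2 + g * asc a g1 g2 + asc g g1 g2 * a := by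
    unfold kf; abel
  rw [e]
  exact I.add_mem (I.add_mem (kf_G3 ha.2 hg h1 h2) (hI _ (ha.1 _ _ h1 h2) _).1)
    (hI _ (asc_G3 hw hg h1 h2) _).2

theorem MM_L1 {a g : A} (ha : a ∈ MM x y z I) (hg : G3 x y z g) {g1 g2 : A}
    (h1 : G3 x y z g1) (h2 : G3 x y z g2) : asc (g * a) g1 g2 ∈ I := by
  have e : asc (g * a) g1 g2 = a * asc g g1 g2 + asc a g1 g2 * g - kf a g g1 g2 := by
    rw [kf12 a g g1 g2]; unfold kf; abel
  rw [e]
  exact I.sub_mem (I.add_mem (hI _ (asc_G3 hw hg h1 h2) _).1 (hI _ (ha.1 _ _ h1 h2) _).2)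
    (kf_G3 ha.2 hg h1 h2)

theorem MM_sq1 {b g d : A} (h : asc g b d ∈ I) : asc b (g * g) d ∈ I := by
  rw [asc12, asc_sq]
  exact I.neg_mem (I.add_mem (hI _ h _).1 (hI _ h _).2)

theorem MM_kfsq {a g c d : A} (ha : a ∈ MM x y z I) (hg : G3 x y z g) (hc : G3 x y z c)
    (hd : G3 x y z d) : kf a (g * g) c d ∈ I := by
  rw [kf23]
  unfold kf
  refine I.neg_mem (I.sub_mem (I.sub_mem ?_ ?_) ?_)
  · apply MM_sq1 hI hw
    rw [asc12]
    exact I.neg_mem (MM_R1 hI hw ha hc hg hd)
  · refine (hI _ (MM_sq1 hI hw ?_) _).1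
    rw [asc12]
    exact I.neg_mem (ha.1 _ _ hg hd)
  · refine (hI _ (MM_sq1 hI hw ?_) _).2
    exact asc_G3 hw hg hc hd

theorem MM_sq2 {g c d : A} (hg : G3 x y z g) (hc : G3 x y z c)
    (hd : G3 x y z d) : asc (g * g) c d ∈ I := by
  rw [asc_sq]
  exact I.add_mem (hI _ (asc_G3 hw hg hc hd) _).1 (hI _ (asc_G3 hw hg hc hd) _).2

theorem MM_R2 {a g c d : A} (ha : a ∈ MM x y z I) (hg : G3 x y z g) (hc : G3 x y z c)
    (hd : G3 x y z d) : kf (a * g) g c d ∈ I := by
  have e1 := MM_kfsq hI hw ha hg hc hd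
  have e2 : kf (a * g) g c d = kf a (g * g) c d + (g * g) * asc a c d + asc (g * g) c d * a -
      g * asc (a * g) c d - asc g c d * (a * g) := by
    unfold kf; rw [AltRing.right_alt]; abel
  rw [e2]
  refine I.sub_mem (I.sub_mem (I.add_mem (I.add_mem e1 ?_) ?_) ?_) ?_
  · exact (hI _ (ha.1 _ _ hc hd) _).1
  · exact (hI _ (MM_sq2 hI hw hg hc hd) _).2
  · exact (hI _ (MM_R1 hI hw ha hg hc hd) _).1
  · exact (hI _ (asc_G3 hw hg hc hd) _).2

theorem MM_L2 {a g c d : A} (ha : a ∈ MM x y z I) (hg : G3 x y z g) (hc : G3 x y z c)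
    (hd : G3 x y z d) : kf (g * a) g c d ∈ I := by
  have e1 := MM_kfsq hI hw ha hg hc hd
  have e2 : kf (g * a) g c d = kf a (g * g) c d - a * asc (g * g) c d - asc a c d * (g * g) +
      (g * a) * asc g c d + asc (g * a) c d * g := by
    rw [kf12 (g * a) g c d, kf12 a (g * g) c d]; unfold kf; rw [AltRing.left_alt]; abel
  rw [e2]
  refine I.add_mem (I.add_mem (I.sub_mem (I.sub_mem e1 ?_) ?_) ?_) ?_
  · exact (hI _ (MM_sq2 hI hw hg hc hd) _).1
  · exact (hI _ (ha.1 _ _ hc hd) _).2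
  · exact (hI _ (asc_G3 hw hg hc hd) _).1
  · exact (hI _ (MM_L1 hI hw ha hg hc hd) _).2

theorem MM_all (hgen : NonUnitalSubring.closure {1, x, y, z} = (⊤ : NonUnitalSubring A)) (a : A) :
    a ∈ MM x y z I := by
  have hx : G3 x y z x := Or.inl rfl
  have hy : G3 x y z y := Or.inr (Or.inl rfl)
  have hz : G3 x y z z := Or.inr (Or.inr rfl)
  refine LR_mem (MM x y z I) {1, x, y, z} ?_ ?_ ?_ (a := a) (by rw [hgen]; trivial)
  · rintro g (rfl | rfl | rfl | rfl)
    · exact ⟨fun g g' _ _ => by rw [asc_one1]; exact I.zero_mem, by rw [kf_one]; exact I.zero_mem⟩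
    · exact ⟨fun g g' hg hg' => asc_G3 hw hx hg hg', by rw [kf12z]; exact I.zero_mem⟩
    · exact ⟨fun g g' hg hg' => asc_G3 hw hy hg hg', by rw [kf13z]; exact I.zero_mem⟩
    · exact ⟨fun g g' hg hg' => asc_G3 hw hz hg hg', by rw [kf14z]; exact I.zero_mem⟩
  · rintro g (rfl | rfl | rfl | rfl) n hn
    · rw [one_mul]; exact hn
    · exact ⟨fun g g' hg hg' => MM_L1 hI hw hn hx hg hg', MM_L2 hI hw hn hx hy hz⟩
    · exact ⟨fun g g' hg hg' => MM_L1 hI hw hn hy hg hg', by
        rw [kf23]; exact I.neg_mem (MM_L2 hI hw hn hy hx hz)⟩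
    · exact ⟨fun g g' hg hg' => MM_L1 hI hw hn hz hg hg', by
        rw [kf24]; exact I.neg_mem (MM_L2 hI hw hn hz hy hx)⟩
  · rintro g (rfl | rfl | rfl | rfl) n hn
    · rw [mul_one]; exact hn
    · exact ⟨fun g g' hg hg' => MM_R1 hI hw hn hx hg hg', MM_R2 hI hw hn hx hy hz⟩
    · exact ⟨fun g g' hg hg' => MM_R1 hI hw hn hy hg hg', by
        rw [kf23]; exact I.neg_mem (MM_R2 hI hw hn hy hx hz)⟩
    · exact ⟨fun g g' hg hg' => MM_R1 hI hw hn hz hg hg', by
        rw [kf24]; exact I.neg_mem (MM_R2 hI hw hn hz hy hx)⟩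

end

/-! ### comparison with the free associative algebra -/

/-- left multiplications as a module endomorphism -/
def Lm (a : A) : Module.End ℤ A := (AddMonoidHom.mulLeft a).toIntLinearMap

@[simp] theorem Lm_apply (a b : A) : Lm a b = a * b := rfl

/-- the section of the map to the free associative algebra by iterated left multiplications -/
noncomputable def rr (g : Fin 3 → A) (p : FreeAlgebra ℤ (Fin 3)) : A :=
  (FreeAlgebra.lift ℤ (fun i => Lm (g i)) p) 1

theorem rr_add (g : Fin 3 → A) (p q : FreeAlgebra ℤ (Fin 3)) :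
    rr g (p + q) = rr g p + rr g q := by
  unfold rr; rw [map_add]; rfl

theorem rr_neg (g : Fin 3 → A) (p : FreeAlgebra ℤ (Fin 3)) :
    rr g (-p) = - rr g p := by
  unfold rr; rw [map_neg]; rfl

theorem rr_one (g : Fin 3 → A) : rr g 1 = 1 := by
  have h : FreeAlgebra.lift ℤ (fun i => Lm (g i)) 1 = 1 := map_one _
  unfold rr; rw [h]; rfl

theorem rr_zero (g : Fin 3 → A) : rr g 0 = 0 := by
  unfold rr; rw [map_zero]; rfl

theorem rr_ι_mul (g : Fin 3 → A) (i : Fin 3) (p : FreeAlgebra ℤ (Fin 3)) :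
    rr g (FreeAlgebra.ι ℤ i * p) = g i * rr g p := by
  unfold rr; rw [map_mul, FreeAlgebra.lift_ι_apply]; rfl

theorem rr_ι (g : Fin 3 → A) (i : Fin 3) : rr g (FreeAlgebra.ι ℤ i) = g i := by
  rw [← mul_one (FreeAlgebra.ι ℤ i), rr_ι_mul, rr_one, mul_one]

theorem rr_algebraMap_mul (g : Fin 3 → A) (n : ℤ) (p : FreeAlgebra ℤ (Fin 3)) :
    rr g (algebraMap ℤ _ n * p) = n • rr g p := by
  unfold rr; rw [map_mul, AlgHom.commutes, ← Algebra.smul_def]; rfl

theorem rr_R {I : AddSubgroup A} (hI : ∀ s ∈ I, ∀ a : A, a * s ∈ I ∧ s * a ∈ I) (g : Fin 3 → A)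
    (hM : ∀ a : A, ∀ i j : Fin 3, asc (g i) a (g j) ∈ I) (j : Fin 3)
    (p : FreeAlgebra ℤ (Fin 3)) : rr g (p * FreeAlgebra.ι ℤ j) - rr g p * g j ∈ I := by
  let C : FreeAlgebra ℤ (Fin 3) → Prop := fun p =>
    rr g (p * FreeAlgebra.ι ℤ j) - rr g p * g j ∈ I
  have key : ∀ q : FreeAlgebra ℤ (Fin 3), ∀ p, C p → C (q * p) := by
    intro q
    induction q using FreeAlgebra.induction with
    | grade0 n =>
      intro p hp
      change rr g (_ * p * _) - rr g (_ * p) * g j ∈ I
      rw [mul_assoc, rr_algebraMap_mul, rr_algebraMap_mul, smul_mul_assoc, ← smul_sub]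
      exact I.zsmul_mem hp n
    | grade1 i =>
      intro p hp
      change rr g (_ * p * _) - rr g (_ * p) * g j ∈ I
      rw [mul_assoc, rr_ι_mul, rr_ι_mul]
      have e : g i * rr g (p * FreeAlgebra.ι ℤ j) - (g i * rr g p) * g j =
          g i * (rr g (p * FreeAlgebra.ι ℤ j) - rr g p * g j) - asc (g i) (rr g p) (g j) := by
        unfold asc; rw [mul_sub]; abel
      rw [e]
      exact I.sub_mem (hI _ hp _).1 (hM _ _ _)
    | mul a b iha ihb =>
      intro p hp
      rw [mul_assoc]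
      exact iha _ (ihb _ hp)
    | add a b iha ihb =>
      intro p hp
      have h1 := iha p hp
      have h2 := ihb p hp
      change rr g ((a + b) * p * _) - rr g ((a + b) * p) * g j ∈ I
      change rr g (_ * p * _) - rr g (_ * p) * g j ∈ I at h1
      change rr g (_ * p * _) - rr g (_ * p) * g j ∈ I at h2
      have e : rr g ((a + b) * p * FreeAlgebra.ι ℤ j) - rr g ((a + b) * p) * g j =
          (rr g (a * p * FreeAlgebra.ι ℤ j) - rr g (a * p) * g j) +
          (rr g (b * p * FreeAlgebra.ι ℤ j) - rr g (b * p) * g j) := by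
        rw [add_mul, add_mul, rr_add, rr_add, add_mul]; abel
      rw [e]
      exact I.add_mem h1 h2
  have h1 : C 1 := by
    change rr g (1 * _) - rr g 1 * g j ∈ I
    rw [one_mul, rr_ι, rr_one, one_mul, sub_self]
    exact I.zero_mem
  have := key p 1 h1
  rwa [mul_one] at this

/-- an element with zero image in the free associative algebra lies in the ideal -/
theorem mem_of_map_zero {x y z : A} {I : AddSubgroup A}
    (hI : ∀ s ∈ I, ∀ a : A, a * s ∈ I ∧ s * a ∈ I) (hw : asc x y z ∈ I)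
    (hgen : NonUnitalSubring.closure {1, x, y, z} = (⊤ : NonUnitalSubring A))
    (π : A →+* FreeAlgebra ℤ (Fin 3)) (hx : π x = FreeAlgebra.ι ℤ 0)
    (hy : π y = FreeAlgebra.ι ℤ 1) (hz : π z = FreeAlgebra.ι ℤ 2) {u : A} (hu : π u = 0) :
    u ∈ I := by
  let g : Fin 3 → A := ![x, y, z]
  have hg : ∀ i, G3 x y z (g i) := by
    intro i
    fin_cases i
    · exact Or.inl rfl
    · exact Or.inr (Or.inl rfl)
    · exact Or.inr (Or.inr rfl)
  have hπ : ∀ i, π (g i) = FreeAlgebra.ι ℤ i := by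
    intro i
    fin_cases i
    · exact hx
    · exact hy
    · exact hz
  have hg' : ∀ a, G3 x y z a → ∃ i, a = g i := by
    rintro a (rfl | rfl | rfl)
    · exact ⟨0, rfl⟩
    · exact ⟨1, rfl⟩
    · exact ⟨2, rfl⟩
  have hM : ∀ a : A, ∀ i j : Fin 3, asc (g i) a (g j) ∈ I := by
    intro a i j
    rw [asc12]
    exact I.neg_mem ((MM_all hI hw hgen a).1 _ _ (hg i) (hg j))
  have key : ∀ a : A, a - rr g (π a) ∈ I := by
    intro a
    let N : AddSubgroup A :=
      { carrier := {a | a - rr g (π a) ∈ I}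
        zero_mem' := by
          change (0 : A) - rr g (π 0) ∈ I
          rw [map_zero, rr_zero, sub_self]; exact I.zero_mem
        add_mem' := by
          intro a b ha hb
          change a + b - rr g (π (a + b)) ∈ I
          have e : a + b - rr g (π (a + b)) = (a - rr g (π a)) + (b - rr g (π b)) := by
            rw [map_add, rr_add]; abel
          rw [e]; exact I.add_mem ha hb
        neg_mem' := by
          intro a ha
          change -a - rr g (π (-a)) ∈ I
          have e : -a - rr g (π (-a)) = -(a - rr g (π a)) := by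
            rw [map_neg, rr_neg]; abel
          rw [e]; exact I.neg_mem ha }
    change a ∈ N
    have hN1 : (1 : A) ∈ N := by
      change (1 : A) - rr g (π 1) ∈ I
      rw [map_one, rr_one, sub_self]; exact I.zero_mem
    have hNg : ∀ i, g i ∈ N := by
      intro i
      change g i - rr g (π (g i)) ∈ I
      rw [hπ, rr_ι, sub_self]; exact I.zero_mem
    have hL : ∀ i, ∀ n ∈ N, g i * n ∈ N := by
      intro i n hn
      change g i * n - rr g (π (g i * n)) ∈ I
      rw [map_mul, hπ, rr_ι_mul, ← mul_sub]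
      exact (hI _ hn _).1
    have hR : ∀ i, ∀ n ∈ N, n * g i ∈ N := by
      intro i n hn
      change n * g i - rr g (π (n * g i)) ∈ I
      rw [map_mul, hπ]
      have e : n * g i - rr g (π n * FreeAlgebra.ι ℤ i) = (n - rr g (π n)) * g i -
          (rr g (π n * FreeAlgebra.ι ℤ i) - rr g (π n) * g i) := by
        rw [sub_mul]; abel
      rw [e]
      exact I.sub_mem (hI _ hn _).2 (rr_R hI g hM i _)
    refine LR_mem N {1, x, y, z} ?_ ?_ ?_ (a := a) (by rw [hgen]; trivial)
    · rintro g' (rfl | rfl | rfl | rfl)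
      · exact hN1
      · exact hNg 0
      · exact hNg 1
      · exact hNg 2
    · rintro g' (rfl | rfl | rfl | rfl) n hn
      · rw [one_mul]; exact hn
      · exact hL 0 n hn
      · exact hL 1 n hn
      · exact hL 2 n hn
    · rintro g' (rfl | rfl | rfl | rfl) n hn
      · rw [mul_one]; exact hn
      · exact hR 0 n hn
      · exact hR 1 n hn
      · exact hR 2 n hn
  have := key u
  rwa [hu, rr_zero, sub_zero] at this

end
end Pool.Agent.Lib.MP_20522e_al
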