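import Pool.Agent.Lib.MP_20522e_al.Comm

set_option autoImplicit false

namespace Pool.Agent.Lib.MP_20522e_al

section
variable {A : Type*} [AltRing A]

open MulOpposite (op unop)

/-- `m (p ∘ q)` in terms of the operators -/
theorem I1 (m p q : A) : (m * q) * p = V p m * q + V q m * p - U2 p q m - (m * p) * q := by
  unfold V U2; simp only [add_mul]; abel

/-- `(s z) z` in terms of the operators -/
theorem sq_right (s z : A) : (s * z) * z = V z s * z - U z s := by
  unfold V U; simp only [add_mul]; abel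

theorem V_self_right (s z : A) : V z (s * z) = V z s * z := by
  unfold V; rw [add_mul, flex]

theorem Vz_mul_x {x y z m : A} (h : PP x y z m) : V z (m * x) = V z m * x :=
  V_mul_right h.xz.1 (right_mem_Kc x z) (left_mem_Kc x z)
theorem Vz_mul_y {x y z m : A} (h : PP x y z m) : V z (m * y) = V z m * y :=
  V_mul_right h.yz.1 (right_mem_Kc y z) (left_mem_Kc y z)
theorem Uz_mul_x {x y z m : A} (h : PP x y z m) : U z (m * x) = U z m * x :=
  U_mul_right h.xz.1 (right_mem_Kc x z) (left_mem_Kc x z)
theorem Uz_mul_y {x y z m : A} (h : PP x y z m) : U z (m * y) = U z m * y :=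
  U_mul_right h.yz.1 (right_mem_Kc y z) (left_mem_Kc y z)
theorem U2yz_mul_x {x y z m : A} (h : PP x y z m) : U2 y z (m * x) = U2 y z m * x := by
  have := U2_mul_pwz h.cyc 1; rwa [pw_one] at this

/-- `m (x,y,z)` -/
theorem m_asc {x y z m : A} (h : PP x y z m) :
    m * asc x y z = ((m * x) * z) * y - (m * x) * (y * z) := by
  have e1 := P2 h
  have e2 := P2 h.cyc
  have e3 := ra2 x (y * z) m
  have e4 : m * (y * z) = (m * z) * y :=
    (h.yz.1 z (right_mem_Kc y z) y (left_mem_Kc y z)).symm
  rw [e4] at e3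
  unfold asc
  rw [mul_sub]
  linear_combination (norm := abel) -e1 - e2 + e3

theorem m_asc' {x y z m : A} (h : PP x y z m) :
    m * asc x y z = ((m * x) * z) * y + ((m * z) * y) * x - V (y * z) m * x -
      (V x m * z) * y + Th x y z m := by
  have e1 := m_asc h
  have e2 := I1 m x (y * z)
  have e4 : m * (y * z) = (m * z) * y :=
    (h.yz.1 z (right_mem_Kc y z) y (left_mem_Kc y z)).symm
  have e5 : V x m * (y * z) = (V x m * z) * y :=
    ((PP_Vx h).yz.1 z (right_mem_Kc y z) y (left_mem_Kc y z)).symm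
  rw [e4, e5] at e2
  rw [e1]
  unfold Th
  linear_combination (norm := abel) -e2

theorem Vz_mul_xy {x y z m : A} (h : PP x y z m) :
    V z ((m * x) * y) = (V z m * x) * y - m * asc x y z := by
  have e1 := asc12 z (m * x) y
  have e2 := m_asc h.swap23
  have e3 : m * asc x z y = - (m * asc x y z) := by rw [asc23, mul_neg]
  rw [e3] at e2
  have e4 : V z (m * x) * y = V z m * x * y := by rw [Vz_mul_x h]
  unfold asc at e1
  rw [show V z ((m * x) * y) = z * ((m * x) * y) + ((m * x) * y) * z from rfl, ← e4,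
    show V z (m * x) = z * (m * x) + (m * x) * z from rfl, add_mul]
  linear_combination (norm := abel) -e1 - e2

/-- P1 -/
theorem asc_comm_m {x y z m : A} (h : PP x y z m) : asc x y z * m = m * asc x y z := by
  have e1 : kf z m x y = - kf m z x y := kf12 _ _ _ _
  unfold kf at e1
  have e2 : asc (z * m) x y + asc (m * z) x y = V z m * (y * x) - V z m * (x * y) := by
    rw [← asc_add1]
    exact RC_asc (PP_Vz h).xy.1 (left_mem_Kc x y) (right_mem_Kc x y)
  have e3 : asc m x y = m * (y * x) - m * (x * y) :=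
    RC_asc h.xy.1 (left_mem_Kc x y) (right_mem_Kc x y)
  have e4 : asc z x y = asc x y z := asc_cyc _ _ _
  have e5 := Vz_mul_xy h
  have e6 := Vz_mul_xy h.swap
  have e7 : asc y x z = - asc x y z := asc12 _ _ _
  have e8 : ∀ n : A, PP x y z n → (n * x) * y = n * (y * x) := fun n hn =>
    hn.xy.1 x (left_mem_Kc x y) y (right_mem_Kc x y)
  have e9 : ∀ n : A, PP x y z n → (n * y) * x = n * (x * y) := fun n hn =>
    hn.xy.1 y (right_mem_Kc x y) x (left_mem_Kc x y)
  rw [e8 m h, e8 _ (PP_Vz h)] at e5
  rw [e9 m h, e9 _ (PP_Vz h), e7] at e6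
  rw [e3, e4] at e1
  unfold V at e5 e6 e2
  simp only [mul_sub, sub_mul, add_mul, mul_neg, mul_add] at *
  linear_combination (norm := abel) e2 - e1 - e5 + e6

/-- `Θ(m x) = (Θ m) x - x (m a)` -/
theorem Th_mul_x {x y z m : A} (h : PP x y z m) :
    Th x y z (m * x) = Th x y z m * x - x * (m * asc x y z) := by
  have e1 := lmouf2 x (y * z) m x
  have e2 := m_asc h
  have e3 : m * ((y * z) * x) = ((m * x) * z) * y := (P2 h.cyc).symm
  have e4 : m * (x * x) = (m * x) * x := (AltRing.right_alt x m).symm
  unfold Th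
  rw [U2_def' x (y * z) (m * x)]
  unfold U2
  rw [e1, e2, e3, e4, mul_sub]
  abel

theorem a_mul_m {x y z m : A} (h : PP x y z m) :
    asc x y z * m = (y * z) * (x * m) - (x * (y * z)) * m := by
  have e1 := m_asc (PP_op.2 h).swap23
  have e2 := congrArg unop e1
  have e3 : asc (op x) (op z) (op y) = - op (asc x y z) := by rw [asc_op, asc23, MulOpposite.op_neg]
  have e4 := P2' h.cyc.swap
  rw [e3] at e2
  simp only [MulOpposite.unop_mul, MulOpposite.unop_sub, MulOpposite.unop_op,
    MulOpposite.unop_neg] at e2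
  rw [neg_mul] at e2
  linear_combination (norm := abel) -e2 - e4

/-- `Θ(x m) = x (Θ m) + (a m) x` -/
theorem x_mul_Th {x y z m : A} (h : PP x y z m) :
    Th x y z (x * m) = x * Th x y z m + (asc x y z * m) * x := by
  have e1 := rmouf2 x x (y * z) m
  have e2 := a_mul_m h
  have e3 : (x * x) * m = x * (x * m) := AltRing.left_alt x m
  unfold Th U2
  rw [← e1, e2, e3, sub_mul]
  abel

theorem m_asc_comm_x {x y z m : A} (h : PP x y z m) :
    (m * asc x y z) * x = x * (m * asc x y z) := by
  have e1 := cVxTh h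
  have e2 := Th_mul_x h
  have e3 := x_mul_Th h
  rw [asc_comm_m h] at e3
  rw [show V x m = x * m + m * x from rfl, Th_add, e2, e3] at e1
  unfold V at e1
  linear_combination (norm := abel) -e1

theorem m_asc_comm_y {x y z m : A} (h : PP x y z m) :
    (m * asc x y z) * y = y * (m * asc x y z) := by
  have := m_asc_comm_x h.cyc; rwa [← asc_cyc] at this
theorem m_asc_comm_z {x y z m : A} (h : PP x y z m) :
    (m * asc x y z) * z = z * (m * asc x y z) := by
  have := m_asc_comm_x h.cyc.cyc; rwa [← asc_cyc, ← asc_cyc] at this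

/-- `U_z ((m x) y) = ((U_z m) x) y - z (m a)` -/
theorem Uz_mul_xy {x y z m : A} (h : PP x y z m) :
    U z ((m * x) * y) = (U z m * x) * y - z * (m * asc x y z) := by
  have hxy : ∀ n : A, PP x y z n → (n * x) * y = n * (y * x) := fun n hn =>
    hn.xy.1 x (left_mem_Kc x y) y (right_mem_Kc x y)
  have e1 := lmouf z m (y * x)
  have e2 : ((m * x) * y) * z = m * ((z * y) * x) := P2 h.cyc.cyc.swap23
  rw [hxy _ h] at e2
  rw [hxy _ (PP_Uz h), hxy _ h]
  have e3 : asc z y x = - asc x y z := by rw [asc_cyc, asc12]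
  have e4 : m * (z * (y * x)) = (m * (y * x)) * z + m * asc x y z := by
    have e5 : m * asc z y x = -(m * asc x y z) := by rw [e3, mul_neg]
    have e6 : m * asc z y x = m * ((z * y) * x) - m * (z * (y * x)) := by
      unfold asc; rw [mul_sub]
    rw [e2]
    linear_combination (norm := abel) e6 - e5
  rw [U_def' z (m * (y * x))]
  unfold U
  rw [e1, e4, mul_add]
  abel

end
end Pool.Agent.Lib.MP_20522e_al
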