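import Pool.Agent.Lib.MP_20522e_al.Eval

set_option autoImplicit false

namespace Pool.Agent.Lib.MP_20522e_al

theorem ee_map {R R' : Type*} [CommRing R] [CommRing R'] (f : R →+* R') (p q r l m n a b g d : R)
    (i : Fin 10) : f (ee p q r l m n a b g d i) =
      ee (f p) (f q) (f r) (f l) (f m) (f n) (f a) (f b) (f g) (f d) i := by
  fin_cases i <;> simp only [ee, map_mul, map_add, map_sub, map_pow, map_ofNat]

theorem ee_surj {L : Type*} [Field L] (h2 : (2 : L) ≠ 0) (t : Fin 10 → L)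
    (h1 : t 0 ^ 2 - 4 * t 3 ≠ 0)
    (h3 : (t 0 ^ 2 - 4 * t 3) * (t 1 ^ 2 - 4 * t 4) - (t 0 * t 1 - 2 * t 6) ^ 2 ≠ 0) :
    ∃ p q r l m n a b g d : L, ∀ i, ee p q r l m n a b g d i = t i := by
  obtain ⟨l, hl⟩ : ∃ l : L, 2 * l = t 0 := ⟨t 0 / 2, by field_simp⟩
  obtain ⟨m, hm⟩ : ∃ m : L, 2 * m = t 1 := ⟨t 1 / 2, by field_simp⟩
  obtain ⟨a, ha⟩ : ∃ a : L, 2 * a = t 2 := ⟨t 2 / 2, by field_simp⟩
  obtain ⟨p, hp⟩ : ∃ p : L, l ^ 2 - p = t 3 := ⟨l ^ 2 - t 3, by ring⟩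
  have hp0 : p ≠ 0 := by
    intro h
    apply h1
    rw [← hp, ← hl, h]; ring
  obtain ⟨n, hn⟩ : ∃ n : L, 2 * (l * m - p * n) = t 6 :=
    ⟨(l * m - t 6 / 2) / p, by field_simp; ring⟩
  obtain ⟨b, hb⟩ : ∃ b : L, 2 * (l * a - p * b) = t 7 :=
    ⟨(l * a - t 7 / 2) / p, by field_simp; ring⟩
  obtain ⟨q, hq⟩ : ∃ q : L, m ^ 2 - p * n ^ 2 - q = t 4 := ⟨m ^ 2 - p * n ^ 2 - t 4, by ring⟩
  have hq0 : q ≠ 0 := by
    intro h
    apply h3
    rw [← hp, ← hl, ← hm, ← hn, ← hq, h]; ring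
  obtain ⟨g, hg⟩ : ∃ g : L, 2 * (m * a - p * n * b - q * g) = t 8 :=
    ⟨(m * a - p * n * b - t 8 / 2) / q, by field_simp; ring⟩
  obtain ⟨d, hd⟩ : ∃ d : L,
      2 * (l * (m * a + p * n * b + q * g) - p * (m * b + n * a - q * d)) = t 9 :=
    ⟨(m * b + n * a - (l * (m * a + p * n * b + q * g) - t 9 / 2) / p) / q, by
      field_simp; ring⟩
  obtain ⟨r, hr⟩ : ∃ r : L, a ^ 2 - p * b ^ 2 - q * g ^ 2 + p * q * d ^ 2 - r = t 5 :=
    ⟨a ^ 2 - p * b ^ 2 - q * g ^ 2 + p * q * d ^ 2 - t 5, by ring⟩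
  refine ⟨p, q, r, l, m, n, a, b, g, d, fun i => ?_⟩
  fin_cases i
  · exact hl
  · exact hm
  · exact ha
  · exact hp
  · exact hq
  · exact hr
  · exact hn
  · exact hb
  · exact hg
  · exact hd

open MvPolynomial in
theorem ee_inj (P : MvPolynomial (Fin 10) ℤ)
    (hP : MvPolynomial.eval₂Hom (Int.castRingHom (MvPolynomial (Fin 10) ℤ))
      (ee (X 0) (X 1) (X 2) (X 3) (X 4) (X 5) (X 6) (X 7) (X 8) (X 9)) P = 0) : P = 0 := by
  let L := FractionRing (MvPolynomial (Fin 10) ℤ)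
  let ι : MvPolynomial (Fin 10) ℤ →+* L := algebraMap _ _
  have hι : Function.Injective ι := IsFractionRing.injective _ _
  let t : Fin 10 → L := fun i => ι (X i)
  have h2 : (2 : L) ≠ 0 := by
    have : ι 2 ≠ 0 := by
      rw [Ne, map_eq_zero_iff ι hι]
      exact two_ne_zero
    simpa using this
  have e4 : ι 4 = 4 := map_ofNat ι 4
  have e2 : ι 2 = 2 := map_ofNat ι 2
  have h1 : t 0 ^ 2 - 4 * t 3 ≠ 0 := by
    have : ι (X 0 ^ 2 - 4 * X 3) ≠ 0 := by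
      rw [Ne, map_eq_zero_iff ι hι]
      intro h
      have := congrArg (MvPolynomial.eval (fun i => if i = 3 then (1 : ℤ) else 0)) h
      simp at this
    simp only [map_sub, map_pow, map_mul, e4, e2] at this
    exact this
  have h3 : (t 0 ^ 2 - 4 * t 3) * (t 1 ^ 2 - 4 * t 4) - (t 0 * t 1 - 2 * t 6) ^ 2 ≠ 0 := by
    have : ι ((X 0 ^ 2 - 4 * X 3) * (X 1 ^ 2 - 4 * X 4) - (X 0 * X 1 - 2 * X 6) ^ 2) ≠ 0 := by
      rw [Ne, map_eq_zero_iff ι hι]
      intro h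
      have := congrArg (MvPolynomial.eval (fun i => if i = 3 then (1 : ℤ) else if i = 4 then 1
        else 0)) h
      simp at this
    simp only [map_sub, map_pow, map_mul, e4, e2] at this
    exact this
  obtain ⟨p, q, r, l, m, n, a, b, g, d, he⟩ := ee_surj h2 t h1 h3
  let ρ : MvPolynomial (Fin 10) ℤ →+* L :=
    MvPolynomial.eval₂Hom (Int.castRingHom L) ![p, q, r, l, m, n, a, b, g, d]
  have key : ρ.comp (MvPolynomial.eval₂Hom (Int.castRingHom (MvPolynomial (Fin 10) ℤ))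
      (ee (X 0) (X 1) (X 2) (X 3) (X 4) (X 5) (X 6) (X 7) (X 8) (X 9))) = ι := by
    apply MvPolynomial.ringHom_ext
    · intro k
      simp
    · intro i
      rw [RingHom.comp_apply, MvPolynomial.eval₂Hom_X', ee_map]
      have hX : ∀ j, ρ (X j) = ![p, q, r, l, m, n, a, b, g, d] j := fun j =>
        MvPolynomial.eval₂Hom_X' _ _ _
      simp only [hX]
      exact he i
  have := congrArg ρ hP
  rw [← RingHom.comp_apply, key, map_zero] at this
  exact (map_eq_zero_iff ι hι).mp this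

end Pool.Agent.Lib.MP_20522e_al
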