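import Pool.Agent.Lib.MP_20522e_al.Indep

set_option autoImplicit false

namespace Pool.Agent.Lib.MP_20522e_al

open Oct

theorem oct_central {R : Type*} [CommRing R] [IsDomain R] (p q r l m n : R) (hp : p ≠ 0)
    (h2 : (2 : R) ≠ 0) {u : Oct R p q r} (h1 : u * XX p q r l = XX p q r l * u)
    (h3 : u * YY p q r m n = YY p q r m n * u)
    (h4 : (u * XX p q r l) * YY p q r m n = YY p q r m n * (u * XX p q r l)) : u = 0 := by
  obtain ⟨c0, c1, c2, c3, c4, c5, c6, c7⟩ := u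
  simp only [XX, YY, mul_def, Oct.mk.injEq] at h1 h3 h4
  obtain ⟨A0, A1, A2, A3, A4, A5, A6, A7⟩ := h1
  obtain ⟨B0, B1, B2, B3, B4, B5, B6, B7⟩ := h3
  obtain ⟨C0, C1, C2, C3, C4, C5, C6, C7⟩ := h4
  have e2 : c2 = 0 := by
    have : 2 * c2 = 0 := by linear_combination -A3
    exact (mul_eq_zero.mp this).resolve_left h2
  have e3 : c3 = 0 := by
    have : 2 * p * c3 = 0 := by linear_combination -A2
    exact (mul_eq_zero.mp this).resolve_left (mul_ne_zero h2 hp)
  have e4 : c4 = 0 := by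
    have : 2 * c4 = 0 := by linear_combination -A5
    exact (mul_eq_zero.mp this).resolve_left h2
  have e5 : c5 = 0 := by
    have : 2 * p * c5 = 0 := by linear_combination -A4
    exact (mul_eq_zero.mp this).resolve_left (mul_ne_zero h2 hp)
  have e6 : c6 = 0 := by
    have : 2 * c6 = 0 := by linear_combination A7
    exact (mul_eq_zero.mp this).resolve_left h2
  have e7 : c7 = 0 := by
    have : 2 * p * c7 = 0 := by linear_combination A6
    exact (mul_eq_zero.mp this).resolve_left (mul_ne_zero h2 hp)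
  subst e2 e3 e4 e5 e6 e7
  have e1 : c1 = 0 := by
    have : 2 * c1 = 0 := by linear_combination B3
    exact (mul_eq_zero.mp this).resolve_left h2
  subst e1
  have e0 : c0 = 0 := by
    have : 2 * c0 = 0 := by linear_combination C3
    exact (mul_eq_zero.mp this).resolve_left h2
  subst e0
  rfl

theorem comm_ne_zero : (FreeAlgebra.ι ℤ (0 : Fin 3) * FreeAlgebra.ι ℤ (1 : Fin 3) -
    FreeAlgebra.ι ℤ (1 : Fin 3) * FreeAlgebra.ι ℤ (0 : Fin 3) : FreeAlgebra ℤ (Fin 3)) ≠ 0 := by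
  intro h
  have := congrArg (FreeAlgebra.lift ℤ
    (![!![0, 1; 0, 0], !![0, 0; 1, 0], 0] : Fin 3 → Matrix (Fin 2) (Fin 2) ℤ)) h
  rw [map_sub, map_mul, map_mul, FreeAlgebra.lift_ι_apply, FreeAlgebra.lift_ι_apply, map_zero] at this
  have := congrFun (congrFun this 0) 0
  simp [Matrix.mul_apply, Fin.sum_univ_two] at this

open MvPolynomial in
/-- abstract form of the main theorem -/
theorem main_abs {A : Type*} [AltRing A] {x y z : A}
    (hgen : NonUnitalSubring.closure {1, x, y, z} = (⊤ : NonUnitalSubring A))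
    (π : A →+* FreeAlgebra ℤ (Fin 3)) (hx : π x = FreeAlgebra.ι ℤ 0)
    (hy : π y = FreeAlgebra.ι ℤ 1) (hz : π z = FreeAlgebra.ι ℤ 2)
    (ψ : A →+* Oct (MvPolynomial (Fin 10) ℤ) (X 0) (X 1) (X 2))
    (hx' : ψ x = XX _ _ _ (X 3)) (hy' : ψ y = YY _ _ _ (X 4) (X 5))
    (hz' : ψ z = ZZ _ _ _ (X 6) (X 7) (X 8) (X 9))
    {u : A} (h1 : u * x = x * u) (h2 : u * y = y * u) (h3 : (u * x) * y = y * (u * x)) :
    u = 0 := by
  have hu : π u = 0 := by
    have e2 := congrArg π h2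
    have e3 := congrArg π h3
    simp only [map_mul, hx, hy] at e2 e3
    have e4 : π u * (FreeAlgebra.ι ℤ (0 : Fin 3) * FreeAlgebra.ι ℤ (1 : Fin 3) -
        FreeAlgebra.ι ℤ (1 : Fin 3) * FreeAlgebra.ι ℤ (0 : Fin 3)) = 0 := by
      rw [mul_sub, ← mul_assoc, ← mul_assoc, e3, e2, ← mul_assoc, sub_self]
    exact (mul_eq_zero.mp e4).resolve_right comm_ne_zero
  have hX : ∀ i, (X i : MvPolynomial (Fin 10) ℤ) ≠ 0 := fun i => MvPolynomial.X_ne_zero i
  have hψ : ψ u = 0 := by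
    have e1 := congrArg ψ h1
    have e2 := congrArg ψ h2
    have e3 := congrArg ψ h3
    simp only [map_mul, hx', hy'] at e1 e2 e3
    exact oct_central _ _ _ _ _ _ (hX 0) two_ne_zero e1 e2 e3
  exact eq_zero_of_mem _ _ _ (X 3) (X 4) (X 5) (X 6) (X 7) (X 8) (X 9) (hX 0) (hX 1) (hX 2)
    two_ne_zero ee_inj ψ hx' hy' hz' (structure_thm hgen π hx hy hz hu) hψ

end Pool.Agent.Lib.MP_20522e_al
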