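import Pool.Agent.Lib.MP_20522e_al.Gen

set_option autoImplicit false

namespace Pool.Agent.Lib.MP_20522e_al

/-- Cayley-Dickson octonions with parameters -/
@[ext] structure Oct (R : Type*) (p q r : R) where
  (c0 c1 c2 c3 c4 c5 c6 c7 : R)

namespace Oct

variable {R : Type*} [CommRing R] {p q r : R}

instance : Zero (Oct R p q r) := ⟨⟨0, 0, 0, 0, 0, 0, 0, 0⟩⟩
instance : One (Oct R p q r) := ⟨⟨1, 0, 0, 0, 0, 0, 0, 0⟩⟩
instance : Add (Oct R p q r) := ⟨fun u v => ⟨u.c0 + v.c0, u.c1 + v.c1, u.c2 + v.c2, u.c3 + v.c3,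
  u.c4 + v.c4, u.c5 + v.c5, u.c6 + v.c6, u.c7 + v.c7⟩⟩
instance : Neg (Oct R p q r) := ⟨fun u => ⟨-u.c0, -u.c1, -u.c2, -u.c3, -u.c4, -u.c5, -u.c6, -u.c7⟩⟩
instance : Mul (Oct R p q r) := ⟨fun u v =>
  ⟨u.c0 * v.c0 + p * u.c1 * v.c1 + q * u.c2 * v.c2 + r * u.c4 * v.c4 - p * q * u.c3 * v.c3 - p * r * u.c5 * v.c5 - q * r * u.c6 * v.c6 + p * q * r * u.c7 * v.c7,
   u.c0 * v.c1 + u.c1 * v.c0 - q * u.c2 * v.c3 + q * u.c3 * v.c2 - r * u.c4 * v.c5 + r * u.c5 * v.c4 - q * r * u.c6 * v.c7 + q * r * u.c7 * v.c6,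
   u.c0 * v.c2 + u.c2 * v.c0 + p * u.c1 * v.c3 - p * u.c3 * v.c1 - r * u.c4 * v.c6 + r * u.c6 * v.c4 + p * r * u.c5 * v.c7 - p * r * u.c7 * v.c5,
   u.c0 * v.c3 + u.c1 * v.c2 - u.c2 * v.c1 + u.c3 * v.c0 - r * u.c4 * v.c7 + r * u.c5 * v.c6 - r * u.c6 * v.c5 + r * u.c7 * v.c4,
   u.c0 * v.c4 + u.c4 * v.c0 + p * u.c1 * v.c5 - p * u.c5 * v.c1 + q * u.c2 * v.c6 - q * u.c6 * v.c2 - p * q * u.c3 * v.c7 + p * q * u.c7 * v.c3,
   u.c0 * v.c5 + u.c1 * v.c4 - u.c4 * v.c1 + u.c5 * v.c0 + q * u.c2 * v.c7 - q * u.c3 * v.c6 + q * u.c6 * v.c3 - q * u.c7 * v.c2,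
   u.c0 * v.c6 + u.c2 * v.c4 - u.c4 * v.c2 + u.c6 * v.c0 - p * u.c1 * v.c7 + p * u.c3 * v.c5 - p * u.c5 * v.c3 + p * u.c7 * v.c1,
   u.c0 * v.c7 - u.c1 * v.c6 + u.c2 * v.c5 + u.c3 * v.c4 - u.c4 * v.c3 - u.c5 * v.c2 + u.c6 * v.c1 + u.c7 * v.c0⟩⟩

theorem zero_def : (0 : Oct R p q r) = ⟨0, 0, 0, 0, 0, 0, 0, 0⟩ := rfl
theorem one_def : (1 : Oct R p q r) = ⟨1, 0, 0, 0, 0, 0, 0, 0⟩ := rfl
theorem add_def (u v : Oct R p q r) : u + v = ⟨u.c0 + v.c0, u.c1 + v.c1, u.c2 + v.c2, u.c3 + v.c3,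
  u.c4 + v.c4, u.c5 + v.c5, u.c6 + v.c6, u.c7 + v.c7⟩ := rfl
theorem neg_def (u : Oct R p q r) : -u =
  ⟨-u.c0, -u.c1, -u.c2, -u.c3, -u.c4, -u.c5, -u.c6, -u.c7⟩ := rfl
theorem mul_def (u v : Oct R p q r) : u * v =
  ⟨u.c0 * v.c0 + p * u.c1 * v.c1 + q * u.c2 * v.c2 + r * u.c4 * v.c4 - p * q * u.c3 * v.c3 - p * r * u.c5 * v.c5 - q * r * u.c6 * v.c6 + p * q * r * u.c7 * v.c7,
   u.c0 * v.c1 + u.c1 * v.c0 - q * u.c2 * v.c3 + q * u.c3 * v.c2 - r * u.c4 * v.c5 + r * u.c5 * v.c4 - q * r * u.c6 * v.c7 + q * r * u.c7 * v.c6,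
   u.c0 * v.c2 + u.c2 * v.c0 + p * u.c1 * v.c3 - p * u.c3 * v.c1 - r * u.c4 * v.c6 + r * u.c6 * v.c4 + p * r * u.c5 * v.c7 - p * r * u.c7 * v.c5,
   u.c0 * v.c3 + u.c1 * v.c2 - u.c2 * v.c1 + u.c3 * v.c0 - r * u.c4 * v.c7 + r * u.c5 * v.c6 - r * u.c6 * v.c5 + r * u.c7 * v.c4,
   u.c0 * v.c4 + u.c4 * v.c0 + p * u.c1 * v.c5 - p * u.c5 * v.c1 + q * u.c2 * v.c6 - q * u.c6 * v.c2 - p * q * u.c3 * v.c7 + p * q * u.c7 * v.c3,
   u.c0 * v.c5 + u.c1 * v.c4 - u.c4 * v.c1 + u.c5 * v.c0 + q * u.c2 * v.c7 - q * u.c3 * v.c6 + q * u.c6 * v.c3 - q * u.c7 * v.c2,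
   u.c0 * v.c6 + u.c2 * v.c4 - u.c4 * v.c2 + u.c6 * v.c0 - p * u.c1 * v.c7 + p * u.c3 * v.c5 - p * u.c5 * v.c3 + p * u.c7 * v.c1,
   u.c0 * v.c7 - u.c1 * v.c6 + u.c2 * v.c5 + u.c3 * v.c4 - u.c4 * v.c3 - u.c5 * v.c2 + u.c6 * v.c1 + u.c7 * v.c0⟩ := rfl

instance instAddCommGroup : AddCommGroup (Oct R p q r) where
  add_assoc u v w := by ext <;> simp only [add_def] <;> ring
  zero_add u := by ext <;> simp only [add_def, zero_def] <;> ring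
  add_zero u := by ext <;> simp only [add_def, zero_def] <;> ring
  nsmul := nsmulRec
  zsmul := zsmulRec
  neg_add_cancel u := by ext <;> simp only [add_def, zero_def, neg_def] <;> ring
  add_comm u v := by ext <;> simp only [add_def] <;> ring

instance instNonAssocRing : NonAssocRing (Oct R p q r) where
  __ := instAddCommGroup
  left_distrib u v w := by ext <;> simp only [add_def, mul_def] <;> ring
  right_distrib u v w := by ext <;> simp only [add_def, mul_def] <;> ring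
  zero_mul u := by ext <;> simp only [zero_def, mul_def] <;> ring
  mul_zero u := by ext <;> simp only [zero_def, mul_def] <;> ring
  one_mul u := by ext <;> simp only [one_def, mul_def] <;> ring
  mul_one u := by ext <;> simp only [one_def, mul_def] <;> ring

instance instAltRing : AltRing (Oct R p q r) where
  left_alt u v := by
    obtain ⟨a0, a1, a2, a3, a4, a5, a6, a7⟩ := u
    obtain ⟨b0, b1, b2, b3, b4, b5, b6, b7⟩ := v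
    simp only [mul_def]
    ext <;> simp only <;> ring
  right_alt u v := by
    obtain ⟨a0, a1, a2, a3, a4, a5, a6, a7⟩ := u
    obtain ⟨b0, b1, b2, b3, b4, b5, b6, b7⟩ := v
    simp only [mul_def]
    ext <;> simp only <;> ring

end Oct

end Pool.Agent.Lib.MP_20522e_al
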