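import Pool.Agent.Lib.MP_20522e_al.Embed

set_option autoImplicit false

namespace Pool.Agent.Lib.MP_20522e_al

open Oct

section
variable {R : Type*} [CommRing R] [IsDomain R] {p q r : R}

theorem oct_sq (h2 : (2 : R) ≠ 0) {v : Oct R p q r} (h : v * v = 0) : v.c0 = 0 := by
  obtain ⟨c0, c1, c2, c3, c4, c5, c6, c7⟩ := v
  simp only [mul_def, zero_def, Oct.mk.injEq] at h
  obtain ⟨h0, h1, h2', h3, h4, h5, h6, h7⟩ := h
  by_contra hc
  change c0 ≠ 0 at hc
  have key : ∀ c : R, 2 * c0 * c = 0 → c = 0 := fun c h =>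
    (mul_eq_zero.mp h).resolve_left (mul_ne_zero h2 hc)
  have e1 : c1 = 0 := key _ (by linear_combination h1)
  have e2 : c2 = 0 := key _ (by linear_combination h2')
  have e3 : c3 = 0 := key _ (by linear_combination h3)
  have e4 : c4 = 0 := key _ (by linear_combination h4)
  have e5 : c5 = 0 := key _ (by linear_combination h5)
  have e6 : c6 = 0 := key _ (by linear_combination h6)
  have e7 : c7 = 0 := key _ (by linear_combination h7)
  subst e1 e2 e3 e4 e5 e6 e7
  apply hc
  have : c0 * c0 = 0 := by linear_combination h0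
  exact mul_self_eq_zero.mp this

theorem oct_zero_of_trace (l m n a b g d : R) (hp : p ≠ 0) (hq : q ≠ 0) (hr : r ≠ 0)
    {v : Oct R p q r} (h0 : v.c0 = 0) (h1 : (v * XX p q r l).c0 = 0)
    (h2 : (v * YY p q r m n).c0 = 0) (h3 : (v * ZZ p q r a b g d).c0 = 0)
    (h12 : ((v * XX p q r l) * YY p q r m n).c0 = 0)
    (h13 : ((v * XX p q r l) * ZZ p q r a b g d).c0 = 0)
    (h23 : ((v * YY p q r m n) * ZZ p q r a b g d).c0 = 0)
    (h123 : (((v * XX p q r l) * YY p q r m n) * ZZ p q r a b g d).c0 = 0) : v = 0 := by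
  obtain ⟨c0, c1, c2, c3, c4, c5, c6, c7⟩ := v
  simp only [XX, YY, ZZ, mul_def] at h0 h1 h2 h3 h12 h13 h23 h123
  subst h0
  have e1 : c1 = 0 := by
    have : p * c1 = 0 := by linear_combination h1
    exact (mul_eq_zero.mp this).resolve_left hp
  subst e1
  have e2 : c2 = 0 := by
    have : q * c2 = 0 := by linear_combination h2
    exact (mul_eq_zero.mp this).resolve_left hq
  subst e2
  have e3 : c3 = 0 := by
    have : p * q * c3 = 0 := by linear_combination -h12
    exact (mul_eq_zero.mp this).resolve_left (mul_ne_zero hp hq)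
  subst e3
  have e4 : c4 = 0 := by
    have : r * c4 = 0 := by linear_combination h3
    exact (mul_eq_zero.mp this).resolve_left hr
  subst e4
  have e5 : c5 = 0 := by
    have : p * r * c5 = 0 := by linear_combination -h13
    exact (mul_eq_zero.mp this).resolve_left (mul_ne_zero hp hr)
  subst e5
  have e6 : c6 = 0 := by
    have : q * r * c6 = 0 := by linear_combination -h23
    exact (mul_eq_zero.mp this).resolve_left (mul_ne_zero hq hr)
  subst e6
  have e7 : c7 = 0 := by
    have : p * q * r * c7 = 0 := by linear_combination -h123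
    exact (mul_eq_zero.mp this).resolve_left (mul_ne_zero (mul_ne_zero hp hq) hr)
  subst e7
  rfl

end

theorem semiprime_aux (J : Set FF) (hJ : ∀ x ∈ J, ∀ g : FF, x * g ∈ J)
    (hsq : ∀ x ∈ J, cc (x * x) 0) {x : FF} (hx : x ∈ J) : Pi x = 0 ∧ Psi x = 0 := by
  have hr : IsPres altRel := by
    refine ⟨?_, ?_, cc_left, cc_right⟩
    · rintro _ _ ⟨a, b, rfl | rfl, rfl⟩
      · rw [map_sub, pi_left, sub_self, map_zero]
      · rw [map_sub, pi_right, sub_self, map_zero]
    · rintro _ _ ⟨a, b, rfl | rfl, rfl⟩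
      · rw [map_sub, psi_left, sub_self, map_zero]
      · rw [map_sub, psi_right, sub_self, map_zero]
  have h1 : ∀ x ∈ J, Pi x * Pi x = 0 ∧ Psi x * Psi x = 0 := by
    intro x hx
    have h := hr.map (hsq x hx)
    rw [map_mul, map_mul, map_zero, map_zero] at h
    exact h
  refine ⟨mul_self_eq_zero.mp (h1 x hx).1, ?_⟩
  have h2 : ∀ x ∈ J, (Psi x).c0 = 0 := fun x hx => oct_sq two_ne_zero (h1 x hx).2
  have hX : ∀ i, (MvPolynomial.X i : MvPolynomial (Fin 10) ℤ) ≠ 0 :=
    fun i => MvPolynomial.X_ne_zero i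
  have e := fun i => hJ x hx (gg i)
  refine oct_zero_of_trace (MvPolynomial.X 3) (MvPolynomial.X 4) (MvPolynomial.X 5)
    (MvPolynomial.X 6) (MvPolynomial.X 7) (MvPolynomial.X 8) (MvPolynomial.X 9)
    (hX 0) (hX 1) (hX 2) (h2 x hx) ?_ ?_ ?_ ?_ ?_ ?_ ?_ <;>
    simp only [← Psi_gg0, ← Psi_gg1, ← Psi_gg2, ← map_mul]
  · exact h2 _ (e 0)
  · exact h2 _ (e 1)
  · exact h2 _ (e 2)
  · exact h2 _ (hJ _ (e 0) (gg 1))
  · exact h2 _ (hJ _ (e 0) (gg 2))
  · exact h2 _ (hJ _ (e 1) (gg 2))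
  · exact h2 _ (hJ _ (hJ _ (e 0) (gg 1)) (gg 2))

/-- the free alternative ring on three generators is semiprime -/
theorem semiprime_thm (J : TwoSidedIdeal (MonoidAlgebra ℤ (FreeMagma (Fin 3))))
    (hsq : ∀ x ∈ J, ∀ y ∈ J, ∀ K : TwoSidedIdeal (MonoidAlgebra ℤ (FreeMagma (Fin 3))),
          (∀ a b : MonoidAlgebra ℤ (FreeMagma (Fin 3)),
              (a * a) * b - a * (a * b) ∈ K ∧ (b * a) * a - b * (a * a) ∈ K) →
          x * y ∈ K) (x : MonoidAlgebra ℤ (FreeMagma (Fin 3))) (hx : x ∈ J)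
    (K : TwoSidedIdeal (MonoidAlgebra ℤ (FreeMagma (Fin 3))))
    (hK : ∀ a b : MonoidAlgebra ℤ (FreeMagma (Fin 3)),
              (a * a) * b - a * (a * b) ∈ K ∧ (b * a) * a - b * (a * a) ∈ K) : x ∈ K := by
  have h1 : ∀ x ∈ (J : Set FF), cc (x * x) 0 := by
    intro x hx
    refine hsq x hx x hx ⟨cc⟩ ?_
    intro a b
    constructor
    · have := cc.sub (cc_left a b) (cc.refl (a * (a * b)))
      rw [sub_self] at this
      exact this
    · have := cc.sub (cc_right a b) (cc.refl (b * (a * a)))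
      rw [sub_self] at this
      exact this
  have h2 := semiprime_aux (J : Set FF) (fun x hx g => J.mul_mem_right x g hx) h1 hx
  have hK1 : ∀ a b : FF, K.ringCon ((a * a) * b) (a * (a * b)) := by
    intro a b
    have := K.ringCon.add ((K.mem_iff _).1 (hK a b).1) (K.ringCon.refl (a * (a * b)))
    rwa [sub_add_cancel, zero_add] at this
  have hK2 : ∀ a b : FF, K.ringCon ((b * a) * a) (b * (a * a)) := by
    intro a b
    have := K.ringCon.add ((K.mem_iff _).1 (hK a b).2) (K.ringCon.refl (b * (a * a)))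
    rwa [sub_add_cancel, zero_add] at this
  rw [K.mem_iff]
  exact embed_con hK1 hK2 (by rw [h2.1, map_zero]) (by rw [h2.2, map_zero])

end Pool.Agent.Lib.MP_20522e_al
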