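import Pool.Agent.Lib.MP_20522e_al.Ident

set_option autoImplicit false

namespace Pool.Agent.Lib.MP_20522e_al

section
variable {A : Type*} [AltRing A]

open MulOpposite (op unop)

theorem word_zz {x y z m : A} (h : PP x y z m) :
    (((m * x) * y) * z) * z = ((V z m * x) * y) * z - (U z m * x) * y := by
  rw [sq_right, Vz_mul_xy h, Uz_mul_xy h, sub_mul, m_asc_comm_z h]; abel

/-- stable subgroups of the class `P` -/
structure Stab (x y z : A) (N : AddSubgroup A) : Prop where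
  pp : ∀ m ∈ N, PP x y z m
  vx : ∀ m ∈ N, V x m ∈ N
  vy : ∀ m ∈ N, V y m ∈ N
  vz : ∀ m ∈ N, V z m ∈ N
  ux : ∀ m ∈ N, U x m ∈ N
  uy : ∀ m ∈ N, U y m ∈ N
  uz : ∀ m ∈ N, U z m ∈ N
  uxy : ∀ m ∈ N, U2 x y m ∈ N
  uxz : ∀ m ∈ N, U2 x z m ∈ N
  uyz : ∀ m ∈ N, U2 y z m ∈ N
  th : ∀ m ∈ N, Th x y z m ∈ N

theorem Stab.vyz {x y z : A} {N : AddSubgroup A} (h : Stab x y z N) {m : A} (hm : m ∈ N) :
    V (y * z) m ∈ N := by
  rw [V_yz (h.pp m hm).yz.2, U2_comm]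
  exact N.sub_mem (h.vz _ (h.vy _ hm)) (h.uyz _ hm)

theorem Stab.vzx {x y z : A} {N : AddSubgroup A} (h : Stab x y z N) {m : A} (hm : m ∈ N) :
    V (z * x) m ∈ N := by
  rw [V_yz (LC_comm (h.pp m hm).xz.2)]
  exact N.sub_mem (h.vx _ (h.vz _ hm)) (h.uxz _ hm)

theorem Stab.cyc {x y z : A} {N : AddSubgroup A} (h : Stab x y z N) : Stab y z x N where
  pp m hm := (h.pp m hm).cyc
  vx := h.vy
  vy := h.vz
  vz := h.vx
  ux := h.uy
  uy := h.uz
  uz := h.ux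
  uxy := h.uyz
  uxz := fun m hm => by rw [U2_comm]; exact h.uxy m hm
  uyz := fun m hm => by rw [U2_comm]; exact h.uxz m hm
  th := fun m hm => by
    have := Th_rel (h.pp m hm)
    have e : Th y z x m = Th x y z m + V x (U2 y z m) - V y (U2 x z m) := by rw [this]; abel
    rw [e]
    exact N.sub_mem (N.add_mem (h.th m hm) (h.vx _ (h.uyz _ hm))) (h.vy _ (h.uxz _ hm))

/-- the span of the right words on a subgroup `N` -/
def SS (x y z : A) (N : AddSubgroup A) : AddSubgroup A :=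
  AddSubgroup.closure {s | ∃ m ∈ N, s = m ∨ s = m * x ∨ s = m * y ∨ s = m * z ∨
    s = (m * x) * y ∨ s = (m * x) * z ∨ s = (m * y) * z ∨ s = ((m * x) * y) * z}

section mem
variable {x y z : A} {N : AddSubgroup A} {m : A} (hm : m ∈ N)
include hm
theorem SS0 : m ∈ SS x y z N :=
  AddSubgroup.subset_closure ⟨m, hm, Or.inl rfl⟩
theorem SS1 : m * x ∈ SS x y z N :=
  AddSubgroup.subset_closure ⟨m, hm, Or.inr (Or.inl rfl)⟩
theorem SS2 : m * y ∈ SS x y z N :=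
  AddSubgroup.subset_closure ⟨m, hm, Or.inr (Or.inr (Or.inl rfl))⟩
theorem SS3 : m * z ∈ SS x y z N :=
  AddSubgroup.subset_closure ⟨m, hm, Or.inr (Or.inr (Or.inr (Or.inl rfl)))⟩
theorem SS12 : (m * x) * y ∈ SS x y z N :=
  AddSubgroup.subset_closure ⟨m, hm, Or.inr (Or.inr (Or.inr (Or.inr (Or.inl rfl))))⟩
theorem SS13 : (m * x) * z ∈ SS x y z N :=
  AddSubgroup.subset_closure ⟨m, hm, Or.inr (Or.inr (Or.inr (Or.inr (Or.inr (Or.inl rfl)))))⟩
theorem SS23 : (m * y) * z ∈ SS x y z N :=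
  AddSubgroup.subset_closure ⟨m, hm, Or.inr (Or.inr (Or.inr (Or.inr (Or.inr (Or.inr
    (Or.inl rfl))))))⟩
theorem SS123 : ((m * x) * y) * z ∈ SS x y z N :=
  AddSubgroup.subset_closure ⟨m, hm, Or.inr (Or.inr (Or.inr (Or.inr (Or.inr (Or.inr
    (Or.inr rfl))))))⟩
end mem

theorem SS_le {x y z : A} {N T : AddSubgroup A} (h0 : ∀ m ∈ N, m ∈ T)
    (h1 : ∀ m ∈ N, m * x ∈ T) (h2 : ∀ m ∈ N, m * y ∈ T) (h3 : ∀ m ∈ N, m * z ∈ T)
    (h12 : ∀ m ∈ N, (m * x) * y ∈ T) (h13 : ∀ m ∈ N, (m * x) * z ∈ T)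
    (h23 : ∀ m ∈ N, (m * y) * z ∈ T) (h123 : ∀ m ∈ N, ((m * x) * y) * z ∈ T) :
    SS x y z N ≤ T := by
  unfold SS
  rw [AddSubgroup.closure_le]
  rintro s ⟨m, hm, rfl | rfl | rfl | rfl | rfl | rfl | rfl | rfl⟩
  · exact h0 _ hm
  · exact h1 m hm
  · exact h2 m hm
  · exact h3 m hm
  · exact h12 m hm
  · exact h13 m hm
  · exact h23 m hm
  · exact h123 m hm

theorem SS21 {x y z : A} {N : AddSubgroup A} (h : Stab x y z N) {m : A} (hm : m ∈ N) :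
    (m * y) * x ∈ SS x y z N := by
  rw [I1 m x y]
  exact sub_mem (sub_mem (add_mem (SS2 (h.vx m hm)) (SS1 (h.vy m hm))) (SS0 (h.uxy m hm)))
    (SS12 hm)

theorem SS31 {x y z : A} {N : AddSubgroup A} (h : Stab x y z N) {m : A} (hm : m ∈ N) :
    (m * z) * x ∈ SS x y z N := by
  rw [I1 m x z]
  exact sub_mem (sub_mem (add_mem (SS3 (h.vx m hm)) (SS1 (h.vz m hm))) (SS0 (h.uxz m hm)))
    (SS13 hm)

theorem SS32 {x y z : A} {N : AddSubgroup A} (h : Stab x y z N) {m : A} (hm : m ∈ N) :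
    (m * z) * y ∈ SS x y z N := by
  rw [I1 m y z]
  exact sub_mem (sub_mem (add_mem (SS3 (h.vy m hm)) (SS2 (h.vz m hm))) (SS0 (h.uyz m hm)))
    (SS23 hm)

theorem SS213 {x y z : A} {N : AddSubgroup A} (h : Stab x y z N) {m : A} (hm : m ∈ N) :
    ((m * y) * x) * z ∈ SS x y z N := by
  rw [I1 m x y]
  simp only [sub_mul, add_mul]
  exact sub_mem (sub_mem (add_mem (SS23 (h.vx m hm)) (SS13 (h.vy m hm))) (SS3 (h.uxy m hm)))
    (SS123 hm)

theorem SS132 {x y z : A} {N : AddSubgroup A} (h : Stab x y z N) {m : A} (hm : m ∈ N) :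
    ((m * x) * z) * y ∈ SS x y z N := by
  rw [I1 (m * x) y z, Vz_mul_x (h.pp m hm), U2yz_mul_x (h.pp m hm),
    Vz_mul_x (h.pp m hm).swap23]
  exact sub_mem (sub_mem (add_mem (SS13 (h.vy m hm)) (SS12 (h.vz m hm))) (SS1 (h.uyz m hm)))
    (SS123 hm)

theorem SS231 {x y z : A} {N : AddSubgroup A} (h : Stab x y z N) {m : A} (hm : m ∈ N) :
    ((m * y) * z) * x ∈ SS x y z N := by
  rw [I1 (m * y) x z, Vz_mul_y (h.pp m hm), U2_comm x z, U2yz_mul_x (h.pp m hm).cyc,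
    Vz_mul_y (h.pp m hm).cyc.swap]
  rw [U2_comm z x]
  exact sub_mem (sub_mem (add_mem (SS23 (h.vx m hm)) (SS21 h (h.vz m hm))) (SS2 (h.uxz m hm)))
    (SS213 h hm)

theorem SS_cyc_le {x y z : A} {N : AddSubgroup A} (h : Stab x y z N) :
    SS y z x N ≤ SS x y z N :=
  SS_le (fun _ hm => SS0 hm) (fun _ hm => SS2 hm) (fun _ hm => SS3 hm) (fun _ hm => SS1 hm)
    (fun _ hm => SS23 hm) (fun _ hm => SS21 h hm) (fun _ hm => SS31 h hm)
    (fun _ hm => SS231 h hm)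

theorem SS_cyc {x y z : A} {N : AddSubgroup A} (h : Stab x y z N) :
    SS y z x N = SS x y z N :=
  le_antisymm (SS_cyc_le h) (le_trans (SS_cyc_le h.cyc.cyc) (SS_cyc_le h.cyc))

/-- `SS` is closed under right multiplication by `z` -/
theorem SS_mul_z {x y z : A} {N : AddSubgroup A} (h : Stab x y z N) {s : A}
    (hs : s ∈ SS x y z N) : s * z ∈ SS x y z N := by
  have : SS x y z N ≤ (SS x y z N).comap (AddMonoidHom.mulRight z) := by
    refine SS_le ?_ ?_ ?_ ?_ ?_ ?_ ?_ ?_ <;> intro m hm <;>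
      rw [AddSubgroup.mem_comap, AddMonoidHom.mulRight_apply]
    · exact SS3 hm
    · exact SS13 hm
    · exact SS23 hm
    · rw [sq_right]; exact sub_mem (SS3 (h.vz m hm)) (SS0 (h.uz m hm))
    · exact SS123 hm
    · rw [sq_right, Vz_mul_x (h.pp m hm), Uz_mul_x (h.pp m hm)]
      exact sub_mem (SS13 (h.vz m hm)) (SS1 (h.uz m hm))
    · rw [sq_right, Vz_mul_y (h.pp m hm), Uz_mul_y (h.pp m hm)]
      exact sub_mem (SS23 (h.vz m hm)) (SS2 (h.uz m hm))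
    · rw [word_zz (h.pp m hm)]
      exact sub_mem (SS123 (h.vz m hm)) (SS12 (h.uz m hm))
  exact this hs

theorem SS_mul_x {x y z : A} {N : AddSubgroup A} (h : Stab x y z N) {s : A}
    (hs : s ∈ SS x y z N) : s * x ∈ SS x y z N := by
  rw [← SS_cyc h] at hs ⊢
  exact SS_mul_z h.cyc hs

theorem SS_mul_y {x y z : A} {N : AddSubgroup A} (h : Stab x y z N) {s : A}
    (hs : s ∈ SS x y z N) : s * y ∈ SS x y z N := by
  rw [← SS_cyc h] at hs ⊢
  exact SS_mul_x h.cyc hs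

theorem SS_asc {x y z : A} {N : AddSubgroup A} (h : Stab x y z N) {m : A} (hm : m ∈ N) :
    m * asc x y z ∈ SS x y z N := by
  rw [m_asc' (h.pp m hm)]
  exact add_mem (sub_mem (sub_mem (add_mem (SS132 h hm) (SS_mul_x h (SS32 h hm)))
    (SS1 (h.vyz hm))) (SS32 h (h.vx m hm))) (SS0 (h.th m hm))

/-- `SS` is closed under `V_x` -/
theorem SS_V_x {x y z : A} {N : AddSubgroup A} (h : Stab x y z N) {s : A}
    (hs : s ∈ SS x y z N) : V x s ∈ SS x y z N := by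
  have key : SS y z x N ≤ (SS x y z N).comap
      (AddMonoidHom.mulLeft x + AddMonoidHom.mulRight x) := by
    have e : ∀ s : A, (AddMonoidHom.mulLeft x + AddMonoidHom.mulRight x) s = V x s := fun s => rfl
    refine SS_le ?_ ?_ ?_ ?_ ?_ ?_ ?_ ?_ <;> intro m hm <;>
      rw [AddSubgroup.mem_comap, e]
    · exact SS0 (h.vx m hm)
    · rw [Vz_mul_x (h.pp m hm).cyc]
      exact SS2 (h.vx m hm)
    · rw [Vz_mul_y (h.pp m hm).cyc]
      exact SS3 (h.vx m hm)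
    · rw [V_self_right]
      exact SS1 (h.vx m hm)
    · rw [Vz_mul_xy (h.pp m hm).cyc, ← asc_cyc]
      exact sub_mem (SS23 (h.vx m hm)) (SS_asc h hm)
    · rw [V_self_right, Vz_mul_x (h.pp m hm).cyc]
      exact SS21 h (h.vx m hm)
    · rw [V_self_right, Vz_mul_y (h.pp m hm).cyc]
      exact SS31 h (h.vx m hm)
    · rw [V_self_right, Vz_mul_xy (h.pp m hm).cyc, ← asc_cyc, sub_mul]
      exact sub_mem (SS231 h (h.vx m hm)) (SS_mul_x h (SS_asc h hm))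
  rw [← SS_cyc h] at hs
  exact key hs

theorem SS_x_mul {x y z : A} {N : AddSubgroup A} (h : Stab x y z N) {s : A}
    (hs : s ∈ SS x y z N) : x * s ∈ SS x y z N := by
  have e : x * s = V x s - s * x := by unfold V; abel
  rw [e]
  exact sub_mem (SS_V_x h hs) (SS_mul_x h hs)

theorem SS_y_mul {x y z : A} {N : AddSubgroup A} (h : Stab x y z N) {s : A}
    (hs : s ∈ SS x y z N) : y * s ∈ SS x y z N := by
  rw [← SS_cyc h] at hs ⊢
  exact SS_x_mul h.cyc hs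

theorem SS_z_mul {x y z : A} {N : AddSubgroup A} (h : Stab x y z N) {s : A}
    (hs : s ∈ SS x y z N) : z * s ∈ SS x y z N := by
  rw [← SS_cyc h] at hs ⊢
  exact SS_y_mul h.cyc hs

/-- `SS` is an ideal of the subring generated by `1, x, y, z` -/
theorem SS_ideal {x y z : A} {N : AddSubgroup A} (h : Stab x y z N)
    {a : A} (ha : a ∈ NonUnitalSubring.closure {1, x, y, z}) {s : A} (hs : s ∈ SS x y z N) :
    a * s ∈ SS x y z N ∧ s * a ∈ SS x y z N := by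
  refine LR_closure (SS x y z N) {1, x, y, z} ?_ ?_ ha s hs
  · rintro g (rfl | rfl | rfl | rfl) n hn
    · rw [one_mul]; exact hn
    · exact SS_x_mul h hn
    · exact SS_y_mul h hn
    · exact SS_z_mul h hn
  · rintro g (rfl | rfl | rfl | rfl) n hn
    · rw [mul_one]; exact hn
    · exact SS_mul_x h hn
    · exact SS_mul_y h hn
    · exact SS_mul_z h hn

/-- elements of `SS` as combinations of eight words -/
theorem SS_form {x y z : A} {N : AddSubgroup A} {s : A} (hs : s ∈ SS x y z N) :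
    ∃ m0 ∈ N, ∃ m1 ∈ N, ∃ m2 ∈ N, ∃ m3 ∈ N, ∃ m4 ∈ N, ∃ m5 ∈ N, ∃ m6 ∈ N, ∃ m7 ∈ N,
      s = m0 + m1 * x + m2 * y + m3 * z + (m4 * x) * y + (m5 * x) * z + (m6 * y) * z +
        ((m7 * x) * y) * z := by
  have hz := N.zero_mem
  induction hs using AddSubgroup.closure_induction with
  | mem s hs =>
    obtain ⟨m, hm, h | h | h | h | h | h | h | h⟩ := hs
    · exact ⟨m, hm, 0, hz, 0, hz, 0, hz, 0, hz, 0, hz, 0, hz, 0, hz, by rw [h]; simp⟩
    · exact ⟨0, hz, m, hm, 0, hz, 0, hz, 0, hz, 0, hz, 0, hz, 0, hz, by rw [h]; simp⟩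
    · exact ⟨0, hz, 0, hz, m, hm, 0, hz, 0, hz, 0, hz, 0, hz, 0, hz, by rw [h]; simp⟩
    · exact ⟨0, hz, 0, hz, 0, hz, m, hm, 0, hz, 0, hz, 0, hz, 0, hz, by rw [h]; simp⟩
    · exact ⟨0, hz, 0, hz, 0, hz, 0, hz, m, hm, 0, hz, 0, hz, 0, hz, by rw [h]; simp⟩
    · exact ⟨0, hz, 0, hz, 0, hz, 0, hz, 0, hz, m, hm, 0, hz, 0, hz, by rw [h]; simp⟩
    · exact ⟨0, hz, 0, hz, 0, hz, 0, hz, 0, hz, 0, hz, m, hm, 0, hz, by rw [h]; simp⟩
    · exact ⟨0, hz, 0, hz, 0, hz, 0, hz, 0, hz, 0, hz, 0, hz, m, hm, by rw [h]; simp⟩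
  | zero => exact ⟨0, hz, 0, hz, 0, hz, 0, hz, 0, hz, 0, hz, 0, hz, 0, hz, by simp⟩
  | add s t _ _ ihs iht =>
    obtain ⟨a0, h0, a1, h1, a2, h2, a3, h3, a4, h4, a5, h5, a6, h6, a7, h7, e⟩ := ihs
    obtain ⟨b0, g0, b1, g1, b2, g2, b3, g3, b4, g4, b5, g5, b6, g6, b7, g7, f⟩ := iht
    refine ⟨a0 + b0, add_mem h0 g0, a1 + b1, add_mem h1 g1, a2 + b2, add_mem h2 g2,
      a3 + b3, add_mem h3 g3, a4 + b4, add_mem h4 g4, a5 + b5, add_mem h5 g5,
      a6 + b6, add_mem h6 g6, a7 + b7, add_mem h7 g7, ?_⟩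
    rw [e, f]
    simp only [add_mul]
    abel
  | neg s _ ih =>
    obtain ⟨a0, h0, a1, h1, a2, h2, a3, h3, a4, h4, a5, h5, a6, h6, a7, h7, e⟩ := ih
    refine ⟨-a0, neg_mem h0, -a1, neg_mem h1, -a2, neg_mem h2, -a3, neg_mem h3,
      -a4, neg_mem h4, -a5, neg_mem h5, -a6, neg_mem h6, -a7, neg_mem h7, ?_⟩
    rw [e]
    simp only [neg_mul]
    abel

end
end Pool.Agent.Lib.MP_20522e_al
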