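import Pool.Agent.Lib.MP_20522e_al.PClass

set_option autoImplicit false

namespace Pool.Agent.Lib.MP_20522e_al

section
variable {A : Type*} [AltRing A]

open MulOpposite (op unop)

/-- `V_{yz} = V_z V_y - U_{z,y}` on the class `LC y z` -/
theorem V_yz {y z m : A} (h : LC y z m) : V (y * z) m = V z (V y m) - U2 z y m := by
  rw [VV_sub_U2, h z (right_mem_Kc y z) y (left_mem_Kc y z)]; rfl

theorem PP_Vyz {x y z m : A} (h : PP x y z m) : PP x y z (V (y * z) m) := by
  rw [V_yz h.yz.2, U2_comm]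
  exact PP_sub (PP_Vz (PP_Vy h)) (PP_U2yz h)

/-- `((m z) y) x = m ((x y) z)` -/
theorem P2 {x y z m : A} (h : PP x y z m) : ((m * z) * y) * x = m * ((x * y) * z) := by
  have e1 : (m * z) * y = m * (y * z) :=
    h.yz.1 z (right_mem_Kc y z) y (left_mem_Kc y z)
  have e2 := ra2 (y * z) x m
  have e3 : (m * x) * (y * z) = m * (y * (z * x)) := h.swap.FR1y (right_mem_Kc x z)
  have e4 := asc_cyc x y z
  have e5 : m * asc x y z = m * asc y z x := by rw [e4]
  unfold asc at e5
  rw [mul_sub, mul_sub] at e5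
  rw [e1]
  linear_combination (norm := abel) e2 - e3 - e5

/-- `x (y (z m)) = (z (y x)) m` -/
theorem P2' {x y z m : A} (h : PP x y z m) : x * (y * (z * m)) = (z * (y * x)) * m := by
  have := P2 (PP_op.2 h)
  exact MulOpposite.op_injective this

theorem E_cyc {x y z m : A} (h : PP x y z m) :
    V x (V (y * z) m) - U2 x (y * z) m = V y (V (z * x) m) - U2 y (z * x) m := by
  rw [VV_sub_U2 x (y * z), VV_sub_U2' y (z * x)]
  have e1 : (y * z) * m = z * (y * m) :=
    (h.yz.2 z (right_mem_Kc y z) y (left_mem_Kc y z)).symm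
  have e2 : m * (z * x) = (m * x) * z :=
    (h.xz.1 x (left_mem_Kc x z) z (right_mem_Kc x z)).symm
  rw [e1, P2' h.swap23, e2, P2 h.cyc]

/-- `Θ` -/
theorem Th_cyc {x y z m : A} (h : PP x y z m) :
    U2 x (y * z) m = V x (V (y * z) m) - V y (V (z * x) m) + U2 y (z * x) m := by
  have := E_cyc h
  linear_combination (norm := abel) -this

theorem Th_cyc2 {x y z m : A} (h : PP x y z m) :
    U2 x (y * z) m = V x (V (y * z) m) - V z (V (x * y) m) + U2 z (x * y) m := by
  rw [Th_cyc h, Th_cyc h.cyc]; abel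

theorem PP_Vzx {x y z m : A} (h : PP x y z m) : PP x y z (V (z * x) m) :=
  (PP_Vyz h.cyc).cyc.cyc
theorem PP_Vxy {x y z m : A} (h : PP x y z m) : PP x y z (V (x * y) m) :=
  (PP_Vyz h.cyc.cyc).cyc

theorem CC_Th_yz {x y z m : A} (h : PP x y z m) : CC y z (U2 x (y * z) m) :=
  CC_U2_yz h (mul_mem (left_mem_Kc y z) (right_mem_Kc y z))

theorem CC_Th_xz {x y z m : A} (h : PP x y z m) : CC x z (U2 x (y * z) m) := by
  rw [Th_cyc h]
  exact CC_add (CC_sub (PP_Vx (PP_Vyz h)).xz (PP_Vy (PP_Vzx h)).xz) (CC_comm (CC_Th_yz h.cyc))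

theorem CC_Th_xy {x y z m : A} (h : PP x y z m) : CC x y (U2 x (y * z) m) := by
  rw [Th_cyc2 h]
  exact CC_add (CC_sub (PP_Vx (PP_Vyz h)).xy (PP_Vz (PP_Vxy h)).xy) (CC_Th_yz h.cyc.cyc)

theorem FR_Th {x y z m : A} (h : PP x y z m) (k : ℕ) : FR x y z k (U2 x (y * z) m) := by
  have hyz : y * z ∈ Kc y z := mul_mem (left_mem_Kc y z) (right_mem_Kc y z)
  have hV := (PP_Vyz h).FR k
  have key : ∀ b : A, RC x b m → (∀ k, ∀ c ∈ Kc y z, (m * b) * (pw x k * c) =
      m * (pw x k * (c * b))) →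
      (∀ c ∈ Kc y z, (V (y * z) m * b) * (pw x k * c) = V (y * z) m * (pw x k * (c * b))) →
      b ∈ Kc y z → ∀ c ∈ Kc y z,
      (U2 x (y * z) m * b) * (pw x k * c) = U2 x (y * z) m * (pw x k * (c * b)) := by
    intro b hb hF hFV hbK c hc
    have star : (m * b) * ((y * z) * (pw x k * c)) = m * ((y * z) * (pw x k * (c * b))) := by
      have e1 := la2 (y * z) (m * b) (pw x k * c)
      have e2 := la2 (y * z) m (pw x k * (c * b))
      have e3 : (y * z * (m * b)) * (pw x k * c) + (m * b * (y * z)) * (pw x k * c) =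
          V (y * z) m * (pw x k * (c * b)) := by
        rw [← hFV c hc, ← V_mul_right h.yz.1 hyz hbK, ← add_mul]; rfl
      have e4 : (y * z * m) * (pw x k * (c * b)) + (m * (y * z)) * (pw x k * (c * b)) =
          V (y * z) m * (pw x k * (c * b)) := by
        rw [← add_mul]; rfl
      rw [hF k c hc, e3] at e1
      rw [e4] at e2
      linear_combination (norm := abel) e2 - e1
    rw [← U2_mul_gen hb h.yz.1 hyz hbK]
    unfold U2
    rw [lmouf2, lmouf2, star, pw_assoc1, hF (k + 1) c hc, pw_assoc1]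
  intro c hc
  exact ⟨key y h.xy.1 (fun k c hc => h.FRy k hc) (fun c hc => (hV c hc).1) (left_mem_Kc y z) c hc,
    key z h.xz.1 (fun k c hc => h.FRz k hc) (fun c hc => (hV c hc).2) (right_mem_Kc y z) c hc⟩

/-- `(zy)` version of `Θ` is again covered: `U_{x,zy} + U_{x,yz}` is a sum of operators -/
theorem RC_V_Th {x y z m : A} (h : PP x y z m) (k : ℕ) :
    RC y z (V (pw x k) (U2 x (y * z) m)) :=
  (FR_iff (CC_Th_xy h).1 (CC_Th_xz h).1 (CC_Th_yz h).1).1 (FR_Th h k)

theorem CC_V_Th {x y z m : A} (h : PP x y z m) (k : ℕ) :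
    CC y z (V (pw x k) (U2 x (y * z) m)) := by
  refine ⟨RC_V_Th h k, RC_op.1 ?_⟩
  rw [← V_op, ← U2_op, ← pw_op, MulOpposite.op_mul]
  exact RC_comm (RC_V_Th (PP_op.2 h).swap23 k)

theorem PP_Th {x y z m : A} (h : PP x y z m) : PP x y z (U2 x (y * z) m) := by
  refine ⟨CC_Th_xy h, CC_Th_xz h, CC_Th_yz h, fun k => CC_V_Th h k, ?_, ?_⟩
  · intro k
    rw [Th_cyc h, V_add, V_sub]
    exact CC_add (CC_sub ((PP_Vx (PP_Vyz h)).fy k) ((PP_Vy (PP_Vzx h)).fy k))
      (CC_comm (CC_V_Th h.cyc k))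
  · intro k
    rw [Th_cyc2 h, V_add, V_sub]
    exact CC_add (CC_sub ((PP_Vx (PP_Vyz h)).fz k) ((PP_Vz (PP_Vxy h)).fz k))
      (CC_V_Th h.cyc.cyc k)

/-! ### commutation of all operators on `PP` -/

theorem cVxVy {x y z m : A} (h : PP x y z m) : V x (V y m) = V y (V x m) :=
  V_V_comm h.xy (left_mem_Kc x y) (right_mem_Kc x y)
theorem cVxVz {x y z m : A} (h : PP x y z m) : V x (V z m) = V z (V x m) :=
  V_V_comm h.xz (left_mem_Kc x z) (right_mem_Kc x z)
theorem cVyVz {x y z m : A} (h : PP x y z m) : V y (V z m) = V z (V y m) :=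
  V_V_comm h.yz (left_mem_Kc y z) (right_mem_Kc y z)

theorem cVxUx {x y z m : A} (h : PP x y z m) : V x (U x m) = U x (V x m) :=
  V_U_comm h.xy (left_mem_Kc x y) (left_mem_Kc x y)
theorem cVxUy {x y z m : A} (h : PP x y z m) : V x (U y m) = U y (V x m) :=
  V_U_comm h.xy (left_mem_Kc x y) (right_mem_Kc x y)
theorem cUxUy {x y z m : A} (h : PP x y z m) : U x (U y m) = U y (U x m) :=
  U_U_comm h.xy (left_mem_Kc x y) (right_mem_Kc x y)
theorem cVxUxy {x y z m : A} (h : PP x y z m) : V x (U2 x y m) = U2 x y (V x m) :=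
  V_U2_comm h.xy (left_mem_Kc x y) (left_mem_Kc x y) (right_mem_Kc x y)
theorem cUxUxy {x y z m : A} (h : PP x y z m) : U x (U2 x y m) = U2 x y (U x m) :=
  U_U2_comm h.xy (left_mem_Kc x y) (left_mem_Kc x y) (right_mem_Kc x y)
theorem cVzUxy {x y z m : A} (h : PP x y z m) : V z (U2 x y m) = U2 x y (V z m) := by
  have := V_U2_z h 1; rwa [pw_one] at this

theorem U_eq (a m : A) : U a m = a * V a m - (a * a) * m := by
  rw [U_def', AltRing.left_alt]; unfold V; rw [mul_add]; abel

theorem U2_eq (a b m : A) : U2 a b m = a * V b m + b * V a m - (a * b + b * a) * m := by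
  rw [U2_def', add_mul, la2]; unfold V; rw [mul_add, mul_add]; abel

theorem cUzUxy {x y z m : A} (h : PP x y z m) : U z (U2 x y m) = U2 x y (U z m) := by
  have e1 := U2_pwz_mul (PP_Vz h) 1
  have e2 := U2_pwz_mul h 2
  have e3 : pw z 2 = z * z := by rw [pw_succ, pw_one]
  rw [pw_one] at e1
  rw [e3] at e2
  rw [U_eq z (U2 x y m), U_eq z m, U2_sub, e1, e2, cVzUxy h]

theorem U_add_left (a b m : A) : U (a + b) m = U a m + U b m + U2 a b m := by
  unfold U U2; simp only [add_mul, mul_add]; abel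

/-- general criterion for `U_p U_q = U_q U_p` -/
theorem UU_comm' {p q m : A} (h1 : (p * q) * m = q * (p * m)) (h2 : m * (q * p) = (m * p) * q)
    (h3 : (p * q) * V p m = q * (p * V p m)) (h4 : ((p * p) * q) * m = q * ((p * p) * m)) :
    U q (U p m) = U p (U q m) := by
  have e1 : U q (p * m) = p * U q m := U_mul_left' h1
  have e2 : U q (m * p) = U q m * p := U_mul_right' h2
  have e3 : U q (V p m) = V p (U q m) := by
    conv_lhs => rw [show V p m = p * m + m * p from rfl, U_add, e1, e2]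
    rfl
  have e4 : U q (p * V p m) = p * U q (V p m) := U_mul_left' h3
  have e5 : U q ((p * p) * m) = (p * p) * U q m := U_mul_left' h4
  rw [U_eq p m, U_sub, e4, e5, e3, U_eq p (U q m)]

/-- `z ((x ∘ y) m) = ((x ∘ y) z) m` -/
theorem circ_left {x y z m : A} (h : PP x y z m) :
    ((x * y + y * x) * z) * m = z * ((x * y + y * x) * m) := by
  have e1 : (x * y) * m = y * (x * m) :=
    (h.xy.2 y (right_mem_Kc x y) x (left_mem_Kc x y)).symm
  have e2 : (y * x) * m = x * (y * m) :=
    (h.xy.2 x (left_mem_Kc x y) y (right_mem_Kc x y)).symm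
  have e3 : z * (y * (x * m)) = (x * (y * z)) * m := P2' h.cyc.cyc.swap23
  have e4 : z * (x * (y * m)) = (y * (x * z)) * m := P2' h.cyc.cyc
  have e5 := la2 x y z
  rw [add_mul (x * y) (y * x) m, mul_add, e1, e2, e3, e4, ← add_mul, ← e5, ← add_mul]

theorem circ_right {x y z m : A} (h : PP x y z m) :
    m * (z * (x * y + y * x)) = (m * (x * y + y * x)) * z := by
  have := circ_left (PP_op.2 h)
  have h2 := MulOpposite.op_injective this
  rw [add_comm (x * y) (y * x)]
  exact h2

theorem cUxyUxz {x y z m : A} (h : PP x y z m) :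
    U2 x y (U2 x z m) = U2 x z (U2 x y m) := by
  have A1 : ∀ n : A, PP x y z n → ((x + y) * (x + z)) * n = (x + z) * ((x + y) * n) := by
    intro n hn
    have a1 : (x * x) * n = x * (x * n) := AltRing.left_alt x n
    have a2 : (x * z) * n = z * (x * n) :=
      (hn.xz.2 z (right_mem_Kc x z) x (left_mem_Kc x z)).symm
    have a3 : (y * x) * n = x * (y * n) :=
      (hn.xy.2 x (left_mem_Kc x y) y (right_mem_Kc x y)).symm
    have a4 : (y * z) * n = z * (y * n) :=
      (hn.yz.2 z (right_mem_Kc y z) y (left_mem_Kc y z)).symm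
    simp only [add_mul, mul_add]
    rw [a1, a2, a3, a4]; abel
  have A2 : m * ((x + z) * (x + y)) = (m * (x + y)) * (x + z) := by
    have a1 : m * (x * x) = (m * x) * x := (AltRing.right_alt x m).symm
    have a2 : m * (z * x) = (m * x) * z :=
      (h.xz.1 x (left_mem_Kc x z) z (right_mem_Kc x z)).symm
    have a3 : m * (x * y) = (m * y) * x :=
      (h.xy.1 y (right_mem_Kc x y) x (left_mem_Kc x y)).symm
    have a4 : m * (z * y) = (m * y) * z :=
      (h.yz.1 y (left_mem_Kc y z) z (right_mem_Kc y z)).symm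
    simp only [add_mul, mul_add]
    rw [a1, a2, a3, a4]; abel
  have A4 : (((x + y) * (x + y)) * (x + z)) * m = (x + z) * (((x + y) * (x + y)) * m) := by
    have hs : (x + y) * (x + y) ∈ Kc x y :=
      mul_mem (add_mem (left_mem_Kc x y) (right_mem_Kc x y))
        (add_mem (left_mem_Kc x y) (right_mem_Kc x y))
    have b1 : (((x + y) * (x + y)) * x) * m = x * (((x + y) * (x + y)) * m) :=
      (h.xy.2 x (left_mem_Kc x y) _ hs).symm
    have b2 : ((x * x) * z) * m = z * ((x * x) * m) :=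
      (h.xz.2 z (right_mem_Kc x z) _ (mul_mem (left_mem_Kc x z) (left_mem_Kc x z))).symm
    have b3 : ((y * y) * z) * m = z * ((y * y) * m) :=
      (h.yz.2 z (right_mem_Kc y z) _ (mul_mem (left_mem_Kc y z) (left_mem_Kc y z))).symm
    have b4 := circ_left h
    have b5 : (x + y) * (x + y) = x * x + y * y + (x * y + y * x) := by
      simp only [add_mul, mul_add]; abel
    rw [mul_add, add_mul, add_mul (x) z, b1, b5]
    congr 1
    rw [add_mul, add_mul, add_mul, add_mul, b2, b3, b4, add_mul (x * x + y * y), add_mul (x * x),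
      mul_add, mul_add]
  have key := UU_comm' (A1 m h) A2 (A1 _ (by rw [V_add_left]; exact PP_add (PP_Vx h) (PP_Vy h))) A4
  simp only [U_add_left, U_add, U2_add] at key
  have c1 := cUxUy h
  have c2 := cUxUxy h
  have c3 := cUxUy h.swap23
  have c4 := cUxUy h.cyc
  have c5 := cUzUxy h
  have c6 := cUxUxy h.swap23
  have c7 : U y (U2 x z m) = U2 x z (U y m) := cUzUxy h.swap23
  linear_combination (norm := abel) -key + c1 + c2 - c3 - c4 + c5 - c6 - c7

end
end Pool.Agent.Lib.MP_20522e_al
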