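import Pool.Agent.Lib.MP_20522e_al.Embed

set_option autoImplicit false

namespace Pool.Agent.Lib.MP_20522e_al

theorem isPres1 : IsPres (fun (p q : MonoidAlgebra ℤ (FreeMagma (Fin 3))) =>
    ∃ a b : MonoidAlgebra ℤ (FreeMagma (Fin 3)),
      (p = (a * a) * b ∧ q = a * (a * b)) ∨ (p = (b * a) * a ∧ q = b * (a * a))) := by
  refine ⟨?_, ?_, ?_, ?_⟩
  · rintro _ _ ⟨a, b, ⟨rfl, rfl⟩ | ⟨rfl, rfl⟩⟩
    · exact pi_left a b
    · exact pi_right a b
  · rintro _ _ ⟨a, b, ⟨rfl, rfl⟩ | ⟨rfl, rfl⟩⟩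
    · exact psi_left a b
    · exact psi_right a b
  · exact fun u v => RingConGen.Rel.of _ _ ⟨u, v, Or.inl ⟨rfl, rfl⟩⟩
  · exact fun u v => RingConGen.Rel.of _ _ ⟨u, v, Or.inr ⟨rfl, rfl⟩⟩

/-- the free alternative ring on three generators is torsion free -/
theorem torsion_thm (f : MonoidAlgebra ℤ (FreeMagma (Fin 3))) (n : ℕ) (hn : 0 < n)
    (h : RingConGen.Rel
        (fun (p q : MonoidAlgebra ℤ (FreeMagma (Fin 3))) =>
          ∃ a b : MonoidAlgebra ℤ (FreeMagma (Fin 3)),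
            (p = (a * a) * b ∧ q = a * (a * b)) ∨ (p = (b * a) * a ∧ q = b * (a * a)))
        (n • f) 0) :
      RingConGen.Rel
        (fun (p q : MonoidAlgebra ℤ (FreeMagma (Fin 3))) =>
          ∃ a b : MonoidAlgebra ℤ (FreeMagma (Fin 3)),
            (p = (a * a) * b ∧ q = a * (a * b)) ∨ (p = (b * a) * a ∧ q = b * (a * a)))
        f 0 := by
  rw [isPres1.iff, map_zero, map_zero, map_nsmul, map_nsmul] at h
  rw [isPres1.iff, map_zero, map_zero]
  exact ⟨free_torsion hn h.1, oct_torsion hn h.2⟩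

end Pool.Agent.Lib.MP_20522e_al
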