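import Pool.Agent.Lib.MP_20522e_al.Classes

set_option autoImplicit false

namespace Pool.Agent.Lib.MP_20522e_al

section
variable {A : Type*} [AltRing A]

open MulOpposite (op unop)

/-! ### commutation of the operators on the class `CC` -/

theorem V_V_comm {x y m a b : A} (hm : CC x y m) (ha : a ∈ Kc x y) (hb : b ∈ Kc x y) :
    V a (V b m) = V b (V a m) := by
  have h1 := V_mul_left hm.2 ha hb
  have h2 := V_mul_right hm.1 ha hb
  conv_lhs => rw [show V b m = b * m + m * b from rfl, V_add, h1, h2]
  rfl

theorem V_U_comm {x y m a b : A} (hm : CC x y m) (ha : a ∈ Kc x y) (hb : b ∈ Kc x y) :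
    V a (U b m) = U b (V a m) := by
  have h1 := V_mul_left (LC_mul_right hm.2 hb) ha hb
  have h2 := V_mul_right hm.1 ha hb
  rw [U_def' b m, h1, h2, ← U_def']

theorem V_U2_comm {x y m a p q : A} (hm : CC x y m) (ha : a ∈ Kc x y) (hp : p ∈ Kc x y)
    (hq : q ∈ Kc x y) : V a (U2 p q m) = U2 p q (V a m) := by
  rw [U2_def' p q m, V_add, V_mul_left (LC_mul_right hm.2 hq) ha hp,
    V_mul_left (LC_mul_right hm.2 hp) ha hq, V_mul_right hm.1 ha hq, V_mul_right hm.1 ha hp,
    ← U2_def']

theorem U_U_comm {x y m p q : A} (hm : CC x y m) (hp : p ∈ Kc x y)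
    (hq : q ∈ Kc x y) : U p (U q m) = U q (U p m) := by
  rw [U_def' q m, U_mul_left (LC_mul_right hm.2 hq) hp hq, U_mul_right hm.1 hp hq, ← U_def']

theorem U_U2_comm {x y m a p q : A} (hm : CC x y m) (ha : a ∈ Kc x y) (hp : p ∈ Kc x y)
    (hq : q ∈ Kc x y) : U a (U2 p q m) = U2 p q (U a m) := by
  rw [U2_def' p q m, U_add, U_mul_left (LC_mul_right hm.2 hq) ha hp,
    U_mul_left (LC_mul_right hm.2 hp) ha hq, U_mul_right hm.1 ha hq, U_mul_right hm.1 ha hp,
    ← U2_def']

/-- `RC` from the relations with a generator as first factor -/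
theorem RC_of_gen {x y m : A} (hx : ∀ c ∈ Kc x y, (m * x) * c = m * (c * x))
    (hy : ∀ c ∈ Kc x y, (m * y) * c = m * (c * y)) : RC x y m := by
  intro a ha
  induction ha using Kc_induction with
  | one => intro b _; rw [mul_one, mul_one]
  | left => exact hx
  | right => exact hy
  | zero => intro b _; simp
  | add a b _ _ iha ihb =>
    intro c hc
    rw [mul_add, add_mul, mul_add, mul_add, iha c hc, ihb c hc]
  | neg a _ iha =>
    intro c hc
    rw [mul_neg, neg_mul, mul_neg, mul_neg, iha c hc]
  | mul a b ha hb iha ihb =>
    intro c hc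
    have skew : ∀ c ∈ Kc x y, (m * c) * a = m * (a * c) := by
      intro c hc
      have h1 := ra2 a c m
      rw [iha c hc] at h1
      linear_combination (norm := abel) h1
    have e1 : m * (a * b) = (m * b) * a := (ihb a ha).symm
    rw [e1]
    have e2 := ra2 a c (m * b)
    have e3 : m * b * c * a = m * (a * (c * b)) := by
      rw [ihb c hc, skew _ (mul_mem hc hb)]
    have e4 : m * b * (a * c) = m * ((a * c) * b) := ihb _ (mul_mem ha hc)
    have e5 : m * b * (c * a) = m * ((c * a) * b) := ihb _ (mul_mem hc ha)
    rw [e3, e4, e5, artin_assoc ha hc hb, artin_assoc hc ha hb] at e2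
    linear_combination (norm := abel) e2

/-! ### words -/

/-- letters -/
def lt (x y : A) : Bool → A
  | true => x
  | false => y

/-- evaluation of words -/
def ev (x y : A) : List Bool → A
  | [] => 1
  | b :: l => lt x y b * ev x y l

/-- iterated right multiplications -/
def rho (x y : A) : List Bool → A → A
  | [], m => m
  | b :: l, m => rho x y l m * lt x y b

theorem lt_mem (x y : A) (b : Bool) : lt x y b ∈ Kc x y := by
  cases b
  · exact right_mem_Kc x y
  · exact left_mem_Kc x y

theorem ev_mem (x y : A) (l : List Bool) : ev x y l ∈ Kc x y := by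
  induction l with
  | nil => exact one_mem_Kc x y
  | cons b l ih => exact mul_mem (lt_mem x y b) ih

theorem ev_append (x y : A) (l l' : List Bool) : ev x y (l ++ l') = ev x y l * ev x y l' := by
  induction l with
  | nil => simp [ev]
  | cons b l ih =>
    rw [List.cons_append, ev, ev, ih, artin_assoc (lt_mem x y b) (ev_mem x y l) (ev_mem x y l')]

theorem rho_append (x y : A) (l l' : List Bool) (m : A) :
    rho x y (l ++ l') m = rho x y l (rho x y l' m) := by
  induction l with
  | nil => rfl
  | cons b l ih => rw [List.cons_append, rho, rho, ih]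

theorem rho_mem {x y : A} (N : AddSubgroup A) (hx : ∀ m ∈ N, m * x ∈ N) (hy : ∀ m ∈ N, m * y ∈ N)
    (l : List Bool) {m : A} (hm : m ∈ N) : rho x y l m ∈ N := by
  induction l with
  | nil => exact hm
  | cons b l ih =>
    rw [rho]
    cases b
    · exact hy _ ih
    · exact hx _ ih

theorem Kc_span {x y a : A} (ha : a ∈ Kc x y) :
    a ∈ AddSubgroup.closure (Set.range (ev x y)) := by
  induction ha using Kc_induction with
  | one => exact AddSubgroup.subset_closure ⟨[], rfl⟩
  | left => exact AddSubgroup.subset_closure ⟨[true], by simp [ev, lt]⟩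
  | right => exact AddSubgroup.subset_closure ⟨[false], by simp [ev, lt]⟩
  | zero => exact zero_mem _
  | add a b _ _ iha ihb => exact add_mem iha ihb
  | neg a _ iha => exact neg_mem iha
  | mul a b _ _ iha ihb =>
    clear * - iha ihb
    induction iha using AddSubgroup.closure_induction with
    | mem a ha =>
      obtain ⟨l, rfl⟩ := ha
      induction ihb using AddSubgroup.closure_induction with
      | mem b hb =>
        obtain ⟨l', rfl⟩ := hb
        exact AddSubgroup.subset_closure ⟨l ++ l', ev_append x y l l'⟩
      | zero => rw [mul_zero]; exact zero_mem _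
      | add b c _ _ ihb ihc => rw [mul_add]; exact add_mem ihb ihc
      | neg b _ ihb => rw [mul_neg]; exact neg_mem ihb
    | zero => rw [zero_mul]; exact zero_mem _
    | add b c _ _ ihb ihc => rw [add_mul]; exact add_mem ihb ihc
    | neg b _ ihb => rw [neg_mul]; exact neg_mem ihb

section module
variable {x y : A} (N : AddSubgroup A) (hx : ∀ m ∈ N, m * x ∈ N) (hy : ∀ m ∈ N, m * y ∈ N)
  (h1 : ∀ m ∈ N, (m * y) * x = m * (x * y)) (h2 : ∀ m ∈ N, (m * x) * y = m * (y * x))
include hx hy h1 h2

theorem word_aux (n : ℕ) : ∀ l : List Bool, l.length ≤ n → ∀ m ∈ N, m * ev x y l = rho x y l m := by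
  induction n using Nat.strong_induction_on with
  | _ n ih =>
  intro l hl
  have W : ∀ l' : List Bool, l'.length < n → ∀ m ∈ N, m * ev x y l' = rho x y l' m :=
    fun l' hl' => ih l'.length hl' l' le_rfl
  -- rotation
  have rot : ∀ p q : List Bool, p.length < n → q.length < n →
      (∀ m ∈ N, m * ev x y (q ++ p) = rho x y (q ++ p) m) →
      ∀ m ∈ N, m * ev x y (p ++ q) = rho x y (p ++ q) m := by
    intro p q hp hq h m hm
    have e := ra2 (ev x y p) (ev x y q) m
    have hm' := h m hm
    rw [ev_append, rho_append] at hm' ⊢
    rw [W p hp m hm, W q hq m hm, W q hq _ (rho_mem N hx hy p hm),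
      W p hp _ (rho_mem N hx hy q hm)] at e
    rw [hm'] at e
    linear_combination (norm := abel) -e
  have sand : ∀ p l' : List Bool, p.length < n → l'.length < n →
      ∀ m ∈ N, m * ev x y (p ++ l' ++ p) = rho x y (p ++ l' ++ p) m := by
    intro p l' hp hl' m hm
    rw [ev_append, ev_append, rho_append, rho_append, ← W p hp m hm, ← W l' hl' _ ?_,
      ← W p hp _ ?_, rmouf]
    · rw [W l' hl' _ ?_]
      · exact rho_mem N hx hy _ (by rw [W p hp m hm]; exact rho_mem N hx hy _ hm)
      · rw [W p hp m hm]; exact rho_mem N hx hy _ hm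
    · rw [W p hp m hm]; exact rho_mem N hx hy _ hm
  rcases Nat.lt_or_ge l.length n with hlt | hge
  · exact W l hlt
  have hln : l.length = n := le_antisymm hl hge
  match l, hln with
  | [], _ => intro m _; simp [ev, rho]
  | [a], _ => intro m _; simp [ev, rho]
  | [a, b], _ =>
    intro m hm
    simp only [ev, rho, mul_one]
    cases a <;> cases b <;> simp only [lt]
    · exact (AltRing.right_alt y m).symm
    · exact (h2 m hm).symm
    · exact (h1 m hm).symm
    · exact (AltRing.right_alt x m).symm
  | a :: b :: c :: t, hn =>
    obtain ⟨s, e, hs⟩ : ∃ s e, c :: t = s ++ [e] := by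
      rcases List.eq_nil_or_concat (c :: t) with h | ⟨s, e, h⟩
      · simp at h
      · exact ⟨s, e, by simpa using h⟩
    have hlen : (s.length : ℕ) + 1 + 2 = n := by
      have := congrArg List.length hs
      simp at this hn
      omega
    rw [hs]
    by_cases hae : a = e
    · subst hae
      have := sand [a] (b :: s) (by simp; omega) (by simp; omega)
      simpa using this
    by_cases hab : a = b
    · subst hab
      have h := sand [a] (s ++ [e]) (by simp; omega) (by simp; omega)
      have := rot [a] (a :: (s ++ [e])) (by simp; omega) (by simp; omega) (by simpa using h)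
      simpa using this
    have hbe : b = e := by cases a <;> cases b <;> cases e <;> simp_all
    subst hbe
    rcases List.eq_nil_or_concat s with hs' | ⟨s', d, hs'⟩
    · subst hs'
      have h := sand [b] [a] (by simp at *; omega) (by simp at *; omega)
      have := rot [a, b] [b] (by simp at *; omega) (by simp at *; omega) (by simpa using h)
      simpa using this
    · have hs'' : s = s' ++ [d] := by simpa using hs'
      subst hs''
      simp only [List.length_append, List.length_cons, List.length_nil] at hlen
      by_cases hdb : d = b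
      · subst hdb
        have h := sand [d] (a :: d :: s') (by simp; omega) (by simp; omega)
        have := rot (a :: d :: (s' ++ [d])) [d] (by simp; omega) (by simp; omega)
          (by simpa using h)
        simpa using this
      · have hda : d = a := by
          clear * - hdb hab
          revert hdb hab
          revert a b d
          decide
        subst hda
        have h := sand [d, b] s' (by simp only [List.length_cons, List.length_nil]; omega) (by omega)
        have e : d :: b :: (s' ++ [d] ++ [b]) = [d, b] ++ s' ++ [d, b] := by simp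
        rw [e]
        exact h

theorem RC_of_module {m : A} (hm : m ∈ N) : RC x y m := by
  have key : ∀ g : A, (g = x ∨ g = y) → ∀ c ∈ Kc x y, (m * g) * c = m * (c * g) := by
    intro g hg c hc
    have hc' := Kc_span hc
    clear hc
    induction hc' using AddSubgroup.closure_induction with
    | mem c hc =>
      obtain ⟨l, rfl⟩ := hc
      obtain ⟨b, hb⟩ : ∃ b, g = lt x y b := by
        rcases hg with rfl | rfl
        · exact ⟨true, rfl⟩
        · exact ⟨false, rfl⟩
      have e1 : ev x y l * g = ev x y (l ++ [b]) := by rw [ev_append, hb]; simp [ev]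
      have e2 : m * g ∈ N := by rcases hg with rfl | rfl <;> [exact hx m hm; exact hy m hm]
      rw [e1, word_aux N hx hy h1 h2 _ _ le_rfl m hm, word_aux N hx hy h1 h2 _ _ le_rfl _ e2,
        rho_append, hb]
      rfl
    | zero => simp
    | add b c _ _ ihb ihc => rw [mul_add, ihb, ihc, add_mul, mul_add]
    | neg b _ ihb => rw [mul_neg, ihb, neg_mul, mul_neg]
  exact RC_of_gen (key x (Or.inl rfl)) (key y (Or.inr rfl))

end module

end
end Pool.Agent.Lib.MP_20522e_al
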